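import Mathlib

open Finset Filter Topology
open scoped Pointwise Classical ENNReal

namespace Pool.Agent.V1131.AlgEntropy

section Shearer

variable {ι α κ : Type*}

/-- The number of restrictions to `S` of the tuples in `R`. -/
noncomputable def P (S : Finset ι) (R : Finset (ι → α)) : ℕ :=
  (R.image (fun r => S.restrict r)).card

lemma P_pos (S : Finset ι) {R : Finset (ι → α)} (hR : R.Nonempty) : 0 < P S R :=
  Finset.card_pos.mpr (hR.image _)

lemma P_mono (S : Finset ι) {R R' : Finset (ι → α)} (h : R' ⊆ R) : P S R' ≤ P S R :=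
  Finset.card_le_card (Finset.image_subset_image h)

lemma P_split {S : Finset ι} {i₀ : ι} (hi : i₀ ∈ S) (R : Finset (ι → α)) :
    P S R = ∑ x ∈ R.image (fun r => r i₀), P S (R.filter (fun r => r i₀ = x)) := by
  unfold P
  rw [Finset.card_eq_sum_card_fiberwise (f := fun u : (S → α) => u ⟨i₀, hi⟩)
    (t := R.image (fun r => r i₀))]
  · refine Finset.sum_congr rfl fun x _ => ?_
    congr 1
    ext u
    simp only [Finset.mem_filter, Finset.mem_image]
    constructor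
    · rintro ⟨⟨r, hr, rfl⟩, h⟩
      exact ⟨r, ⟨hr, h⟩, rfl⟩
    · rintro ⟨r, ⟨hr, h⟩, rfl⟩
      exact ⟨⟨r, hr, rfl⟩, h⟩
  · intro u hu
    simp only [Finset.coe_image, Set.mem_image, Finset.mem_coe] at hu
    obtain ⟨r, hr, rfl⟩ := hu
    simp only [Finset.coe_image, Set.mem_image, Finset.mem_coe]
    exact ⟨r, hr, rfl⟩

lemma P_insert_le {F : Finset ι} {i₀ : ι} {R : Finset (ι → α)} {x : α}
    (hx : ∀ r ∈ R, r i₀ = x) : P (insert i₀ F) R ≤ P F R := by
  unfold P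
  refine Finset.card_le_card_of_injOn
    (fun u => fun i : F => u ⟨i.1, Finset.mem_insert_of_mem i.2⟩) ?_ ?_
  · intro u hu
    simp only [Finset.coe_image, Set.mem_image, Finset.mem_coe] at hu
    obtain ⟨r, hr, rfl⟩ := hu
    simp only [Finset.coe_image, Set.mem_image, Finset.mem_coe]
    exact ⟨r, hr, rfl⟩
  · intro u hu v hv huv
    simp only [Finset.coe_image, Set.mem_image, Finset.mem_coe] at hu hv
    obtain ⟨r, hr, rfl⟩ := hu
    obtain ⟨s, hs, rfl⟩ := hv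
    funext ⟨i, hi⟩
    rcases Finset.mem_insert.mp hi with rfl | hi'
    · change r i = s i
      rw [hx r hr, hx s hs]
    · exact congrFun huv ⟨i, hi'⟩

/-- AM-GM in the form of powers. -/
lemma amgm {J : Finset κ} {k : ℕ} (hk : 0 < k) (hJ : J.card = k) (z : κ → ℝ)
    (hz : ∀ j ∈ J, 0 ≤ z j) : ∏ j ∈ J, z j ≤ (∑ j ∈ J, (1 / (k : ℝ)) * z j) ^ k := by
  have hk' : (k : ℝ) ≠ 0 := by positivity
  have h := Real.geom_mean_le_arith_mean_weighted J (fun _ => 1 / (k : ℝ)) z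
    (fun _ _ => by positivity) (by
      rw [Finset.sum_const, hJ, nsmul_eq_mul]
      field_simp) hz
  have h2 : (∏ j ∈ J, z j ^ (1 / (k : ℝ))) ^ k = ∏ j ∈ J, z j := by
    rw [← Finset.prod_pow]
    refine Finset.prod_congr rfl fun j hj => ?_
    rw [one_div]
    exact Real.rpow_inv_natCast_pow (hz j hj) hk.ne'
  rw [← h2]
  exact pow_le_pow_left₀ (Finset.prod_nonneg fun j hj => Real.rpow_nonneg (hz j hj) _) h k

lemma holder_step {τ : Type*} {k : ℕ} (hk : 0 < k) (J J' : Finset κ) (hJ : J' ⊆ J)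
    (hJc : J'.card = k) (T : Finset τ) (a : κ → τ → ℝ) (A : κ → ℝ) (b : τ → ℝ)
    (ha : ∀ j ∈ J, ∀ x ∈ T, 0 ≤ a j x) (haA : ∀ j ∈ J, ∀ x ∈ T, a j x ≤ A j)
    (hA : ∀ j ∈ J, 0 < A j) (hsum : ∀ j ∈ J', ∑ x ∈ T, a j x ≤ A j)
    (hb : ∀ x ∈ T, 0 ≤ b x) (hba : ∀ x ∈ T, (b x) ^ k ≤ ∏ j ∈ J, a j x) :
    (∑ x ∈ T, b x) ^ k ≤ ∏ j ∈ J, A j := by
  have hk' : (k : ℝ) ≠ 0 := by positivity
  set C : ℝ := ∏ j ∈ J, A j with hC
  have hCpos : 0 < C := Finset.prod_pos hA
  set c : ℝ := C ^ ((k : ℝ)⁻¹) with hc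
  have hcpos : 0 < c := Real.rpow_pos_of_pos hCpos _
  have hck : c ^ k = C := Real.rpow_inv_natCast_pow hCpos.le hk.ne'
  have h1 : ∀ x ∈ T, b x ≤ c * ∑ j ∈ J', (1 / (k : ℝ)) * (a j x / A j) := by
    intro x hx
    have hnn : 0 ≤ ∑ j ∈ J', (1 / (k : ℝ)) * (a j x / A j) :=
      Finset.sum_nonneg fun j hj => by
        have := ha j (hJ hj) x hx
        have := hA j (hJ hj)
        positivity
    refine le_of_pow_le_pow_left₀ hk.ne' (mul_nonneg hcpos.le hnn) ?_
    rw [mul_pow, hck]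
    have h2 : ∏ j ∈ J, a j x ≤ C * ∏ j ∈ J', (a j x / A j) := by
      rw [Finset.prod_div_distrib, hC, ← Finset.prod_sdiff hJ, ← Finset.prod_sdiff hJ]
      have hpos : 0 < ∏ j ∈ J', A j := Finset.prod_pos fun j hj => hA j (hJ hj)
      have h3 : (∏ j ∈ J \ J', A j) * (∏ j ∈ J', A j) * ((∏ j ∈ J', a j x) / ∏ j ∈ J', A j) =
          (∏ j ∈ J \ J', A j) * (∏ j ∈ J', a j x) := by
        field_simp
      rw [h3]
      refine mul_le_mul_of_nonneg_right ?_ (Finset.prod_nonneg fun j hj => ha j (hJ hj) x hx)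
      exact Finset.prod_le_prod (fun j hj => ha j (Finset.sdiff_subset hj) x hx)
        (fun j hj => haA j (Finset.sdiff_subset hj) x hx)
    refine (hba x hx).trans (h2.trans ?_)
    refine mul_le_mul_of_nonneg_left ?_ hCpos.le
    refine amgm hk hJc _ fun j hj => ?_
    have := ha j (hJ hj) x hx
    have := hA j (hJ hj)
    positivity
  have h4 : ∑ x ∈ T, b x ≤ c := by
    refine (Finset.sum_le_sum h1).trans ?_
    rw [← Finset.mul_sum]
    have h5 : ∑ x ∈ T, ∑ j ∈ J', (1 / (k : ℝ)) * (a j x / A j) ≤ 1 := by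
      rw [Finset.sum_comm]
      have h6 : ∀ j ∈ J', ∑ x ∈ T, (1 / (k : ℝ)) * (a j x / A j) ≤ 1 / (k : ℝ) := by
        intro j hj
        rw [← Finset.mul_sum, ← Finset.sum_div]
        have h7 : (∑ x ∈ T, a j x) / A j ≤ 1 := by
          rw [div_le_one (hA j (hJ hj))]
          exact hsum j hj
        calc (1 / (k : ℝ)) * ((∑ x ∈ T, a j x) / A j) ≤ (1 / (k : ℝ)) * 1 :=
              mul_le_mul_of_nonneg_left h7 (by positivity)
          _ = 1 / (k : ℝ) := mul_one _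
      refine (Finset.sum_le_sum h6).trans ?_
      rw [Finset.sum_const, hJc, nsmul_eq_mul]
      field_simp
      exact le_refl _
    calc c * _ ≤ c * 1 := mul_le_mul_of_nonneg_left h5 hcpos.le
      _ = c := mul_one _
  calc (∑ x ∈ T, b x) ^ k ≤ c ^ k := pow_le_pow_left₀ (Finset.sum_nonneg hb) h4 k
    _ = C := hck

/-- Shearer's inequality for projections of a finite set of tuples. -/
theorem shearer (k : ℕ) (J : Finset κ) (𝒮 : κ → Finset ι) (F : Finset ι)
    (hcov : ∀ i ∈ F, k ≤ (J.filter (fun j => i ∈ 𝒮 j)).card) (R : Finset (ι → α))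
    (hR : R.Nonempty) : (P F R) ^ k ≤ ∏ j ∈ J, P (𝒮 j) R := by
  rcases Nat.eq_zero_or_pos k with rfl | hk
  · rw [pow_zero]
    exact Nat.succ_le_of_lt (Finset.prod_pos fun j _ => P_pos _ hR)
  induction F using Finset.induction_on generalizing R with
  | empty =>
    have h1 : P (∅ : Finset ι) R ≤ 1 := by
      unfold P
      exact Finset.card_le_one.mpr fun a _ b _ => Subsingleton.elim a b
    calc (P ∅ R) ^ k ≤ 1 ^ k := Nat.pow_le_pow_left h1 k
      _ = 1 := one_pow k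
      _ ≤ _ := Nat.succ_le_of_lt (Finset.prod_pos fun j _ => P_pos _ hR)
  | insert i₀ F hi₀ ih =>
    obtain ⟨J', hJ', hJ'c⟩ := Finset.exists_subset_card_eq (hcov i₀ (Finset.mem_insert_self _ _))
    set T := R.image (fun r => r i₀) with hT
    have hne : ∀ x ∈ T, (R.filter (fun r => r i₀ = x)).Nonempty := by
      intro x hx
      obtain ⟨r, hr, rfl⟩ := Finset.mem_image.mp hx
      exact ⟨r, Finset.mem_filter.mpr ⟨hr, rfl⟩⟩
    have key := holder_step hk J J' (fun j hj => (Finset.mem_filter.mp (hJ' hj)).1) hJ'c T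
      (fun j x => (P (𝒮 j) (R.filter (fun r => r i₀ = x)) : ℝ)) (fun j => (P (𝒮 j) R : ℝ))
      (fun x => (P F (R.filter (fun r => r i₀ = x)) : ℝ))
      (fun j _ x _ => Nat.cast_nonneg _)
      (fun j _ x _ => by
        exact_mod_cast P_mono _ (Finset.filter_subset _ _))
      (fun j _ => by exact_mod_cast P_pos _ hR)
      (fun j hj => by
        rw [P_split (Finset.mem_filter.mp (hJ' hj)).2 R]
        push_cast
        exact le_refl _)
      (fun x _ => Nat.cast_nonneg _)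
      (fun x hx => by
        have := ih (fun i hi => hcov i (Finset.mem_insert_of_mem hi))
          (R.filter (fun r => r i₀ = x)) (hne x hx)
        exact_mod_cast this)
    have h1 : P (insert i₀ F) R ≤ ∑ x ∈ T, P F (R.filter (fun r => r i₀ = x)) := by
      rw [P_split (Finset.mem_insert_self i₀ F) R]
      exact Finset.sum_le_sum fun x _ =>
        P_insert_le (x := x) fun r hr => (Finset.mem_filter.mp hr).2
    have key' : (∑ x ∈ T, P F (R.filter (fun r => r i₀ = x))) ^ k ≤ ∏ j ∈ J, P (𝒮 j) R := by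
      exact_mod_cast key
    exact (Nat.pow_le_pow_left h1 k).trans key'

end Shearer

section Sumsets

variable {ι κ A : Type*} [AddCommGroup A]

omit [AddCommGroup A] in
lemma exists_weight (Q : Finset (ι × A)) : ∃ w : ι × A → ℕ, ∀ S S' : Finset (ι × A),
    S ⊆ Q → S' ⊆ Q → ∑ p ∈ S, w p = ∑ p ∈ S', w p → S = S' := by
  obtain ⟨e, he⟩ : ∃ e : ι × A → ℕ, Set.InjOn e Q := by
    refine ⟨fun p => if h : p ∈ Q then (Q.equivFin ⟨p, h⟩ : ℕ) else 0, ?_⟩
    intro p hp q hq hpq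
    simp only [Finset.mem_coe] at hp hq
    simp only [hp, hq, dif_pos] at hpq
    have := Q.equivFin.injective (Fin.ext hpq)
    exact congrArg Subtype.val this
  refine ⟨fun p => 2 ^ e p, fun S S' hS hS' h => ?_⟩
  have h1 : ∀ U : Finset (ι × A), U ⊆ Q → ∑ p ∈ U, 2 ^ e p = ∑ n ∈ U.image e, 2 ^ n := by
    intro U hU
    rw [Finset.sum_image]
    intro p hp q hq hpq
    exact he (hU hp) (hU hq) hpq
  rw [h1 S hS, h1 S' hS'] at h
  have h2 : S.image e = S'.image e := Finset.geomSum_injective (n := 2) le_rfl h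
  ext p
  constructor
  · intro hp
    have : e p ∈ S'.image e := h2 ▸ Finset.mem_image_of_mem e hp
    obtain ⟨q, hq, hqe⟩ := Finset.mem_image.mp this
    rwa [he (hS' hq) (hS hp) hqe] at hq
  · intro hp
    have : e p ∈ S.image e := h2 ▸ Finset.mem_image_of_mem e hp
    obtain ⟨q, hq, hqe⟩ := Finset.mem_image.mp this
    rwa [he (hS hq) (hS' hp) hqe] at hq

lemma mem_sumset (F : Finset ι) (X : ι → Finset A) (z : A) :
    z ∈ ∑ i ∈ F, X i ↔ ∃ a : ι → A, (∀ i ∈ F, a i ∈ X i) ∧ ∑ i ∈ F, a i = z := by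
  rw [← Finset.mem_coe, Finset.coe_sum, Set.mem_finsetSum]
  constructor
  · rintro ⟨g, hg, hz⟩
    exact ⟨g, fun i hi => hg hi, hz⟩
  · rintro ⟨g, hg, hz⟩
    exact ⟨g, fun {i} hi => hg i hi, hz⟩

lemma exists_section (F : Finset ι) (X : ι → Finset A) :
    ∃ R : Finset (ι → A), (∀ r ∈ R, ∀ i ∈ F, r i ∈ X i) ∧
      (∀ z ∈ ∑ i ∈ F, X i, ∃ r ∈ R, ∑ i ∈ F, r i = z) ∧
      ∀ S ⊆ F, ∀ r ∈ R, ∀ r' ∈ R, ∑ i ∈ S, r i = ∑ i ∈ S, r' i → ∀ i ∈ S, r i = r' i := by
  obtain ⟨w, hw⟩ := exists_weight (F.sigma X |>.image (fun p => (p.1, p.2)))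
  let W : Finset ι → (ι → A) → ℕ := fun S a => ∑ i ∈ S, w (i, a i)
  have hW : ∀ S ⊆ F, ∀ a b : ι → A, (∀ i ∈ F, a i ∈ X i) → (∀ i ∈ F, b i ∈ X i) →
      W S a = W S b → ∀ i ∈ S, a i = b i := by
    intro S hS a b ha hb hab i hi
    have h1 : ∀ c : ι → A, W S c = ∑ p ∈ S.image (fun i => (i, c i)), w p := by
      intro c
      rw [Finset.sum_image]
      intro p _ q _ hpq
      exact congrArg Prod.fst hpq
    rw [h1, h1] at hab
    have h2 := hw _ _ (fun p hp => by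
      obtain ⟨j, hj, rfl⟩ := Finset.mem_image.mp hp
      exact Finset.mem_image.mpr ⟨⟨j, a j⟩, Finset.mem_sigma.mpr ⟨hS hj, ha j (hS hj)⟩, rfl⟩)
      (fun p hp => by
      obtain ⟨j, hj, rfl⟩ := Finset.mem_image.mp hp
      exact Finset.mem_image.mpr ⟨⟨j, b j⟩, Finset.mem_sigma.mpr ⟨hS hj, hb j (hS hj)⟩, rfl⟩) hab
    have h3 : (i, a i) ∈ S.image (fun i => (i, b i)) := by
      rw [← h2]
      exact Finset.mem_image.mpr ⟨i, hi, rfl⟩
    obtain ⟨j, _, hj2⟩ := Finset.mem_image.mp h3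
    have h4 : j = i := congrArg Prod.fst hj2
    have h5 : b j = a i := congrArg Prod.snd hj2
    rw [← h5, h4]
  have hex : ∀ z : A, z ∈ ∑ i ∈ F, X i → ∃ a : ι → A, ((∀ i ∈ F, a i ∈ X i) ∧ ∑ i ∈ F, a i = z) ∧
      ∀ b : ι → A, ((∀ i ∈ F, b i ∈ X i) ∧ ∑ i ∈ F, b i = z) → W F a ≤ W F b := by
    intro z hz
    have hne : {n : ℕ | ∃ a : ι → A, ((∀ i ∈ F, a i ∈ X i) ∧ ∑ i ∈ F, a i = z) ∧
        W F a = n}.Nonempty := by
      obtain ⟨a, ha⟩ := (mem_sumset F X z).mp hz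
      exact ⟨_, a, ha, rfl⟩
    obtain ⟨a, ha, hmin⟩ := Nat.sInf_mem hne
    refine ⟨a, ha, fun b hb => ?_⟩
    rw [hmin]
    exact Nat.sInf_le ⟨b, hb, rfl⟩
  choose! f hf using hex
  refine ⟨(∑ i ∈ F, X i).image f, ?_, ?_, ?_⟩
  · intro r hr
    obtain ⟨z, hz, rfl⟩ := Finset.mem_image.mp hr
    exact (hf z hz).1.1
  · intro z hz
    exact ⟨f z, Finset.mem_image_of_mem f hz, (hf z hz).1.2⟩
  · intro S hS
    have key : ∀ z ∈ ∑ i ∈ F, X i, ∀ z' ∈ ∑ i ∈ F, X i, ∑ i ∈ S, f z i = ∑ i ∈ S, f z' i →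
        W S (f z') ≤ W S (f z) := by
      intro z hz z' hz' h
      by_contra hlt
      push Not at hlt
      let b : ι → A := fun i => if i ∈ S then f z i else f z' i
      have hb1 : ∀ i ∈ F, b i ∈ X i := by
        intro i hi
        by_cases hiS : i ∈ S
        · simp only [b, hiS, if_true]
          exact (hf z hz).1.1 i hi
        · simp only [b, hiS, if_false]
          exact (hf z' hz').1.1 i hi
      have hbS : ∀ i ∈ S, b i = f z i := fun i hi => by simp [b, hi]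
      have hbF : ∀ i ∈ F \ S, b i = f z' i := fun i hi => by
        simp [b, (Finset.mem_sdiff.mp hi).2]
      have hb2 : ∑ i ∈ F, b i = z' := by
        rw [← Finset.sum_sdiff hS, Finset.sum_congr rfl hbF, Finset.sum_congr rfl hbS, h,
          Finset.sum_sdiff hS]
        exact (hf z' hz').1.2
      have h1 := (hf z' hz').2 b ⟨hb1, hb2⟩
      have h2 : W F b = W (F \ S) (f z') + W S (f z) := by
        simp only [W]
        rw [← Finset.sum_sdiff hS]
        congr 1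
        · exact Finset.sum_congr rfl fun i hi => by rw [hbF i hi]
        · exact Finset.sum_congr rfl fun i hi => by rw [hbS i hi]
      have h3 : W F (f z') = W (F \ S) (f z') + W S (f z') := by
        simp only [W]
        rw [← Finset.sum_sdiff hS]
      omega
    intro r hr r' hr' h
    obtain ⟨z, hz, rfl⟩ := Finset.mem_image.mp hr
    obtain ⟨z', hz', rfl⟩ := Finset.mem_image.mp hr'
    exact hW S hS _ _ (hf z hz).1.1 (hf z' hz').1.1
      (le_antisymm (key z' hz' z hz h.symm) (key z hz z' hz' h))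

/-- Shearer's inequality for sumsets. -/
theorem shearer_sumset (k : ℕ) (J : Finset κ) (𝒮 : κ → Finset ι) (F : Finset ι)
    (X : ι → Finset A) (hX : ∀ i ∈ F, (X i).Nonempty) (h𝒮 : ∀ j ∈ J, 𝒮 j ⊆ F)
    (hcov : ∀ i ∈ F, k ≤ (J.filter (fun j => i ∈ 𝒮 j)).card) :
    (∑ i ∈ F, X i).card ^ k ≤ ∏ j ∈ J, (∑ i ∈ 𝒮 j, X i).card := by
  obtain ⟨R, hR1, hR2, hR3⟩ := exists_section F X
  have hne : R.Nonempty := by
    choose! a ha using hX
    obtain ⟨r, hr, _⟩ := hR2 (∑ i ∈ F, a i) ((mem_sumset F X _).mpr ⟨a, fun i hi => ha i hi, rfl⟩)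
    exact ⟨r, hr⟩
  have h1 : (∑ i ∈ F, X i).card ≤ P F R := by
    unfold P
    refine Finset.card_le_card_of_surjOn (fun u => ∑ i : F, u i) ?_
    intro z hz
    obtain ⟨r, hr, hrz⟩ := hR2 z hz
    refine ⟨F.restrict r, ?_, ?_⟩
    · simp only [Finset.coe_image, Set.mem_image, Finset.mem_coe]
      exact ⟨r, hr, rfl⟩
    · change ∑ i : F, r i = z
      rw [← hrz]
      exact Finset.sum_coe_sort F r
  have h2 : ∀ j ∈ J, P (𝒮 j) R ≤ (∑ i ∈ 𝒮 j, X i).card := by
    intro j hj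
    unfold P
    refine Finset.card_le_card_of_injOn (fun u => ∑ i : 𝒮 j, u i) ?_ ?_
    · intro u hu
      simp only [Finset.coe_image, Set.mem_image, Finset.mem_coe] at hu
      obtain ⟨r, hr, rfl⟩ := hu
      rw [Finset.mem_coe, mem_sumset]
      exact ⟨r, fun i hi => hR1 r hr i (h𝒮 j hj hi), (Finset.sum_coe_sort (𝒮 j) r).symm⟩
    · intro u hu v hv huv
      simp only [Finset.coe_image, Set.mem_image, Finset.mem_coe] at hu hv
      obtain ⟨r, hr, rfl⟩ := hu
      obtain ⟨s, hs, rfl⟩ := hv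
      have h3 : ∑ i ∈ 𝒮 j, r i = ∑ i ∈ 𝒮 j, s i := by
        rw [← Finset.sum_coe_sort (𝒮 j) r, ← Finset.sum_coe_sort (𝒮 j) s]
        exact huv
      funext ⟨i, hi⟩
      exact hR3 (𝒮 j) (h𝒮 j hj) r hr s hs h3 i hi
  calc (∑ i ∈ F, X i).card ^ k ≤ (P F R) ^ k := Nat.pow_le_pow_left h1 k
    _ ≤ ∏ j ∈ J, P (𝒮 j) R := shearer k J 𝒮 F hcov R hne
    _ ≤ _ := Finset.prod_le_prod' h2

end Sumsets

end Pool.Agent.V1131.AlgEntropy
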