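import Mathlib
import Pool.Agent.V1131.AlgEntropy

open Finset Filter Topology
open scoped Pointwise Classical ENNReal

namespace Pool.Agent.V1131.AlgEntropy

section Folner

variable (G : Type*) [Group G]

/-- The number of `s ∈ F` with `s * g ∉ F`. -/
noncomputable def out {G : Type*} [Group G] (F : Finset G) (g : G) : ℕ :=
  (F.filter (fun s => s * g ∉ F)).card

lemma mem_filter' {α : Type*} {p : α → Prop} {h : DecidablePred p} {s : Finset α} {a : α} :
    a ∈ @Finset.filter α p h s ↔ a ∈ s ∧ p a := Finset.mem_filter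

/-- The filter of right Folner sets on the finite subsets of `G`: a set `U` of finite subsets of `G`
is large if for some finite `E` and some `ε > 0` it contains every non-empty finite `F` such that
`|{s ∈ F : s g ∉ F}| < ε |F|` for all `g ∈ E`. A net is a right Folner net if and only if it tends
to this filter (`tendsto_folner_iff`, `tendsto_folner_iff_symmDiff`, `tendsto_folner_iff_finset`). -/
def folner : Filter (Finset G) where
  sets := {U | ∃ E : Finset G, ∃ ε : ℝ, 0 < ε ∧ ∀ F : Finset G, F.Nonempty →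
    (∀ g ∈ E, (out F g : ℝ) < ε * F.card) → F ∈ U}
  univ_sets := ⟨∅, 1, one_pos, fun _ _ _ => Set.mem_univ _⟩
  sets_of_superset := by
    rintro U V ⟨E, ε, hε, h⟩ hUV
    exact ⟨E, ε, hε, fun F hF hFE => hUV (h F hF hFE)⟩
  inter_sets := by
    rintro U V ⟨E, ε, hε, h⟩ ⟨E', ε', hε', h'⟩
    refine ⟨E ∪ E', min ε ε', lt_min hε hε', fun F hF hFE => ⟨h F hF fun g hg => ?_,
      h' F hF fun g hg => ?_⟩⟩
    · exact (hFE g (Finset.mem_union_left _ hg)).trans_le
        (mul_le_mul_of_nonneg_right (min_le_left _ _) (Nat.cast_nonneg _))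
    · exact (hFE g (Finset.mem_union_right _ hg)).trans_le
        (mul_le_mul_of_nonneg_right (min_le_right _ _) (Nat.cast_nonneg _))

/-- A (discrete) group is amenable if it has a right Folner net. -/
def Amenable : Prop := (folner G).NeBot

variable {G}

lemma mem_folner {U : Set (Finset G)} : U ∈ folner G ↔ ∃ E : Finset G, ∃ ε : ℝ, 0 < ε ∧
    ∀ F : Finset G, F.Nonempty → (∀ g ∈ E, (out F g : ℝ) < ε * F.card) → F ∈ U := Iff.rfl

lemma eventually_nonempty : ∀ᶠ F in folner G, F.Nonempty :=
  mem_folner.mpr ⟨∅, 1, one_pos, fun _ hF _ => hF⟩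

lemma tendsto_out (g : G) :
    Tendsto (fun F : Finset G => (out F g : ℝ) / F.card) (folner G) (𝓝 0) := by
  rw [tendsto_order]
  constructor
  · intro a ha
    exact Filter.Eventually.of_forall fun F => ha.trans_le (by positivity)
  · intro a ha
    refine mem_folner.mpr ⟨{g}, a, ha, fun F hF hFE => ?_⟩
    have h1 := hFE g (Finset.mem_singleton_self g)
    have h2 : (0 : ℝ) < F.card := by exact_mod_cast Finset.card_pos.mpr hF
    exact (div_lt_iff₀ h2).mpr h1

lemma tendsto_folner_iff {I : Type*} {l : Filter I} {F : I → Finset G} :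
    Tendsto F l (folner G) ↔ (∀ᶠ i in l, (F i).Nonempty) ∧
      ∀ g : G, Tendsto (fun i => (out (F i) g : ℝ) / (F i).card) l (𝓝 0) := by
  constructor
  · intro h
    exact ⟨h.eventually eventually_nonempty, fun g => (tendsto_out g).comp h⟩
  · rintro ⟨h1, h2⟩ U hU
    obtain ⟨E, ε, hε, hE⟩ := mem_folner.mp hU
    have h3 : ∀ᶠ i in l, ∀ g ∈ E, (out (F i) g : ℝ) / (F i).card < ε := by
      rw [Filter.eventually_all_finset]
      exact fun g _ => (h2 g).eventually (gt_mem_nhds hε)
    change ∀ᶠ i in l, F i ∈ U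
    filter_upwards [h1, h3] with i hi1 hi3
    refine hE _ hi1 fun g hg => ?_
    have h4 : (0 : ℝ) < (F i).card := by exact_mod_cast Finset.card_pos.mpr hi1
    exact (div_lt_iff₀ h4).mp (hi3 g hg)

lemma card_symmDiff (F : Finset G) (g : G) :
    (symmDiff (F.image (fun s => s * g)) F).card = 2 * out F g := by
  have hinj : Function.Injective (fun s : G => s * g) := mul_left_injective g
  have hc : (F.image (fun s => s * g)).card = F.card := Finset.card_image_of_injective _ hinj
  have h1 : (F.image (fun s => s * g) \ F).card = out F g := by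
    unfold out
    have h2 : F.image (fun s => s * g) \ F = (F.filter (fun s => s * g ∉ F)).image
        (fun s => s * g) := by
      ext x
      simp only [Finset.mem_sdiff, Finset.mem_image, Finset.mem_filter]
      constructor
      · rintro ⟨⟨s, hs, rfl⟩, hx⟩
        exact ⟨s, ⟨hs, hx⟩, rfl⟩
      · rintro ⟨s, ⟨hs, hx⟩, rfl⟩
        exact ⟨⟨s, hs, rfl⟩, hx⟩
    rw [h2, Finset.card_image_of_injective _ hinj]
  have h3 : (F \ F.image (fun s => s * g)).card = (F.image (fun s => s * g) \ F).card := by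
    have e1 := Finset.card_sdiff_add_card_inter F (F.image (fun s => s * g))
    have e2 := Finset.card_sdiff_add_card_inter (F.image (fun s => s * g)) F
    rw [Finset.inter_comm] at e2
    omega
  rw [symmDiff_def, Finset.sup_eq_union, Finset.card_union_of_disjoint, h3, h1]
  · ring
  · exact disjoint_sdiff_sdiff

/-- A net of finite sets tends to `folner G` if and only if its sets are eventually non-empty and
`|F_i g Δ F_i| / |F_i| → 0` for all `g ∈ G`. -/
lemma tendsto_folner_iff_symmDiff {I : Type*} {l : Filter I} {F : I → Finset G} :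
    Tendsto F l (folner G) ↔ (∀ᶠ i in l, (F i).Nonempty) ∧
      ∀ g : G, Tendsto (fun i => ((symmDiff ((F i).image (fun s => s * g)) (F i)).card : ℝ) /
        (F i).card) l (𝓝 0) := by
  rw [tendsto_folner_iff]
  refine and_congr_right fun _ => forall_congr' fun g => ?_
  have h1 : ∀ i, ((symmDiff ((F i).image (fun s => s * g)) (F i)).card : ℝ) / (F i).card =
      2 * ((out (F i) g : ℝ) / (F i).card) := by
    intro i
    rw [card_symmDiff]
    push_cast
    ring
  simp_rw [h1]
  constructor
  · intro h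
    simpa using h.const_mul 2
  · intro h
    have h2 := h.const_mul (1 / 2)
    simpa [← mul_assoc] using h2

/-- A net of finite sets tends to `folner G` if and only if its sets are eventually non-empty and
`|{s ∈ F_i : s E ⊄ F_i}| / |F_i| → 0` for all finite sets `E ⊆ G`. -/
lemma tendsto_folner_iff_finset {I : Type*} {l : Filter I} {F : I → Finset G} :
    Tendsto F l (folner G) ↔ (∀ᶠ i in l, (F i).Nonempty) ∧
      ∀ E : Finset G, Tendsto (fun i => (((F i).filter
        (fun s => ¬ ∀ e ∈ E, s * e ∈ F i)).card : ℝ) / (F i).card) l (𝓝 0) := by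
  rw [tendsto_folner_iff]
  refine and_congr_right fun _ => ⟨fun h E => ?_, fun h g => ?_⟩
  · have h1 : Tendsto (fun i => ∑ g ∈ E, (out (F i) g : ℝ) / (F i).card) l (𝓝 0) := by
      have := tendsto_finsetSum E (fun g _ => h g)
      simpa using this
    refine squeeze_zero (fun i => by positivity) (fun i => ?_) h1
    rw [← Finset.sum_div]
    refine div_le_div_of_nonneg_right ?_ (Nat.cast_nonneg _)
    have h2 : (F i).filter (fun s => ¬ ∀ e ∈ E, s * e ∈ F i) ⊆
        E.biUnion (fun g => (F i).filter (fun s => s * g ∉ F i)) := by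
      intro s hs
      rw [Finset.mem_filter] at hs
      obtain ⟨hs1, hs2⟩ := hs
      push Not at hs2
      obtain ⟨e, he, hse⟩ := hs2
      exact Finset.mem_biUnion.mpr ⟨e, he, Finset.mem_filter.mpr ⟨hs1, hse⟩⟩
    exact_mod_cast (Finset.card_le_card h2).trans Finset.card_biUnion_le
  · have h1 := h {g}
    simpa [out] using h1

/-- Subgroups of amenable groups are amenable. -/
theorem amenable_subgroup (hG : Amenable G) (H : Subgroup G) : Amenable H := by
  unfold Amenable at *
  rw [Filter.neBot_iff]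
  intro hbot
  have h1 : (∅ : Set (Finset H)) ∈ folner H := by rw [hbot]; exact Filter.mem_bot
  obtain ⟨E, ε, hε, hE⟩ := mem_folner.mp h1
  -- choose a Folner set of `G`
  set δ : ℝ := ε / (E.card + 1) with hδ
  have hδpos : 0 < δ := by positivity
  have h2 : ∀ᶠ F in folner G, F.Nonempty ∧ ∀ g ∈ E.image (Subtype.val : H → G),
      (out F g : ℝ) < δ * F.card :=
    mem_folner.mpr ⟨E.image Subtype.val, δ, hδpos, fun F hF hFE => ⟨hF, hFE⟩⟩
  obtain ⟨F, hF, hFE⟩ := h2.exists
  -- decompose into left cosets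
  let q : G → G ⧸ H := fun x => (x : G ⧸ H)
  have hdec : ∀ g : H, out F (g : G) =
      ∑ c ∈ F.image q, ((F.filter (fun s => s * (g : G) ∉ F)).filter (fun s => q s = c)).card := by
    intro g
    unfold out
    refine Finset.card_eq_sum_card_fiberwise fun s hs => ?_
    simp only [Finset.coe_filter, Set.mem_ofPred_eq] at hs
    exact Finset.mem_coe.mpr (Finset.mem_image_of_mem q hs.1)
  have hcard : F.card = ∑ c ∈ F.image q, (F.filter (fun s => q s = c)).card :=
    Finset.card_eq_sum_card_fiberwise fun s hs => Finset.mem_coe.mpr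
      (Finset.mem_image_of_mem q (Finset.mem_coe.mp hs))
  have hsum : (∑ g ∈ E, (out F (g : G) : ℝ)) < ε * F.card := by
    rcases E.eq_empty_or_nonempty with rfl | hEne
    · have : (0 : ℝ) < F.card := by exact_mod_cast Finset.card_pos.mpr hF
      simpa using mul_pos hε this
    · have h3 : (∑ g ∈ E, (out F (g : G) : ℝ)) < ∑ g ∈ E, δ * F.card :=
        Finset.sum_lt_sum_of_nonempty hEne fun g hg => hFE _ (Finset.mem_image_of_mem _ hg)
      refine h3.trans_le ?_
      rw [Finset.sum_const, nsmul_eq_mul, ← mul_assoc]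
      refine mul_le_mul_of_nonneg_right ?_ (Nat.cast_nonneg _)
      rw [hδ]
      have : (0 : ℝ) ≤ E.card := Nat.cast_nonneg _
      rw [mul_div_assoc']
      rw [div_le_iff₀ (by positivity)]
      nlinarith
  have hex : ∃ c ∈ F.image q, (∑ g ∈ E, (((F.filter (fun s => s * (g : G) ∉ F)).filter
      (fun s => q s = c)).card : ℝ)) < ε * (F.filter (fun s => q s = c)).card := by
    by_contra hcon
    push Not at hcon
    have h4 := Finset.sum_le_sum hcon
    rw [← Finset.mul_sum, Finset.sum_comm] at h4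
    have h5 : (∑ c ∈ F.image q, ((F.filter (fun s => q s = c)).card : ℝ)) = F.card := by
      exact_mod_cast hcard.symm
    have h6 : (∑ g ∈ E, ∑ c ∈ F.image q, (((F.filter (fun s => s * (g : G) ∉ F)).filter
        (fun s => q s = c)).card : ℝ)) = ∑ g ∈ E, (out F (g : G) : ℝ) := by
      refine Finset.sum_congr rfl fun g _ => ?_
      exact_mod_cast (hdec g).symm
    rw [h5, h6] at h4
    exact absurd hsum (not_lt.mpr h4)
  obtain ⟨c, hc, hlt⟩ := hex
  obtain ⟨x, hx, rfl⟩ := Finset.mem_image.mp hc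
  -- translate into `H`
  obtain ⟨F', hmem, hF'card⟩ : ∃ F' : Finset H, (∀ h : H, h ∈ F' ↔ x * (h : G) ∈ F) ∧
      F'.card = (F.filter (fun s => q s = q x)).card := by
    refine ⟨(F.filter (fun s => q s = q x)).attach.image (fun s =>
      (⟨x⁻¹ * s.1, by
        have h7 : q s.1 = q x := (Finset.mem_filter.mp s.2).2
        exact QuotientGroup.eq.mp h7.symm⟩ : H)), ?_, ?_⟩
    · intro h
      simp only [Finset.mem_image, Finset.mem_attach, true_and, Subtype.exists,
        Finset.mem_filter]
      constructor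
      · rintro ⟨s, ⟨hs1, hs2⟩, rfl⟩
        simpa using hs1
      · intro hs
        refine ⟨x * h, ⟨hs, ?_⟩, ?_⟩
        · exact QuotientGroup.mk_mul_of_mem x h.2
        · exact Subtype.ext (by simp)
    · rw [Finset.card_image_of_injective, Finset.card_attach]
      intro s t hst
      have := congrArg Subtype.val hst
      exact Subtype.ext (mul_left_cancel this)
  have hout : ∀ g : H, out F' g = ((F.filter (fun s => s * (g : G) ∉ F)).filter
      (fun s => q s = q x)).card := by
    intro g
    unfold out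
    refine Finset.card_bij (fun h _ => x * (h : G)) ?_ ?_ ?_
    · intro h hh
      rw [mem_filter', hmem, hmem] at hh
      rw [Finset.mem_filter, Finset.mem_filter]
      refine ⟨⟨hh.1, ?_⟩, QuotientGroup.mk_mul_of_mem x h.2⟩
      rw [mul_assoc]
      exact hh.2
    · intro h _ h' _ hhh
      exact Subtype.ext (mul_left_cancel hhh)
    · intro s hs
      rw [Finset.mem_filter, Finset.mem_filter] at hs
      have h7 : x⁻¹ * s ∈ H := QuotientGroup.eq.mp hs.2.symm
      refine ⟨⟨x⁻¹ * s, h7⟩, ?_, by simp⟩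
      rw [mem_filter', hmem, hmem]
      simp only [Subgroup.coe_mul, mul_inv_cancel_left]
      refine ⟨hs.1.1, ?_⟩
      rw [← mul_assoc, mul_inv_cancel_left]
      exact hs.1.2
  have hF'ne : F'.Nonempty := ⟨1, (hmem 1).mpr (by simpa using hx)⟩
  refine (hE F' hF'ne fun g hg => ?_ : F' ∈ (∅ : Set (Finset H)))
  rw [hF'card, hout g]
  refine lt_of_le_of_lt ?_ hlt
  exact Finset.single_le_sum (f := fun g : H => (((F.filter (fun s => s * (g : G) ∉ F)).filter
      (fun s => q s = q x)).card : ℝ)) (fun g _ => Nat.cast_nonneg _) hg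

end Folner

section Entropy

variable {G A : Type*} [Group G] [AddCommGroup A] [DistribMulAction G A]

/-- The trajectory `T_F(α, X) = ∑_{g ∈ F} g • X` (sumset). -/
noncomputable def traj (F : Finset G) (X : Finset A) : Finset A := ∑ g ∈ F, g • X

/-- `log |T_F(α, X)| / |F|`. -/
noncomputable def rate (X : Finset A) (F : Finset G) : ℝ :=
  Real.log (traj F X).card / F.card

variable (G) in
/-- The algebraic entropy `H_alg(α, X)` of the action of `G` with respect to `X`: the limit of
`log |T_F(α, X)| / |F|` along the right Folner sets. -/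
noncomputable def Halg (X : Finset A) : ℝ := limUnder (folner G) (rate (G := G) X)

lemma smul_nonempty {X : Finset A} (hX : X.Nonempty) (g : G) : (g • X).Nonempty :=
  hX.smul_finset

lemma sum_nonempty {ι : Type*} (F : Finset ι) {X : ι → Finset A} (hX : ∀ i ∈ F, (X i).Nonempty) :
    (∑ i ∈ F, X i).Nonempty := by
  choose! a ha using hX
  exact ⟨∑ i ∈ F, a i, (mem_sumset F X _).mpr ⟨a, fun i hi => ha i hi, rfl⟩⟩

lemma traj_nonempty {X : Finset A} (hX : X.Nonempty) (F : Finset G) : (traj F X).Nonempty :=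
  sum_nonempty F fun g _ => smul_nonempty hX g

lemma traj_card_mono {X : Finset A} (hX : X.Nonempty) {S S' : Finset G} (h : S ⊆ S') :
    (traj S X).card ≤ (traj S' X).card := by
  unfold traj
  rw [← Finset.sum_sdiff h]
  exact Finset.card_le_card_add_left (sum_nonempty _ fun g _ => smul_nonempty hX g)

lemma traj_smul_card (X : Finset A) (g : G) (S : Finset G) :
    (∑ i ∈ g • S, i • X).card = (traj S X).card := by
  have h1 : ∑ i ∈ g • S, i • X = g • ∑ i ∈ S, i • X := by
    rw [Finset.smul_sum]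
    have h2 : g • S = S.image (fun i => g * i) := rfl
    rw [h2, Finset.sum_image (fun a _ b _ hab => mul_left_cancel hab)]
    exact Finset.sum_congr rfl fun i _ => mul_smul g i X
  rw [h1]
  exact Finset.card_smul_finset g _

/-- The main inequality: `|T_F(X)| ^ |S| ≤ |T_S(X)| ^ |F S⁻¹|`. -/
theorem traj_pow_le {X : Finset A} (hX : X.Nonempty) (S F : Finset G) :
    (traj F X).card ^ S.card ≤ (traj S X).card ^ (F * S⁻¹).card := by
  have h1 := shearer_sumset (A := A) S.card (F * S⁻¹) (fun g => (g • S) ∩ F) F (fun g => g • X)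
    (fun g _ => smul_nonempty hX g) (fun g _ => Finset.inter_subset_right) (by
      intro i hi
      have h2 : S.image (fun s => i * s⁻¹) ⊆ (F * S⁻¹).filter (fun j => i ∈ (j • S) ∩ F) := by
        intro j hj
        obtain ⟨s, hs, rfl⟩ := Finset.mem_image.mp hj
        rw [mem_filter']
        refine ⟨Finset.mul_mem_mul hi (Finset.inv_mem_inv hs), ?_⟩
        rw [Finset.mem_inter]
        refine ⟨?_, hi⟩
        rw [Finset.mem_smul_finset]
        exact ⟨s, hs, by simp⟩
      refine le_trans (le_of_eq ?_) (Finset.card_le_card h2)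
      rw [Finset.card_image_of_injective]
      intro a b hab
      exact inv_injective (mul_left_cancel hab))
  refine h1.trans ?_
  refine (Finset.prod_le_prod' (g := fun _ => (traj S X).card) fun j _ => ?_).trans
    (le_of_eq (by rw [Finset.prod_const]))
  have h3 := traj_card_mono hX (S := (j • S) ∩ F) (S' := j • S) Finset.inter_subset_left
  refine h3.trans (le_of_eq ?_)
  exact traj_smul_card X j S

lemma card_mul_inv_le (S F : Finset G) :
    (F * S⁻¹).card ≤ F.card + ∑ s ∈ S, out F s⁻¹ := by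
  have h1 : F * S⁻¹ ⊆ F ∪ S.biUnion (fun s => (F.filter (fun x => x * s⁻¹ ∉ F)).image
      (fun x => x * s⁻¹)) := by
    intro y hy
    obtain ⟨x, hx, t, ht, rfl⟩ := Finset.mem_mul.mp hy
    obtain ⟨s, hs, rfl⟩ := Finset.mem_inv.mp ht
    by_cases h : x * s⁻¹ ∈ F
    · exact Finset.mem_union_left _ h
    · refine Finset.mem_union_right _ (Finset.mem_biUnion.mpr ⟨s, hs, ?_⟩)
      exact Finset.mem_image.mpr ⟨x, Finset.mem_filter.mpr ⟨hx, h⟩, rfl⟩
  refine (Finset.card_le_card h1).trans ((Finset.card_union_le _ _).trans ?_)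
  refine Nat.add_le_add_left (Finset.card_biUnion_le.trans ?_) _
  exact Finset.sum_le_sum fun s _ => Finset.card_image_le

lemma rate_nonneg (X : Finset A) (F : Finset G) : 0 ≤ rate X F :=
  div_nonneg (Real.log_natCast_nonneg _) (Nat.cast_nonneg _)

lemma rate_le {X : Finset A} (hX : X.Nonempty) {S F : Finset G} (hS : S.Nonempty)
    (hF : F.Nonempty) :
    rate X F ≤ (1 + ∑ s ∈ S, (out F s⁻¹ : ℝ) / F.card) * rate X S := by
  have hSc : (0 : ℝ) < S.card := by exact_mod_cast Finset.card_pos.mpr hS
  have hFc : (0 : ℝ) < F.card := by exact_mod_cast Finset.card_pos.mpr hF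
  have h1 := traj_pow_le hX S F
  have h2 : (S.card : ℝ) * Real.log (traj F X).card ≤
      (F * S⁻¹).card * Real.log (traj S X).card := by
    rw [← Real.log_pow, ← Real.log_pow]
    refine Real.log_le_log ?_ ?_
    · have : 0 < (traj F X).card := Finset.card_pos.mpr (traj_nonempty hX F)
      positivity
    · exact_mod_cast h1
  have h3 : ((F * S⁻¹).card : ℝ) ≤ F.card + ∑ s ∈ S, (out F s⁻¹ : ℝ) := by
    exact_mod_cast card_mul_inv_le S F
  have h4 : (S.card : ℝ) * Real.log (traj F X).card ≤
      (F.card + ∑ s ∈ S, (out F s⁻¹ : ℝ)) * Real.log (traj S X).card :=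
    h2.trans (mul_le_mul_of_nonneg_right h3 (Real.log_natCast_nonneg _))
  unfold rate
  rw [← Finset.sum_div, div_le_iff₀ hFc]
  have h5 : (1 + (∑ s ∈ S, (out F s⁻¹ : ℝ)) / F.card) * (Real.log (traj S X).card / S.card) *
      F.card = ((F.card + ∑ s ∈ S, (out F s⁻¹ : ℝ)) * Real.log (traj S X).card) / S.card := by
    field_simp
  rw [h5, le_div_iff₀ hSc]
  linarith

/-- The infimum of `log |T_S(α, X)| / |S|` over all non-empty finite sets. -/
noncomputable def infRate (G : Type*) {A : Type*} [Group G] [AddCommGroup A]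
    [DistribMulAction G A] (X : Finset A) : ℝ :=
  ⨅ S : {S : Finset G // S.Nonempty}, rate X S.1

lemma infRate_le (X : Finset A) {S : Finset G} (hS : S.Nonempty) : infRate G X ≤ rate X S :=
  ciInf_le ⟨0, by rintro _ ⟨S, rfl⟩; exact rate_nonneg X S.1⟩
    (⟨S, hS⟩ : {S : Finset G // S.Nonempty})

lemma infRate_nonneg (X : Finset A) : 0 ≤ infRate G X :=
  Real.iInf_nonneg fun S => rate_nonneg X S.1

/-- The rates converge along the right Folner sets, and the limit is the infimum over all
non-empty finite sets. -/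
theorem tendsto_infRate {X : Finset A} (hX : X.Nonempty) :
    Tendsto (rate (G := G) X) (folner G) (𝓝 (infRate G X)) := by
  have : Nonempty {S : Finset G // S.Nonempty} := ⟨⟨{1}, Finset.singleton_nonempty 1⟩⟩
  rw [tendsto_order]
  constructor
  · intro a ha
    filter_upwards [eventually_nonempty] with F hF
    exact ha.trans_le (infRate_le X hF)
  · intro a ha
    obtain ⟨⟨S, hS⟩, hSa⟩ := exists_lt_of_ciInf_lt ha
    have h1 : Tendsto (fun F : Finset G => (1 + ∑ s ∈ S, (out F s⁻¹ : ℝ) / F.card) * rate X S)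
        (folner G) (𝓝 ((1 + ∑ s ∈ S, 0) * rate X S)) := by
      refine Tendsto.mul_const _ (Tendsto.const_add _ ?_)
      exact tendsto_finsetSum S fun s _ => tendsto_out s⁻¹
    simp only [Finset.sum_const_zero, add_zero, one_mul] at h1
    filter_upwards [eventually_nonempty, h1.eventually (gt_mem_nhds hSa)] with F hF hF2
    exact (rate_le hX hS hF).trans_lt hF2

theorem Halg_eq_infRate (hG : Amenable G) {X : Finset A} (hX : X.Nonempty) :
    Halg G X = infRate G X := by
  have : (folner G).NeBot := hG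
  exact (tendsto_infRate hX).limUnder_eq

/-- `H_alg(α, X)` is the limit along every right Folner net (indexed along any filter). -/
theorem tendsto_Halg (hG : Amenable G) {X : Finset A} (hX : X.Nonempty) {I : Type*}
    {l : Filter I} {F : I → Finset G} (hne : ∀ᶠ i in l, (F i).Nonempty)
    (hF : ∀ g : G, Tendsto (fun i => ((symmDiff ((F i).image (fun s => s * g)) (F i)).card : ℝ) /
        (F i).card) l (𝓝 0)) :
    Tendsto (fun i => Real.log (∑ g ∈ F i, g • X).card / (F i).card) l (𝓝 (Halg G X)) := by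
  rw [Halg_eq_infRate hG hX]
  exact (tendsto_infRate hX).comp (tendsto_folner_iff_symmDiff.mpr ⟨hne, hF⟩)

theorem amenable_of_net {I : Type*} {l : Filter I} [l.NeBot] {F : I → Finset G}
    (hne : ∀ᶠ i in l, (F i).Nonempty)
    (hF : ∀ g : G, Tendsto (fun i => ((symmDiff ((F i).image (fun s => s * g)) (F i)).card : ℝ) /
        (F i).card) l (𝓝 0)) : Amenable G :=
  (tendsto_folner_iff_symmDiff.mpr ⟨hne, hF⟩).neBot

variable (G A) in
/-- `h_alg(α)`: the supremum of `H_alg(α, X)` over all non-empty finite subsets `X`. -/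
noncomputable def halg : ℝ≥0∞ := ⨆ X : Finset A, ⨆ _ : X.Nonempty, ENNReal.ofReal (Halg G X)

variable (G A) in
/-- `ent(α)`: the supremum of `H_alg(α, X)` over all finite subgroups `X`. -/
noncomputable def ent : ℝ≥0∞ :=
  ⨆ X : Finset A, ⨆ _ : ∃ B : AddSubgroup A, (B : Set A) = X, ENNReal.ofReal (Halg G X)

/-- The comparison of entropies for a subgroup: if the elements of `Gs` lie in distinct right
cosets of `H`, then `|Gs| H_alg(α, X) ≤ H_alg(α|H, ∑_{g ∈ Gs} g X)`. -/
theorem mul_infRate_le (H : Subgroup G) {X : Finset A} (Gs : Finset G) (hne : Gs.Nonempty)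
    (hGs : ∀ g ∈ Gs, ∀ g' ∈ Gs, g * g'⁻¹ ∈ H → g = g') :
    Gs.card * infRate G X ≤ infRate H (∑ g ∈ Gs, g • X) := by
  have : Nonempty {S : Finset H // S.Nonempty} := ⟨⟨{1}, Finset.singleton_nonempty 1⟩⟩
  refine le_ciInf ?_
  rintro ⟨E, hE⟩
  have hGc : (0 : ℝ) < Gs.card := by exact_mod_cast Finset.card_pos.mpr hne
  have hEc : (0 : ℝ) < E.card := by exact_mod_cast Finset.card_pos.mpr hE
  let S : Finset G := (E ×ˢ Gs).image (fun p => (p.1 : G) * p.2)
  have hinj : Set.InjOn (fun p : H × G => (p.1 : G) * p.2) (E ×ˢ Gs : Finset (H × G)) := by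
    rintro ⟨e, g⟩ hp ⟨e', g'⟩ hq h
    rw [Finset.mem_coe, Finset.mem_product] at hp hq
    change (e : G) * g = e' * g' at h
    have h1 : g * g'⁻¹ ∈ H := by
      have h2 : g * g'⁻¹ = ((e⁻¹ * e' : H) : G) := by
        have : g = (e : G)⁻¹ * (e' * g') := by rw [← h]; group
        rw [this]
        simp [mul_assoc]
      rw [h2]
      exact (e⁻¹ * e').2
    have h3 : g = g' := hGs g hp.2 g' hq.2 h1
    subst h3
    have h4 : (e : G) = e' := mul_right_cancel h
    rw [Subtype.ext h4]
  have hScard : S.card = E.card * Gs.card := by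
    rw [Finset.card_image_of_injOn hinj, Finset.card_product]
  have hSne : S.Nonempty := (hE.product hne).image _
  have htraj : traj S X = traj E (∑ g ∈ Gs, g • X) := by
    unfold traj
    rw [Finset.sum_image hinj, Finset.sum_product]
    refine Finset.sum_congr rfl fun e _ => ?_
    rw [Finset.smul_sum]
    refine Finset.sum_congr rfl fun g _ => ?_
    change ((e : G) * g) • X = (e : G) • g • X
    rw [mul_smul]
  have h1 := infRate_le X hSne
  calc (Gs.card : ℝ) * infRate G X ≤ Gs.card * rate X S :=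
        mul_le_mul_of_nonneg_left h1 hGc.le
    _ = rate (∑ g ∈ Gs, g • X) E := by
        unfold rate
        rw [htraj, hScard]
        push_cast
        field_simp

/-- `X` is (the finite set of elements of) a subgroup. -/
def IsSub (X : Finset A) : Prop := ∃ B : AddSubgroup A, (B : Set A) = X

lemma isSub_smul {X : Finset A} (hX : IsSub X) (g : G) : IsSub (g • X) := by
  obtain ⟨B, hB⟩ := hX
  refine ⟨B.map (DistribSMul.toAddMonoidHom A g), ?_⟩
  rw [AddSubgroup.coe_map, hB, Finset.coe_smul_finset]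
  rfl

lemma isSub_sum {ι : Type*} (F : Finset ι) {X : ι → Finset A} (hX : ∀ i ∈ F, IsSub (X i)) :
    IsSub (∑ i ∈ F, X i) := by
  induction F using Finset.induction_on with
  | empty => exact ⟨⊥, by simp; rfl⟩
  | insert i F hi ih =>
    rw [Finset.sum_insert hi]
    obtain ⟨B, hB⟩ := hX i (Finset.mem_insert_self i F)
    obtain ⟨C, hC⟩ := ih fun j hj => hX j (Finset.mem_insert_of_mem hj)
    refine ⟨B ⊔ C, ?_⟩
    rw [Finset.coe_add, ← hB, ← hC, AddSubgroup.normal_add]

lemma IsSub.nonempty {X : Finset A} (hX : IsSub X) : X.Nonempty := by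
  obtain ⟨B, hB⟩ := hX
  exact ⟨0, by rw [← Finset.mem_coe, ← hB]; exact B.zero_mem⟩

theorem mul_halg_le (hG : Amenable G) (H : Subgroup G) (Gs : Finset G) (hne : Gs.Nonempty)
    (hGs : ∀ g ∈ Gs, ∀ g' ∈ Gs, g * g'⁻¹ ∈ H → g = g') :
    Gs.card * halg G A ≤ halg H A := by
  have hH := amenable_subgroup hG H
  unfold halg
  simp_rw [ENNReal.mul_iSup]
  refine iSup_le fun X => iSup_le fun hX => ?_
  have hX' : (∑ g ∈ Gs, g • X).Nonempty := sum_nonempty Gs fun g _ => smul_nonempty hX g
  refine le_trans ?_ (le_iSup_of_le (∑ g ∈ Gs, g • X) (le_iSup_of_le hX' le_rfl))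
  rw [Halg_eq_infRate hG hX, Halg_eq_infRate hH hX', ← ENNReal.ofReal_natCast,
    ← ENNReal.ofReal_mul (Nat.cast_nonneg _)]
  exact ENNReal.ofReal_le_ofReal (mul_infRate_le H Gs hne hGs)

theorem mul_ent_le (hG : Amenable G) (H : Subgroup G) (Gs : Finset G) (hne : Gs.Nonempty)
    (hGs : ∀ g ∈ Gs, ∀ g' ∈ Gs, g * g'⁻¹ ∈ H → g = g') :
    Gs.card * ent G A ≤ ent H A := by
  have hH := amenable_subgroup hG H
  unfold ent
  simp_rw [ENNReal.mul_iSup]
  refine iSup_le fun X => iSup_le fun hX => ?_
  have hX' : IsSub (∑ g ∈ Gs, g • X) := isSub_sum Gs fun g _ => isSub_smul hX g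
  refine le_trans ?_ (le_iSup_of_le (∑ g ∈ Gs, g • X) (le_iSup_of_le hX' le_rfl))
  rw [Halg_eq_infRate hG (IsSub.nonempty hX), Halg_eq_infRate hH hX'.nonempty,
    ← ENNReal.ofReal_natCast, ← ENNReal.ofReal_mul (Nat.cast_nonneg _)]
  exact ENNReal.ofReal_le_ofReal (mul_infRate_le H Gs hne hGs)

lemma exists_transversal (H : Subgroup G) (n : ℕ) (hn : n ≤ H.index ∨ H.index = 0) :
    ∃ Gs : Finset G, Gs.card = n ∧ ∀ g ∈ Gs, ∀ g' ∈ Gs, g * g'⁻¹ ∈ H → g = g' := by
  obtain ⟨Q, hQ⟩ : ∃ Q : Finset (G ⧸ H), Q.card = n := by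
    by_cases h0 : H.index = 0
    · have : Infinite (G ⧸ H) := by
        rw [Subgroup.index, Nat.card_eq_zero] at h0
        rcases h0 with h | h
        · exact (h.false ((1 : G) : G ⧸ H)).elim
        · exact h
      exact Infinite.exists_subset_card_eq _ n
    · have hn' : n ≤ H.index := hn.resolve_right h0
      have : Finite (G ⧸ H) := Nat.finite_of_card_ne_zero h0
      have := Fintype.ofFinite (G ⧸ H)
      rw [Subgroup.index, Nat.card_eq_fintype_card] at hn'
      obtain ⟨Q, _, hQ⟩ := Finset.exists_subset_card_eq (s := (Finset.univ : Finset (G ⧸ H)))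
        (n := n) (by rwa [Finset.card_univ])
      exact ⟨Q, hQ⟩
  refine ⟨Q.image (fun c => c.out⁻¹), ?_, ?_⟩
  · rw [Finset.card_image_of_injective, hQ]
    intro c c' h
    have h1 : c.out = c'.out := inv_injective h
    rw [← c.out_eq', ← c'.out_eq', h1]
  · intro g hg g' hg' h
    obtain ⟨c, _, rfl⟩ := Finset.mem_image.mp hg
    obtain ⟨c', _, rfl⟩ := Finset.mem_image.mp hg'
    rw [inv_inv] at h
    have h1 : (c.out : G ⧸ H) = (c'.out : G ⧸ H) := QuotientGroup.eq.mpr h
    rw [QuotientGroup.out_eq', QuotientGroup.out_eq'] at h1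
    rw [h1]

/-- For every `n ≤ [G : H]`: `n h_alg(α) ≤ h_alg(α|H)` and `n ent(α) ≤ ent(α|H)`. -/
theorem index_mul_le (hG : Amenable G) (H : Subgroup G) (n : ℕ) (hn : n ≤ H.index ∨ H.index = 0) :
    n * halg G A ≤ halg H A ∧ n * ent G A ≤ ent H A := by
  rcases Nat.eq_zero_or_pos n with rfl | hpos
  · simp
  obtain ⟨Gs, hcard, hGs⟩ := exists_transversal H n hn
  have hne : Gs.Nonempty := Finset.card_pos.mp (by omega)
  rw [← hcard]
  exact ⟨mul_halg_le hG H Gs hne hGs, mul_ent_le hG H Gs hne hGs⟩

theorem halg_le (hG : Amenable G) (H : Subgroup G) :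
    halg G A ≤ halg H A ∧ ent G A ≤ ent H A := by
  have hn : 1 ≤ H.index ∨ H.index = 0 := by omega
  simpa using index_mul_le (A := A) hG H 1 hn

lemma eq_zero_of_mul_le {a b : ℝ≥0∞} (hb : b < ⊤) (h : ∀ n : ℕ, n * a ≤ b) : a = 0 := by
  by_contra ha
  obtain ⟨n, hn⟩ := ENNReal.exists_nat_mul_gt ha hb.ne
  exact absurd (h n) (not_le.mpr hn)

theorem halg_eq_zero (hG : Amenable G) (H : Subgroup G) (hH : H.index = 0)
    (hfin : halg H A < ⊤) : halg G A = 0 :=
  eq_zero_of_mul_le hfin fun n => (index_mul_le hG H n (Or.inr hH)).1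

theorem ent_eq_zero (hG : Amenable G) (H : Subgroup G) (hH : H.index = 0)
    (hfin : ent H A < ⊤) : ent G A = 0 :=
  eq_zero_of_mul_le hfin fun n => (index_mul_le hG H n (Or.inr hH)).2

end Entropy

end Pool.Agent.V1131.AlgEntropy
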