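import Mathlib

open MulAction
open scoped Pointwise

namespace Pool.Agent.V1131.TwoFiveB

variable {G X : Type*} [Group G] [Finite G] [MulAction G X] [Finite X]

lemma orb (M : Subgroup G) (x : X) :
    Nat.card (orbit M x) * Nat.card ↥(M ⊓ stabilizer G x) = Nat.card M := by
  have h1 : Nat.card (orbit M x) * Nat.card (stabilizer M x) = Nat.card M := by
    rw [← Nat.card_prod]
    exact Nat.card_congr (orbitProdStabilizerEquivGroup M x)
  rw [← h1]
  congr 1
  refine Nat.card_congr
    { toFun := fun g => ⟨⟨g.1, g.2.1⟩, g.2.2⟩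
      invFun := fun g => ⟨g.1.1, g.1.2, g.2⟩
      left_inv := fun _ => rfl
      right_inv := fun _ => rfl }

lemma card_stab [IsPretransitive G X] {K : Subgroup G} (hcard : Nat.card X * Nat.card K = Nat.card G)
    (x : X) : Nat.card (stabilizer G x) = Nat.card K := by
  have h1 : Nat.card (orbit G x) * Nat.card (stabilizer G x) = Nat.card G := by
    rw [← Nat.card_prod]
    exact Nat.card_congr (orbitProdStabilizerEquivGroup G x)
  have h2 : Nat.card (orbit G x) = Nat.card X := by
    rw [orbit_eq_univ]
    exact Nat.card_congr (Equiv.Set.univ X)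
  rw [h2, ← hcard] at h1
  have h3 : 0 < Nat.card X := by
    have : Nonempty X := ⟨x⟩
    exact Nat.card_pos
  exact Nat.eq_of_mul_eq_mul_left h3 h1

lemma eq_of_le {A B : Subgroup G} (h : A ≤ B) (hc : Nat.card B ≤ Nat.card A) : A = B :=
  Subgroup.eq_of_le_of_card_ge h hc

/-- elements of a subgroup of index two normalise -/
lemma conj_mem_of_two {L H : Subgroup G} (hLH : L ≤ H) (h2 : Nat.card H = 2 * Nat.card L)
    {g : G} (hg : g ∈ H) {l : G} (hl : l ∈ L) : g⁻¹ * l * g ∈ L := by
  have hidx : (L.subgroupOf H).index = 2 := by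
    have h3 : Nat.card (L.subgroupOf H) * (L.subgroupOf H).index = Nat.card H :=
      Subgroup.card_mul_index _
    have h4 : Nat.card (L.subgroupOf H) = Nat.card L := by
      exact Nat.card_congr (Subgroup.subgroupOfEquivOfLe hLH).toEquiv
    rw [h4, h2] at h3
    have h5 : 0 < Nat.card L := Nat.card_pos
    rw [mul_comm 2] at h3
    exact Nat.eq_of_mul_eq_mul_left h5 h3
  have hn := Subgroup.normal_of_index_eq_two hidx
  have := hn.conj_mem ⟨l, hLH hl⟩ (by rw [Subgroup.mem_subgroupOf]; exact hl) ⟨g, hg⟩⁻¹
  rw [Subgroup.mem_subgroupOf] at this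
  simpa using this

lemma sq_mem_of_two {L H : Subgroup G} (hLH : L ≤ H) (h2 : Nat.card H = 2 * Nat.card L)
    {g : G} (hg : g ∈ H) : g * g ∈ L := by
  have hidx : (L.subgroupOf H).index = 2 := by
    have h3 : Nat.card (L.subgroupOf H) * (L.subgroupOf H).index = Nat.card H :=
      Subgroup.card_mul_index _
    have h4 : Nat.card (L.subgroupOf H) = Nat.card L := by
      exact Nat.card_congr (Subgroup.subgroupOfEquivOfLe hLH).toEquiv
    rw [h4, h2] at h3
    have h5 : 0 < Nat.card L := Nat.card_pos
    rw [mul_comm 2] at h3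
    exact Nat.eq_of_mul_eq_mul_left h5 h3
  have := Subgroup.mul_self_mem_of_index_two hidx ⟨g, hg⟩
  rw [Subgroup.mem_subgroupOf] at this
  exact this

/-- A point of the orbit of size five is not fixed by a subgroup of index two. -/
lemma not_fix {K L : Subgroup G} (hLK : L ≤ K) (h2 : Nat.card K = 2 * Nat.card L) {c : X}
    (hc : Nat.card (orbit K c) = 5) (hfix : ∀ l ∈ L, l • c = c) : False := by
  have h1 := orb K c
  rw [hc] at h1
  have h3 : Nat.card L ≤ Nat.card ↥(K ⊓ stabilizer G c) := by
    apply Subgroup.card_le_of_le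
    intro l hl
    exact ⟨hLK hl, hfix l hl⟩
  have h4 : 0 < Nat.card L := Nat.card_pos
  omega

lemma orbit_conj_card {K : Subgroup G} {n : G} (hn : n ∈ (Subgroup.normalizer (K : Set G))) (x : X) :
    Nat.card (orbit K (n • x)) = Nat.card (orbit K x) := by
  rw [Subgroup.mem_normalizer_iff] at hn
  symm
  refine Nat.card_congr
    { toFun := fun y => ⟨n • y.1, ?_⟩
      invFun := fun y => ⟨n⁻¹ • y.1, ?_⟩
      left_inv := fun y => Subtype.ext (inv_smul_smul n y.1)
      right_inv := fun y => Subtype.ext (smul_inv_smul n y.1) }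
  · obtain ⟨y, ⟨k, hk⟩, rfl⟩ := y
    refine ⟨⟨n * k * n⁻¹, (hn k).mp hk⟩, ?_⟩
    show (n * k * n⁻¹) • n • x = n • k • x
    rw [smul_smul, smul_smul]
    congr 1
    group
  · obtain ⟨y, ⟨k, hk⟩, rfl⟩ := y
    refine ⟨⟨n⁻¹ * k * n, ?_⟩, ?_⟩
    · rw [hn]
      have : n * (n⁻¹ * k * n) * n⁻¹ = k := by group
      rw [this]
      exact hk
    · show (n⁻¹ * k * n) • x = n⁻¹ • k • n • x
      rw [smul_smul, smul_smul]

theorem no_action [IsPretransitive G X] (K : Subgroup G)
    (hcard : Nat.card X * Nat.card K = Nat.card G) (a b : X)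
    (ha : Nat.card (orbit K a) = 2) (hb : Nat.card (orbit K b) = 5)
    (hall : ∀ x, x ∈ orbit K a ∨ x ∈ orbit K b ∨ ∀ k ∈ K, k • x = x) : False := by
  have hKpos : 0 < Nat.card K := Nat.card_pos
  have hfixcard : ∀ x : X, (∀ k ∈ K, k • x = x) → Nat.card (orbit K x) = 1 := by
    intro x hx
    have : orbit K x = {x} := by
      ext y
      constructor
      · rintro ⟨k, rfl⟩
        exact hx k.1 k.2
      · rintro rfl
        exact mem_orbit_self y
    rw [this]
    simp
  have memA : ∀ x : X, Nat.card (orbit K x) = 2 → x ∈ orbit K a := by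
    intro x hx
    rcases hall x with h | h | h
    · exact h
    · rw [orbit_eq_iff.mpr h, hb] at hx
      omega
    · rw [hfixcard x h] at hx
      omega
  have memB : ∀ x : X, Nat.card (orbit K x) = 5 → x ∈ orbit K b := by
    intro x hx
    rcases hall x with h | h | h
    · rw [orbit_eq_iff.mpr h, ha] at hx
      omega
    · exact h
    · rw [hfixcard x h] at hx
      omega
  -- the other point of the orbit of `a`
  obtain ⟨a', ha', hA⟩ : ∃ a' : X, a' ≠ a ∧ orbit K a = {a, a'} := by
    have h1 : (orbit K a).ncard = 2 := ha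
    obtain ⟨x, y, hxy, h⟩ := Set.ncard_eq_two.mp h1
    have h2 : a ∈ orbit K a := mem_orbit_self a
    rw [h] at h2
    rcases h2 with rfl | rfl
    · exact ⟨y, hxy.symm, h⟩
    · refine ⟨x, hxy, ?_⟩
      rw [h, Set.pair_comm]
  obtain ⟨L, hL⟩ : ∃ L : Subgroup G, L = K ⊓ stabilizer G a := ⟨_, rfl⟩
  have hLK : L ≤ K := by
    rw [hL]
    exact inf_le_left
  have hLH : L ≤ stabilizer G a := by
    rw [hL]
    exact inf_le_right
  have h2K : Nat.card K = 2 * Nat.card L := by
    rw [hL, ← orb K a, ha]
  have h2H : Nat.card (stabilizer G a) = 2 * Nat.card L := by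
    rw [card_stab hcard a, h2K]
  obtain ⟨h, hhH, hhL⟩ : ∃ h ∈ stabilizer G a, h ∉ L := by
    by_contra hcon
    push Not at hcon
    have h3 : Nat.card (stabilizer G a) ≤ Nat.card L := Subgroup.card_le_of_le hcon
    have h4 : 0 < Nat.card L := Nat.card_pos
    omega
  have hhK : h ∉ K := by
    intro hK
    apply hhL
    rw [hL]
    exact ⟨hK, hhH⟩
  have hha : h • a = a := hhH
  have hLfix : ∀ x : X, (∀ l ∈ L, l • x = x) → ∀ l ∈ L, l • h • x = h • x := by
    intro x hx l hl
    have h5 := hx _ (conj_mem_of_two hLH h2H hhH hl)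
    have h6 : l • h • x = h • (h⁻¹ * l * h) • x := by
      rw [smul_smul, smul_smul]
      congr 1
      group
    rw [h6, h5]
  by_cases hfix : ∃ x₀ : X, ∀ k ∈ K, k • x₀ = x₀
  · -- first case
    obtain ⟨x₀, hx₀⟩ := hfix
    have hK0 : K = stabilizer G x₀ := by
      apply eq_of_le
      · intro k hk
        exact hx₀ k hk
      · rw [card_stab hcard x₀]
    -- the normaliser of `K` is `K`
    have hN : ∀ x : X, ∀ p : ℕ, p ≠ 0 → Nat.card (orbit K x) = p →
        (∀ y : X, Nat.card (orbit K y) = p → y ∈ orbit K x) →
        Nat.card (Subgroup.normalizer (K : Set G)) ∣ p * Nat.card K := by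
      intro x p hp hx hy
      have h7 : orbit (Subgroup.normalizer (K : Set G)) x = orbit K x := by
        apply Set.Subset.antisymm
        · rintro _ ⟨n, rfl⟩
          apply hy
          have := orbit_conj_card n.2 x
          rw [hx] at this
          exact this
        · rintro _ ⟨k, rfl⟩
          exact ⟨⟨k.1, Subgroup.le_normalizer k.2⟩, rfl⟩
      have h8 := orb (Subgroup.normalizer (K : Set G)) x
      rw [h7, hx] at h8
      rw [← h8]
      apply mul_dvd_mul_left
      rw [← card_stab hcard x]
      exact Subgroup.card_dvd_of_le inf_le_right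
    have hN2 := hN a 2 (by norm_num) ha memA
    have hN5 := hN b 5 (by norm_num) hb memB
    have hNK : Nat.card (Subgroup.normalizer (K : Set G)) ∣ Nat.card K := by
      have h9 : Nat.card (Subgroup.normalizer (K : Set G)) ∣ 5 * Nat.card K - 2 * (2 * Nat.card K) :=
        Nat.dvd_sub hN5 (Dvd.dvd.mul_left hN2 2)
      have h10 : 5 * Nat.card K - 2 * (2 * Nat.card K) = Nat.card K := by omega
      rwa [h10] at h9
    have hNeq : K = (Subgroup.normalizer (K : Set G)) :=
      eq_of_le Subgroup.le_normalizer (Nat.le_of_dvd hKpos hNK)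
    have huniq : ∀ x : X, (∀ k ∈ K, k • x = x) → x = x₀ := by
      intro x hx
      obtain ⟨g, rfl⟩ := exists_smul_eq G x₀ x
      have h11 : K = stabilizer G (g • x₀) := by
        apply eq_of_le
        · intro k hk
          exact hx k hk
        · rw [card_stab hcard (g • x₀)]
      have h12 : g ∈ (Subgroup.normalizer (K : Set G)) := by
        rw [Subgroup.mem_normalizer_iff]
        intro k
        constructor
        · intro hk
          rw [h11, mem_stabilizer_iff, smul_smul]
          have : g * k * g⁻¹ * g = g * k := by group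
          rw [this, ← smul_smul, hx₀ k hk]
        · intro hk
          rw [h11, mem_stabilizer_iff, smul_smul] at hk
          have : g * k * g⁻¹ * g = g * k := by group
          rw [this, ← smul_smul] at hk
          rw [hK0, mem_stabilizer_iff]
          exact smul_left_cancel g hk
      rw [← hNeq] at h12
      exact hx₀ g h12
    -- the point `c = h x₀`
    have hcfix := hLfix x₀ (fun l hl => hx₀ l (hLK hl))
    have hax : a ≠ x₀ := by
      rintro rfl
      rw [hfixcard a hx₀] at ha
      omega
    have hcA : h • x₀ ∈ orbit K a := by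
      rcases hall (h • x₀) with h13 | h13 | h13
      · exact h13
      · exfalso
        apply not_fix hLK h2K _ hcfix
        rw [orbit_eq_iff.mpr h13, hb]
      · exfalso
        apply hhK
        rw [hK0]
        exact huniq _ h13
    have hc : h • x₀ = a' := by
      rw [hA] at hcA
      rcases hcA with h14 | h14
      · exfalso
        rw [← hha] at h14
        exact hax (smul_left_cancel h h14).symm
      · exact h14
    have hcx : h • h • x₀ = x₀ := by
      rw [smul_smul]
      exact hx₀ _ (hLK (sq_mem_of_two hLH h2H hhH))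
    -- the triangle
    obtain ⟨S, hS⟩ : ∃ S : Subgroup G, S = stabilizer G ({x₀, a, a'} : Set X) := ⟨_, rfl⟩
    have hKS : K ≤ S := by
      intro k hk
      rw [hS, mem_stabilizer_iff, Set.smul_set_insert, hx₀ k hk]
      have h15 : k • ({a, a'} : Set X) = {a, a'} := by
        rw [← hA]
        exact smul_orbit (⟨k, hk⟩ : K) a
      rw [h15]
    have hhS : h ∈ S := by
      rw [hS, mem_stabilizer_iff, Set.smul_set_insert, Set.smul_set_insert, Set.smul_set_singleton,
        hc, hha, ← hc, hcx]
      ext y
      simp only [Set.mem_insert_iff, Set.mem_singleton_iff]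
      tauto
    have horb : orbit S x₀ = {x₀, a, a'} := by
      apply Set.Subset.antisymm
      · rintro _ ⟨s, rfl⟩
        have h16 : s.1 • ({x₀, a, a'} : Set X) = {x₀, a, a'} := by
          have h30 : ∀ g ∈ S, g • ({x₀, a, a'} : Set X) = {x₀, a, a'} := by
            intro g hg
            rw [hS] at hg
            exact hg
          exact h30 s.1 s.2
        rw [← h16]
        exact Set.smul_mem_smul_set (by simp)
      · intro y hy
        rcases hy with rfl | rfl | rfl
        · exact mem_orbit_self y
        · have h17 : y ∈ orbit K (h • x₀) := by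
            rw [orbit_eq_iff.mpr hcA]
            exact mem_orbit_self y
          obtain ⟨k, hk⟩ := h17
          refine ⟨⟨k.1 * h, S.mul_mem (hKS k.2) hhS⟩, ?_⟩
          show (k.1 * h) • x₀ = y
          rw [← smul_smul]
          exact hk
        · exact ⟨⟨h, hhS⟩, hc⟩
    have hblock : IsBlock G (orbit S x₀) := IsBlock.of_orbit (by
      rw [← hK0]
      exact hKS)
    have hdvd := hblock.ncard_dvd_card ⟨x₀, mem_orbit_self x₀⟩
    have h3 : (orbit S x₀).ncard = 3 := by
      rw [horb, Set.ncard_eq_three]
      refine ⟨x₀, a, a', hax.symm, ?_, ha'.symm, rfl⟩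
      rintro rfl
      have : x₀ ∈ orbit K a := by
        rw [hA]
        simp
      rw [orbit_eq_iff.mpr this |>.symm, hfixcard x₀ hx₀] at ha
      omega
    have h8 : Nat.card X = 8 := by
      have hu : (Set.univ : Set X) = {x₀} ∪ (orbit K a ∪ orbit K b) := by
        ext y
        simp only [Set.mem_univ, Set.mem_union, Set.mem_singleton_iff, true_iff]
        rcases hall y with h | h | h
        · exact Or.inr (Or.inl h)
        · exact Or.inr (Or.inr h)
        · exact Or.inl (huniq y h)
      have hd1 : Disjoint (orbit K a) (orbit K b) := by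
        rw [Set.disjoint_left]
        intro y hy1 hy2
        rw [← orbit_eq_iff.mpr hy1, orbit_eq_iff.mpr hy2, hb] at ha
        omega
      have hd2 : Disjoint {x₀} (orbit K a ∪ orbit K b) := by
        rw [Set.disjoint_singleton_left]
        rintro (hy | hy)
        · rw [← orbit_eq_iff.mpr hy, hfixcard x₀ hx₀] at ha
          omega
        · rw [← orbit_eq_iff.mpr hy, hfixcard x₀ hx₀] at hb
          omega
      rw [← Set.ncard_univ, hu, Set.ncard_union_eq hd2, Set.ncard_union_eq hd1,
        Set.ncard_singleton]
      have h20 : (orbit K a).ncard = 2 := ha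
      have h21 : (orbit K b).ncard = 5 := hb
      rw [h20, h21]
    rw [h3, h8] at hdvd
    omega
  · -- second case
    push Not at hfix
    have hX : Nat.card X = 7 := by
      have hu : (Set.univ : Set X) = orbit K a ∪ orbit K b := by
        ext y
        simp only [Set.mem_univ, Set.mem_union, true_iff]
        rcases hall y with h | h | h
        · exact Or.inl h
        · exact Or.inr h
        · obtain ⟨k, hk, hk'⟩ := hfix y
          exact absurd (h k hk) hk'
      have hd1 : Disjoint (orbit K a) (orbit K b) := by
        rw [Set.disjoint_left]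
        intro y hy1 hy2
        rw [← orbit_eq_iff.mpr hy1, orbit_eq_iff.mpr hy2, hb] at ha
        omega
      rw [← Set.ncard_univ, hu, Set.ncard_union_eq hd1]
      have h20 : (orbit K a).ncard = 2 := ha
      have h21 : (orbit K b).ncard = 5 := hb
      rw [h20, h21]
    have hLa' : ∀ l ∈ L, l • a' = a' := by
      intro l hl
      have h22 : l • a' ∈ orbit K a := by
        have : a' ∈ orbit K a := by
          rw [hA]
          simp
        rw [← orbit_eq_iff.mpr this]
        exact ⟨⟨l, hLK hl⟩, rfl⟩
      rw [hA] at h22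
      rcases h22 with h23 | h23
      · exfalso
        have h24 : l • a = a := hLH hl
        rw [← h24] at h23
        apply ha'
        have h25 := smul_left_cancel l h23
        exact h25
      · exact h23
    have hcfix := hLfix a' hLa'
    rcases hall (h • a') with h13 | h13 | h13
    · rw [hA] at h13
      rcases h13 with h14 | h14
      · rw [← hha] at h14
        exact ha' (smul_left_cancel h h14)
      · -- `h` stabilises the orbit of `a`
        obtain ⟨S, hS⟩ : ∃ S : Subgroup G, S = stabilizer G ({a, a'} : Set X) := ⟨_, rfl⟩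
        have hKS : K ≤ S := by
          intro k hk
          rw [hS, mem_stabilizer_iff, ← hA]
          exact smul_orbit (⟨k, hk⟩ : K) a
        have hhS : h ∈ S := by
          rw [hS, mem_stabilizer_iff, Set.smul_set_insert, Set.smul_set_singleton, hha, h14]
        obtain ⟨j, hj⟩ := Subgroup.card_dvd_of_le hKS
        have hSG : Nat.card S ∣ Nat.card G := Subgroup.card_subgroup_dvd_card S
        rw [← hcard, hX, hj, mul_comm 7] at hSG
        have hj7 : j ∣ 7 := Nat.dvd_of_mul_dvd_mul_left hKpos hSG
        rcases (Nat.dvd_prime (by norm_num : Nat.Prime 7)).mp hj7 with h26 | h26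
        · rw [h26, mul_one] at hj
          have := eq_of_le hKS hj.le
          rw [← this] at hhS
          exact hhK hhS
        · have hSt : S = ⊤ := by
            apply Subgroup.eq_top_of_card_eq
            rw [hj, h26, ← hcard, hX, mul_comm]
          have h27 : ∀ g : G, g • a ∈ ({a, a'} : Set X) := by
            intro g
            have h28 : g ∈ S := by
              rw [hSt]
              exact Subgroup.mem_top g
            rw [hS, mem_stabilizer_iff] at h28
            rw [← h28]
            exact Set.smul_mem_smul_set (by simp)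
          have h29 : b ∈ orbit K a := by
            obtain ⟨g, hg⟩ := exists_smul_eq G a b
            rw [hA, ← hg]
            exact h27 g
          rw [← orbit_eq_iff.mpr h29, hb] at ha
          omega
    · apply not_fix hLK h2K _ hcfix
      rw [orbit_eq_iff.mpr h13, hb]
    · obtain ⟨k, hk, hk'⟩ := hfix (h • a')
      exact hk' (h13 k hk)

end Pool.Agent.V1131.TwoFiveB
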