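import Mathlib

/-! # A CPET tree whose only vertex of degree 4 has exactly one leaf neighbour (after helper51)

The spider `S(15, 12, 2, 1)` on 31 vertices has a connected partition of every type. -/

namespace Pool.Agent.V1131.CpetOne

/-- the neighbour of a vertex on the way to the centre `0` -/
def par (v : Fin 31) : Fin 31 :=
  if v = 0 ∨ v = 1 ∨ v = 16 ∨ v = 28 ∨ v = 30 then 0 else v - 1

/-- the spider `S(15, 12, 2, 1)`: centre `0`, legs `1..15`, `16..27`, `28, 29` and `30` -/
def spider : SimpleGraph (Fin 31) where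
  Adj u v := u ≠ v ∧ (par u = v ∨ par v = u)
  symm := ⟨fun u v h => ⟨h.1.symm, h.2.symm⟩⟩
  loopless := ⟨fun u h => h.1 rfl⟩

instance : DecidableRel spider.Adj := fun u v =>
  inferInstanceAs (Decidable (u ≠ v ∧ (par u = v ∨ par v = u)))

lemma par_lt (v : Fin 31) (hv : v ≠ 0) : (par v : ℕ) < v := by
  revert v; decide +kernel

lemma conn_of_root (S : Finset (Fin 31)) (r : Fin 31) (hr : r ∈ S)
    (h : ∀ v ∈ S, v ≠ r → par v ∈ S ∧ v ≠ 0) : (spider.induce (S : Set (Fin 31))).Connected := by
  have key : ∀ n : ℕ, ∀ v : Fin 31, (v : ℕ) ≤ n → ∀ hv : v ∈ S,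
      (spider.induce (S : Set (Fin 31))).Reachable ⟨v, hv⟩ ⟨r, hr⟩ := by
    intro n
    induction n with
    | zero =>
      intro v hvn hv
      by_cases hvr : v = r
      · subst hvr; exact SimpleGraph.Reachable.refl _
      · exact absurd (Fin.ext (by simpa using hvn)) (h v hv hvr).2
    | succ n ih =>
      intro v hvn hv
      by_cases hvr : v = r
      · subst hvr; exact SimpleGraph.Reachable.refl _
      · obtain ⟨h1, h2⟩ := h v hv hvr
        have h3 := par_lt v h2
        have hadj : (spider.induce (S : Set (Fin 31))).Adj ⟨v, hv⟩ ⟨par v, h1⟩ := by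
          simp only [SimpleGraph.comap_adj, Function.Embedding.subtype_apply]
          refine ⟨fun e => ?_, Or.inl rfl⟩
          rw [← e] at h3
          exact lt_irrefl _ h3
        exact hadj.reachable.trans (ih (par v) (by omega) h1)
  haveI : Nonempty (S : Set (Fin 31)) := ⟨⟨r, hr⟩⟩
  exact ⟨fun x y => (key _ x.1 le_rfl x.2).trans (key _ y.1 le_rfl y.2).symm⟩

/-- connected partitions of a set of vertices with prescribed sizes -/
def CP (S : Finset (Fin 31)) (m : Multiset ℕ) : Prop :=
  ∃ P : Finpartition S, (∀ B ∈ P.parts, (spider.induce (B : Set (Fin 31))).Connected) ∧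
    P.parts.val.map Finset.card = m

lemma CP.add {S : Finset (Fin 31)} {m : Multiset ℕ} (h : CP S m) (T U : Finset (Fin 31))
    (hT : T.Nonempty) (hd : Disjoint S T) (hU : S ∪ T = U)
    (hc : (spider.induce (T : Set (Fin 31))).Connected) (s : ℕ) (hs : T.card = s) :
    CP U (s ::ₘ m) := by
  obtain ⟨P, hP, hm⟩ := h
  have hne : T ≠ ⊥ := by
    rw [Finset.bot_eq_empty]
    exact hT.ne_empty
  have hnot : T ∉ P.parts := by
    intro hmem
    have hle : T ≤ S := P.le hmem
    have := hd.mono_left hle
    rw [disjoint_self] at this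
    exact hne this
  refine ⟨P.extend hne hd hU, ?_, ?_⟩
  · intro B hB
    rw [Finpartition.extend_parts] at hB
    rcases Finset.mem_insert.mp hB with rfl | hB
    · exact hc
    · exact hP B hB
  · rw [Finpartition.extend_parts, Finset.insert_val_of_notMem hnot, Multiset.map_cons, hm, hs]

/-- the part of the spider within the first `a`, `b`, `c`, `d` vertices of the legs -/
def reg (a b c d : ℕ) : Finset (Fin 31) :=
  Finset.univ.filter (fun v => v.val ≤ a ∨ (16 ≤ v.val ∧ v.val < 16 + b) ∨
    (28 ≤ v.val ∧ v.val < 28 + c) ∨ (30 ≤ v.val ∧ v.val < 30 + d))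

/-- an interval of vertices -/
def seg (x s : ℕ) : Finset (Fin 31) :=
  Finset.univ.filter (fun v => x ≤ v.val ∧ v.val < x + s)

lemma seg_card (x s : ℕ) (h : x + s ≤ 31) : (seg x s).card = s := by
  have : ∀ x s : Fin 32, x.val + s.val ≤ 31 → (seg x.val s.val).card = s.val := by
    decide +kernel
  exact this ⟨x, by omega⟩ ⟨s, by omega⟩ h

lemma par_val (v : Fin 31) : (par v : ℕ) =
    if v.val = 0 ∨ v.val = 1 ∨ v.val = 16 ∨ v.val = 28 ∨ v.val = 30 then 0 else v.val - 1 := by
  revert v; decide +kernel

lemma seg_conn (x s : ℕ) (hs : 0 < s) (h : x + s ≤ 31) (hx : 1 ≤ x)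
    (hin : ∀ y, x < y → y < x + s → y ≠ 16 ∧ y ≠ 28 ∧ y ≠ 30) :
    (spider.induce (seg x s : Set (Fin 31))).Connected := by
  refine conn_of_root (seg x s) ⟨x, by omega⟩ (by simp [seg]; omega) ?_
  intro v hv hvr
  simp only [seg, Finset.mem_filter, Finset.mem_univ, true_and] at hv ⊢
  have hvx : v.val ≠ x := fun e => hvr (Fin.ext e)
  have hv0 : v ≠ 0 := by
    intro e
    rw [e] at hv
    simp at hv
    omega
  have := hin v.val (by omega) hv.2
  refine ⟨?_, hv0⟩
  rw [par_val]
  split_ifs with h1
  · omega
  · omega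

lemma reg_conn (a b c d : ℕ) (ha : a ≤ 15) (hb : b ≤ 12) (hc : c ≤ 2) (hd : d ≤ 1) :
    (spider.induce (reg a b c d : Set (Fin 31))).Connected := by
  refine conn_of_root (reg a b c d) 0 (by simp [reg]) ?_
  intro v hv hv0
  refine ⟨?_, hv0⟩
  simp only [reg, Finset.mem_filter, Finset.mem_univ, true_and] at hv ⊢
  rw [par_val]
  split_ifs with h1
  · left; omega
  · omega

lemma reg_card (a b c d : ℕ) (ha : a ≤ 15) (hb : b ≤ 12) (hc : c ≤ 2) (hd : d ≤ 1) :
    (reg a b c d).card = 1 + a + b + c + d := by
  have : ∀ (a : Fin 16) (b : Fin 13) (c : Fin 3) (d : Fin 2),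
      (reg a.val b.val c.val d.val).card = 1 + a.val + b.val + c.val + d.val := by
    decide +kernel
  exact this ⟨a, by omega⟩ ⟨b, by omega⟩ ⟨c, by omega⟩ ⟨d, by omega⟩

/-- search for a packing of a list into bins of capacities `a`, `b`, `c`, `d` -/
def pack : List ℕ → ℕ → ℕ → ℕ → ℕ → Bool
  | [], _, _, _, _ => true
  | s :: l, a, b, c, d =>
      (s.ble a && pack l (a - s) b c d) || (s.ble b && pack l a (b - s) c d) ||
      (s.ble c && pack l a b (c - s) d) || (s.ble d && pack l a b c (d - s))

lemma cp_of_pack (l : List ℕ) (hl : ∀ s ∈ l, 0 < s) : ∀ (a b c d : ℕ), a ≤ 15 → b ≤ 12 → c ≤ 2 →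
    d ≤ 1 → pack l a b c d = true → ∀ p, p + l.sum = 1 + a + b + c + d →
    CP (reg a b c d) ((p :: l : List ℕ) : Multiset ℕ) := by
  induction l with
  | nil =>
    intro a b c d ha hb hc hd _ p hp
    have h0 : CP ∅ 0 := ⟨⊥, by simp, by simp⟩
    have := h0.add (reg a b c d) (reg a b c d) ⟨0, by simp [reg]⟩ (Finset.disjoint_empty_left _)
      (Finset.empty_union _) (reg_conn a b c d ha hb hc hd) p
      (by rw [reg_card a b c d ha hb hc hd]; simpa using hp.symm)
    simpa using this
  | cons s l ih =>
    intro a b c d ha hb hc hd hpk p hp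
    have hs : 0 < s := hl s (by simp)
    have hl' : ∀ t ∈ l, 0 < t := fun t ht => hl t (by simp [ht])
    have hsum : (s :: l).sum = s + l.sum := List.sum_cons
    have swap : ((p :: s :: l : List ℕ) : Multiset ℕ) = s ::ₘ ((p :: l : List ℕ) : Multiset ℕ) := by
      rw [← Multiset.cons_coe, ← Multiset.cons_coe, Multiset.cons_swap, Multiset.cons_coe]
    rw [swap]
    simp only [pack, Bool.or_eq_true, Bool.and_eq_true, Nat.ble_eq] at hpk
    rcases hpk with ((⟨h1, h2⟩ | ⟨h1, h2⟩) | ⟨h1, h2⟩) | ⟨h1, h2⟩
    · refine (ih hl' (a - s) b c d (by omega) hb hc hd h2 p (by omega)).add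
        (seg (a - s + 1) s) _ ?_ ?_ ?_ ?_ s (seg_card _ _ (by omega))
      · exact ⟨⟨a - s + 1, by omega⟩, by simp [seg]; omega⟩
      · rw [Finset.disjoint_left]
        intro v hv hv'
        simp only [reg, seg, Finset.mem_filter, Finset.mem_univ, true_and] at hv hv'
        omega
      · ext v
        simp only [reg, seg, Finset.mem_union, Finset.mem_filter, Finset.mem_univ, true_and]
        omega
      · exact seg_conn _ _ hs (by omega) (by omega) (by omega)
    · refine (ih hl' a (b - s) c d ha (by omega) hc hd h2 p (by omega)).add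
        (seg (16 + (b - s)) s) _ ?_ ?_ ?_ ?_ s (seg_card _ _ (by omega))
      · exact ⟨⟨16 + (b - s), by omega⟩, by simp [seg]; omega⟩
      · rw [Finset.disjoint_left]
        intro v hv hv'
        simp only [reg, seg, Finset.mem_filter, Finset.mem_univ, true_and] at hv hv'
        omega
      · ext v
        simp only [reg, seg, Finset.mem_union, Finset.mem_filter, Finset.mem_univ, true_and]
        omega
      · exact seg_conn _ _ hs (by omega) (by omega) (by omega)
    · refine (ih hl' a b (c - s) d ha hb (by omega) hd h2 p (by omega)).add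
        (seg (28 + (c - s)) s) _ ?_ ?_ ?_ ?_ s (seg_card _ _ (by omega))
      · exact ⟨⟨28 + (c - s), by omega⟩, by simp [seg]; omega⟩
      · rw [Finset.disjoint_left]
        intro v hv hv'
        simp only [reg, seg, Finset.mem_filter, Finset.mem_univ, true_and] at hv hv'
        omega
      · ext v
        simp only [reg, seg, Finset.mem_union, Finset.mem_filter, Finset.mem_univ, true_and]
        omega
      · exact seg_conn _ _ hs (by omega) (by omega) (by omega)
    · refine (ih hl' a b c (d - s) ha hb hc (by omega) h2 p (by omega)).add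
        (seg (30 + (d - s)) s) _ ?_ ?_ ?_ ?_ s (seg_card _ _ (by omega))
      · exact ⟨⟨30 + (d - s), by omega⟩, by simp [seg]; omega⟩
      · rw [Finset.disjoint_left]
        intro v hv hv'
        simp only [reg, seg, Finset.mem_filter, Finset.mem_univ, true_and] at hv hv'
        omega
      · ext v
        simp only [reg, seg, Finset.mem_union, Finset.mem_filter, Finset.mem_univ, true_and]
        omega
      · exact seg_conn _ _ hs (by omega) (by omega) (by omega)

/-- all weakly decreasing continuations can be packed -/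
def chk : ℕ → ℕ → ℕ → List ℕ → Bool
  | 0, _, _, _ => false
  | f + 1, rem, mx, acc =>
      if rem = 0 then pack acc 15 12 2 1
      else (List.range mx).all (fun s => (rem.blt (s + 1)) || chk f (rem - (s + 1)) (s + 1) (acc ++ [s + 1]))

lemma chk_sound : ∀ (f rem mx : ℕ) (acc l : List ℕ), chk f rem mx acc = true →
    l.Pairwise (· ≥ ·) → (∀ s ∈ l, 0 < s ∧ s ≤ mx) → l.sum = rem →
    pack (acc ++ l) 15 12 2 1 = true := by
  intro f
  induction f with
  | zero => intro rem mx acc l h; simp [chk] at h
  | succ f ih =>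
    intro rem mx acc l h hp hb hsum
    cases l with
    | nil =>
      simp only [List.sum_nil] at hsum
      rw [chk, if_pos hsum.symm] at h
      simpa using h
    | cons s t =>
      have hs := hb s (by simp)
      rw [List.sum_cons] at hsum
      have hrem : rem ≠ 0 := by omega
      rw [chk, if_neg hrem, List.all_eq_true] at h
      have h1 := h (s - 1) (by rw [List.mem_range]; omega)
      have hs1 : s - 1 + 1 = s := by omega
      rw [hs1, Bool.or_eq_true] at h1
      rcases h1 with h1 | h1
      · rw [Nat.blt_eq] at h1; omega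
      · rw [List.pairwise_cons] at hp
        have := ih (rem - s) s (acc ++ [s]) t h1 hp.2
          (fun x hx => ⟨(hb x (by simp [hx])).1, hp.1 x hx⟩) (by omega)
        simpa using this

lemma chk_all : (List.range 31).all (fun p => chk 32 (30 - p) (p + 1) []) = true := by
  decide +kernel

/-- The spider has a connected partition of every type. -/
theorem cp_all (M : Multiset ℕ) (hMpos : ∀ x ∈ M, 0 < x) (hMsum : M.sum = 31) :
    CP Finset.univ M := by
  have hsort : ((M.sort (· ≥ ·) : List ℕ) : Multiset ℕ) = M := Multiset.sort_eq _ _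
  have hsum : (M.sort (· ≥ ·)).sum = 31 := by
    rw [← Multiset.sum_coe, hsort, hMsum]
  have hpair : (M.sort (· ≥ ·)).Pairwise (· ≥ ·) := Multiset.pairwise_sort _ _
  have hpos : ∀ s ∈ M.sort (· ≥ ·), 0 < s := fun s hs =>
    hMpos s (by rwa [Multiset.mem_sort] at hs)
  rw [← hsort]
  revert hsum hpair hpos
  generalize M.sort (· ≥ ·) = L
  intro hsum hpair hpos
  cases L with
  | nil => simp at hsum
  | cons p rest =>
    rw [List.sum_cons] at hsum
    rw [List.pairwise_cons] at hpair
    have hp := hpos p (by simp)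
    have hall := List.all_eq_true.mp chk_all (p - 1) (by rw [List.mem_range]; omega)
    have hp1 : p - 1 + 1 = p := by omega
    rw [hp1] at hall
    have hpk := chk_sound 32 _ p [] rest hall hpair.2
      (fun s hs => ⟨hpos s (by simp [hs]), hpair.1 s hs⟩) (by omega)
    have hreg : reg 15 12 2 1 = Finset.univ := by decide +kernel
    rw [← hreg]
    exact cp_of_pack rest (fun s hs => hpos s (by simp [hs])) 15 12 2 1 le_rfl le_rfl le_rfl
      le_rfl hpk p (by omega)

lemma spider_tree : spider.IsTree := by
  rw [SimpleGraph.isTree_iff_connected_and_card]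
  constructor
  · have h := reg_conn 15 12 2 1 le_rfl le_rfl le_rfl le_rfl
    have hreg : reg 15 12 2 1 = Finset.univ := by decide +kernel
    rw [hreg, Finset.coe_univ] at h
    exact (SimpleGraph.induceUnivIso spider).connected_iff.mp h
  · rw [Nat.card_eq_fintype_card, Nat.card_eq_fintype_card, ← SimpleGraph.edgeFinset_card]
    decide +kernel

end Pool.Agent.V1131.CpetOne
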