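import Mathlib

/-!
# Monoids with `t ^ (p + 1) = t` generated by two elements (helper31)
-/

set_option autoImplicit false

namespace Pool.Agent.V1131.FBMon

variable {M : Type*} [Monoid M] {p : ℕ}

/-- `e` is a multiple of `u` -/
def Dv (e u : M) : Prop := ∃ s t : M, e = s * u * t

theorem Dv.mul (hp : 1 ≤ p) (hM : ∀ t : M, t ^ (p + 1) = t) {e u v : M} (he : e * e = e)
    (hu : Dv e u) (hv : Dv e v) : Dv e (u * v) := by
  obtain ⟨s1, t1, h1⟩ := hu
  obtain ⟨s2, t2, h2⟩ := hv
  obtain ⟨q, rfl⟩ : ∃ q, p = q + 1 := ⟨p - 1, by omega⟩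
  have h3 : e = s2 * (v * (t2 * s1) * u) * t1 := by
    calc e = e * e := he.symm
      _ = (s2 * v * t2) * (s1 * u * t1) := by rw [← h1, ← h2]
      _ = s2 * (v * (t2 * s1) * u) * t1 := by simp only [mul_assoc]
  have h4 : v * (t2 * s1) * u = v * (t2 * s1) * (u * v) * ((t2 * s1) * u *
      (v * (t2 * s1) * u) ^ q) := by
    conv_lhs => rw [← hM (v * (t2 * s1) * u), pow_succ', pow_succ']
    simp only [mul_assoc]
  refine ⟨s2 * (v * (t2 * s1)), (t2 * s1) * u * (v * (t2 * s1) * u) ^ q * t1, ?_⟩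
  calc e = s2 * (v * (t2 * s1) * u) * t1 := h3
    _ = s2 * (v * (t2 * s1) * (u * v) * ((t2 * s1) * u * (v * (t2 * s1) * u) ^ q)) * t1 := by
      rw [← h4]
    _ = _ := by simp only [mul_assoc]

theorem pow_idem (hp : 1 ≤ p) (hM : ∀ t : M, t ^ (p + 1) = t) (t : M) :
    t ^ p * t ^ p = t ^ p := by
  obtain ⟨q, rfl⟩ : ∃ q, p = q + 1 := ⟨p - 1, by omega⟩
  rw [← pow_add, show q + 1 + (q + 1) = (q + 1 + 1) + q by ring, pow_add, hM, ← pow_succ']

/-- a right invertible element of `e M e` -/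
theorem pow_eq (hp : 1 ≤ p) (hM : ∀ t : M, t ^ (p + 1) = t) {e g v : M} (h : g * v = e)
    (hg : g * e = g) : g ^ p = e := by
  have hk : ∀ k : ℕ, g ^ (k + 1) * e = g ^ (k + 1) := fun k => by
    rw [pow_succ, mul_assoc, hg]
  have h1 : ∀ k : ℕ, g ^ (k + 1) * v ^ (k + 1) = e := by
    intro k
    induction k with
    | zero => simpa using h
    | succ k ih =>
      calc g ^ (k + 1 + 1) * v ^ (k + 1 + 1) = g ^ (k + 1) * (g * v) * v ^ (k + 1) := by
            rw [pow_succ g (k + 1), pow_succ' v (k + 1)]; simp only [mul_assoc]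
        _ = e := by rw [h, hk, ih]
  obtain ⟨q, rfl⟩ : ∃ q, p = q + 1 := ⟨p - 1, by omega⟩
  calc g ^ (q + 1) = g ^ (q + 1) * e := (hk q).symm
    _ = (g ^ (q + 1) * g ^ (q + 1)) * v ^ (q + 1) := by rw [mul_assoc, h1]
    _ = e := by rw [pow_idem hp hM, h1]

theorem pow_sandwich (hp : 2 ≤ p) (hM : ∀ t : M, t ^ (p + 1) = t) {e x : M} (he : e * e = e)
    (h : Dv e (e * x * e)) : (e * x * e) ^ p = e := by
  obtain ⟨s, t, hst⟩ := h
  have h1 : (e * s * e) * ((e * x * e) * (e * t * e)) = e := by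
    calc (e * s * e) * ((e * x * e) * (e * t * e))
        = e * (s * ((e * e) * x * (e * e)) * t) * e := by simp only [mul_assoc]
      _ = e * (s * (e * x * e) * t) * e := by rw [he]
      _ = e := by rw [← hst, he, he]
  have h2 : (e * s * e) ^ p = e := pow_eq (by omega) hM h1 (by rw [mul_assoc, he])
  obtain ⟨q, rfl⟩ : ∃ q, p = q + 2 := ⟨p - 2, by omega⟩
  have h3 : (e * x * e) * (e * t * e) = (e * s * e) ^ (q + 1) := by
    calc (e * x * e) * (e * t * e) = e * ((e * x * e) * (e * t * e)) := by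
          have h4 : e * (e * x * e) = e * x * e := by
            rw [← mul_assoc, ← mul_assoc, he]
          rw [← mul_assoc e (e * x * e), h4]
      _ = (e * s * e) ^ (q + 2) * ((e * x * e) * (e * t * e)) := by rw [h2]
      _ = (e * s * e) ^ (q + 1) * ((e * s * e) * ((e * x * e) * (e * t * e))) := by
          rw [pow_succ, mul_assoc]
      _ = (e * s * e) ^ (q + 1) * e := by rw [h1]
      _ = (e * s * e) ^ (q + 1) := by
          rw [pow_succ, mul_assoc, mul_assoc (e * s) e e, he]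
  refine pow_eq (v := (e * t * e) * (e * s * e)) (by omega) hM ?_ (by rw [mul_assoc, he])
  calc (e * x * e) * ((e * t * e) * (e * s * e)) = ((e * x * e) * (e * t * e)) * (e * s * e) := by
        simp only [mul_assoc]
    _ = (e * s * e) ^ (q + 2) := by rw [h3, ← pow_succ]
    _ = e := h2

end Pool.Agent.V1131.FBMon
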