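import Pool.Agent.TH54.BU.Iter
import Pool.Agent.TH54.BU.Inf
import Pool.Agent.V1131.FBMon

/-!
# A class of the congruence generated by `x ~ x ^ (1 + p)` which is not regular (helper31)
-/

set_option autoImplicit false

namespace Pool.Agent.V1131.FBReg

open Pool.Agent.TH54.BU Pool.Agent.V1131.FBMon

/-- the congruence -/
abbrev th (p : ℕ) : Con (FreeMonoid (Fin 2)) :=
  conGen fun a b : FreeMonoid (Fin 2) => ∃ x : FreeMonoid (Fin 2), a = x ^ 1 ∧ b = x ^ (1 + p)

theorem coe_pow' (p : ℕ) (x : FreeMonoid (Fin 2)) (n : ℕ) :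
    ((x ^ n : FreeMonoid (Fin 2)) : (th p).Quotient) = (x : (th p).Quotient) ^ n :=
  map_pow (th p).mk' x n

theorem th_pow (p : ℕ) (t : (th p).Quotient) : t ^ (p + 1) = t := by
  induction t using Con.induction_on with
  | H x =>
    rw [← coe_pow', Con.eq]
    refine Con.symm _ ?_
    refine ConGen.Rel.of _ _ ⟨x, (pow_one x).symm, by rw [add_comm]⟩

/-- the word `(ab)^p` -/
def w0 (p : ℕ) : FreeMonoid (Fin 2) := (FreeMonoid.of 0 * FreeMonoid.of 1) ^ p

theorem dv_all (p : ℕ) (hp : 1 ≤ p) (x : FreeMonoid (Fin 2)) :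
    Dv ((w0 p : FreeMonoid (Fin 2)) : (th p).Quotient) (x : (th p).Quotient) := by
  have hM := th_pow p
  have he : ((w0 p : FreeMonoid (Fin 2)) : (th p).Quotient) * (w0 p : FreeMonoid (Fin 2)) =
      (w0 p : FreeMonoid (Fin 2)) := by
    unfold w0
    rw [coe_pow']
    exact pow_idem hp hM _
  obtain ⟨q, rfl⟩ : ∃ q, p = q + 1 := ⟨p - 1, by omega⟩
  induction x using FreeMonoid.inductionOn with
  | one => exact ⟨(w0 (q + 1) : FreeMonoid (Fin 2)), 1, by simp⟩
  | of i =>
    fin_cases i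
    · refine ⟨1, ((FreeMonoid.of 1 * (FreeMonoid.of 0 * FreeMonoid.of 1) ^ q :
        FreeMonoid (Fin 2)) : (th (q + 1)).Quotient), ?_⟩
      rw [one_mul, ← Con.coe_mul]
      unfold w0
      rw [pow_succ']
      rfl
    · refine ⟨(((FreeMonoid.of 0 * FreeMonoid.of 1) ^ q * FreeMonoid.of 0 :
        FreeMonoid (Fin 2)) : (th (q + 1)).Quotient), 1, ?_⟩
      rw [mul_one, ← Con.coe_mul]
      unfold w0
      rw [pow_succ, mul_assoc]
      rfl
  | mul x y hx hy =>
    rw [Con.coe_mul]
    exact Dv.mul (by omega) hM he hx hy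

theorem sandwich (p : ℕ) (hp : 2 ≤ p) (x : FreeMonoid (Fin 2)) :
    th p ((w0 p * x * w0 p) ^ p) (w0 p) := by
  have hM := th_pow p
  have he : ((w0 p : FreeMonoid (Fin 2)) : (th p).Quotient) * (w0 p : FreeMonoid (Fin 2)) =
      (w0 p : FreeMonoid (Fin 2)) := by
    unfold w0
    rw [coe_pow']
    exact pow_idem (by omega) hM _
  have h1 := dv_all p (by omega) (w0 p * x * w0 p)
  rw [Con.coe_mul, Con.coe_mul] at h1
  have h2 := pow_sandwich hp hM he h1
  rw [← Con.coe_mul, ← Con.coe_mul, ← coe_pow'] at h2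
  exact (Con.eq _).1 h2

/-- the map onto the free group of exponent `p` -/
noncomputable def phi (p : ℕ) : FreeMonoid (Fin 2) →* FreeGroup (Fin 2) ⧸ powSub (FreeGroup (Fin 2)) p :=
  FreeMonoid.lift fun i => ((FreeGroup.of i : FreeGroup (Fin 2)) : FreeGroup (Fin 2) ⧸ powSub _ p)

theorem gpow (p : ℕ) (x : FreeGroup (Fin 2) ⧸ powSub (FreeGroup (Fin 2)) p) : x ^ p = 1 := by
  induction x using QuotientGroup.induction_on with
  | H g =>
    rw [← QuotientGroup.mk_pow, QuotientGroup.eq_one_iff]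
    exact Subgroup.subset_normalClosure ⟨g, rfl⟩

theorem phi_th (p : ℕ) {a b : FreeMonoid (Fin 2)} (h : th p a b) : phi p a = phi p b := by
  have h1 : th p ≤ Con.ker (phi p) := by
    refine Con.conGen_le.2 ?_
    rintro _ _ ⟨x, rfl, rfl⟩
    rw [Con.ker_rel, map_pow, pow_add, gpow, mul_one, pow_one]
  exact (Con.ker_rel _).1 (h1 h)

theorem phi_surj (p : ℕ) (hp : 1 ≤ p) : Function.Surjective (phi p) := by
  obtain ⟨q, rfl⟩ : ∃ q, p = q + 1 := ⟨p - 1, by omega⟩
  let S : Subgroup (FreeGroup (Fin 2) ⧸ powSub (FreeGroup (Fin 2)) (q + 1)) :=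
    { carrier := Set.range (phi (q + 1))
      mul_mem' := by
        rintro _ _ ⟨a, rfl⟩ ⟨b, rfl⟩
        exact ⟨a * b, map_mul _ _ _⟩
      one_mem' := ⟨1, map_one _⟩
      inv_mem' := by
        rintro _ ⟨a, rfl⟩
        refine ⟨a ^ q, ?_⟩
        rw [map_pow, eq_inv_iff_mul_eq_one, ← pow_succ]
        exact gpow _ _ }
  intro x
  have hx : x ∈ S := by
    induction x using QuotientGroup.induction_on with
    | H g =>
      induction g using FreeGroup.induction_on with
      | C1 => exact S.one_mem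
      | of i => exact ⟨FreeMonoid.of i, by simp [phi]⟩
      | inv_of i hi => exact S.inv_mem hi
      | mul a b ha hb => exact S.mul_mem ha hb
  exact hx

theorem main (p : ℕ) (hp : 2 ≤ p)
    (hinf : Infinite (FreeGroup (Fin 2) ⧸ powSub (FreeGroup (Fin 2)) p))
    (σ : Type) [Finite σ] (M : DFA (Fin 2) σ)
    (hM : M.accepts = {v : List (Fin 2) | th p (FreeMonoid.ofList v) (w0 p)}) : False := by
  classical
  choose u hu using phi_surj p (by omega)
  obtain ⟨g, h, hgh, hf⟩ := Finite.exists_ne_map_eq_of_infinite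
    (fun g => fun s : σ => M.evalFrom s (FreeMonoid.toList (u g)))
  have key : ∀ x y : List (Fin 2), (x ++ FreeMonoid.toList (u g) ++ y ∈ M.accepts ↔
      x ++ FreeMonoid.toList (u h) ++ y ∈ M.accepts) := by
    intro x y
    have := congrFun hf (M.evalFrom M.start x)
    change M.evalFrom M.start _ ∈ M.accept ↔ M.evalFrom M.start _ ∈ M.accept
    rw [DFA.evalFrom_of_append, DFA.evalFrom_of_append, DFA.evalFrom_of_append,
      DFA.evalFrom_of_append, this]
  have key2 : ∀ x y : FreeMonoid (Fin 2), (th p (x * u g * y) (w0 p) ↔ th p (x * u h * y) (w0 p)) := by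
    intro x y
    have := key (FreeMonoid.toList x) (FreeMonoid.toList y)
    rw [hM] at this
    exact this
  obtain ⟨q, rfl⟩ : ∃ q, p = q + 1 := ⟨p - 1, by omega⟩
  set w := w0 (q + 1) with hw
  have h1 : th (q + 1) ((w * u g * w) ^ q * w * u g * w) w := by
    have := sandwich (q + 1) hp (u g)
    rw [pow_succ] at this
    simpa only [mul_assoc] using this
  have h2 := (key2 ((w * u g * w) ^ q * w) w).1 h1
  have h3 := phi_th _ h2
  have hw1 : phi (q + 1) w = 1 := by
    rw [hw, w0, map_pow, gpow]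
  rw [map_mul, map_mul, map_mul, map_pow, map_mul, map_mul, hw1, hu, hu] at h3
  simp only [one_mul, mul_one] at h3
  apply hgh
  have h4 : g ^ q * g = 1 := by rw [← pow_succ]; exact gpow _ _
  exact mul_left_cancel (h4.trans h3.symm)

/-- the negation of the generalised Brzozowski conjecture -/
theorem notReg : ¬ (∀ (A : Type) [Fintype A] (n m : ℕ), 0 < n → 0 < m →
      ∀ w : FreeMonoid A,
        ∃ (σ : Type) (_ : Fintype σ) (M : DFA A σ),
          M.accepts =
            {v : List A |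
              conGen (fun a b : FreeMonoid A => ∃ x : FreeMonoid A, a = x ^ n ∧ b = x ^ (n + m))
                (FreeMonoid.ofList v) w}) := by
  intro H
  obtain ⟨p0, hp0⟩ := burnside
  obtain ⟨p, hpp, hp⟩ := Nat.exists_infinite_primes p0
  have hB := hp0 p hp hpp
  obtain ⟨σ, hσ, M, hM⟩ := H (Fin 2) 1 p one_pos hp.pos (w0 p)
  exact main p hp.two_le (hB.infinite hp) σ M hM

end Pool.Agent.V1131.FBReg
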