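import Mathlib

/-! # Chromatic symmetric functions and their coefficients in the elementary basis -/

namespace Pool.Agent.V1131.ChromE

open MvPolynomial Finset

/-- the proper colourings of `T` with colours in `Fin N` -/
def properCol {V : Type} [Fintype V] [DecidableEq V] (T : SimpleGraph V) [DecidableRel T.Adj]
    (N : ℕ) : Finset (V → Fin N) :=
  Finset.univ.filter (fun κ => ∀ u v, T.Adj u v → κ u ≠ κ v)

/-- the chromatic symmetric function of `T` in the variables `x_0, …, x_{N-1}` -/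
noncomputable def chromSym {V : Type} [Fintype V] [DecidableEq V] (T : SimpleGraph V)
    [DecidableRel T.Adj] (N : ℕ) : MvPolynomial (Fin N) ℤ :=
  ∑ κ ∈ properCol T N, ∏ v, X (κ v)

lemma chromSym_symm {V : Type} [Fintype V] [DecidableEq V] (T : SimpleGraph V)
    [DecidableRel T.Adj] (N : ℕ) : (chromSym T N).IsSymmetric := by
  intro e
  unfold chromSym
  rw [map_sum]
  refine Finset.sum_bij' (fun κ _ => fun v => e (κ v)) (fun κ _ => fun v => e.symm (κ v)) ?_ ?_ ?_ ?_ ?_
  · intro κ hκ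
    simp only [properCol, Finset.mem_filter, Finset.mem_univ, true_and] at hκ ⊢
    intro u v huv h
    exact hκ u v huv (e.injective h)
  · intro κ hκ
    simp only [properCol, Finset.mem_filter, Finset.mem_univ, true_and] at hκ ⊢
    intro u v huv h
    exact hκ u v huv (e.symm.injective h)
  · intro κ _; funext v; simp
  · intro κ _; funext v; simp
  · intro κ _
    rw [map_prod]
    simp

/-- the polynomial `P` with `P(e_1, …, e_N) = X_T(x_0, …, x_{N-1})`; the variable with index `i`
stands for `e_{i+1}` -/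
noncomputable def ePoly {V : Type} [Fintype V] [DecidableEq V] (T : SimpleGraph V)
    [DecidableRel T.Adj] (N : ℕ) : MvPolynomial (Fin N) ℤ :=
  (esymmAlgEquiv (Fin N) ℤ (Fintype.card_fin N)).symm ⟨chromSym T N, chromSym_symm T N⟩

/-- the coefficient of `e_μ` in the chromatic symmetric function of `T` in `N` variables -/
noncomputable def eCoeff {V : Type} [Fintype V] [DecidableEq V] (T : SimpleGraph V)
    [DecidableRel T.Adj] (N : ℕ) (μ : Nat.Partition (Fintype.card V)) : ℤ :=
  (ePoly T N).coeff (Finsupp.equivFunOnFinite.symm fun i : Fin N => μ.parts.count (i.val + 1))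

lemma ePoly_spec {V : Type} [Fintype V] [DecidableEq V] (T : SimpleGraph V)
    [DecidableRel T.Adj] (N : ℕ) :
    aeval (fun i : Fin N => esymm (Fin N) ℤ (i + 1)) (ePoly T N) = chromSym T N := by
  have h := (esymmAlgEquiv (Fin N) ℤ (Fintype.card_fin N)).apply_symm_apply
    ⟨chromSym T N, chromSym_symm T N⟩
  have h2 := congrArg Subtype.val h
  rw [esymmAlgEquiv_apply, esymmAlgHom_apply] at h2
  exact h2

/-! ## Summation over colourings of a rooted tree -/

section transfer

variable {C R : Type} [Fintype C] [DecidableEq C] [CommRing R]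

/-- parents as elements of `Fin` -/
def parF (p : ℕ → ℕ) (hp : ∀ v, p v ≤ v) (n : ℕ) (v : Fin (n + 1)) : Fin (n + 1) :=
  ⟨p v, lt_of_le_of_lt (hp v) v.isLt⟩

/-- weighted count of proper colourings -/
def Sm (p : ℕ → ℕ) (hp : ∀ v, p v ≤ v) (n : ℕ) (w : ℕ → C → R) : R :=
  ∑ κ : Fin (n + 1) → C, if ∀ v : Fin (n + 1), v ≠ 0 → κ v ≠ κ (parF p hp n v) then
    ∏ v : Fin (n + 1), w v (κ v) else 0

lemma Sm_succ (p : ℕ → ℕ) (hp : ∀ v, p v ≤ v) (hp' : ∀ v, 0 < v → p v < v) (n : ℕ)
    (w : ℕ → C → R) : Sm p hp (n + 1) w = Sm p hp n (fun v c => w v c *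
      (if v = p (n + 1) then (∑ c', w (n + 1) c') - w (n + 1) c else 1)) := by
  unfold Sm
  rw [← (Fin.snocEquiv (fun _ : Fin (n + 2) => C)).sum_comp, Fintype.sum_prod_type_right]
  refine Finset.sum_congr rfl fun κ _ => ?_
  have hlt : p (n + 1) < n + 1 := hp' (n + 1) (Nat.succ_pos n)
  have hcond : ∀ c : C, (∀ v : Fin (n + 2), v ≠ 0 →
      (Fin.snocEquiv (fun _ : Fin (n + 2) => C)) (c, κ) v ≠
        (Fin.snocEquiv (fun _ : Fin (n + 2) => C)) (c, κ) (parF p hp (n + 1) v)) ↔
      ((∀ v : Fin (n + 1), v ≠ 0 → κ v ≠ κ (parF p hp n v)) ∧ c ≠ κ ⟨p (n + 1), hlt⟩) := by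
    intro c
    have hlast : parF p hp (n + 1) (Fin.last (n + 1)) = Fin.castSucc ⟨p (n + 1), hlt⟩ := by
      apply Fin.ext; simp [parF]
    have hcast : ∀ v : Fin (n + 1), parF p hp (n + 1) (Fin.castSucc v) =
        Fin.castSucc (parF p hp n v) := by
      intro v; apply Fin.ext; simp [parF]
    have hsc : ∀ v : Fin (n + 1), (Fin.snocEquiv (fun _ : Fin (n + 2) => C)) (c, κ)
        (Fin.castSucc v) = κ v := by
      intro v; simp [Fin.snocEquiv]
    have hsl : (Fin.snocEquiv (fun _ : Fin (n + 2) => C)) (c, κ) (Fin.last (n + 1)) = c := by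
      simp [Fin.snocEquiv]
    constructor
    · intro h
      refine ⟨fun v hv => ?_, ?_⟩
      · have := h (Fin.castSucc v) (by
          intro e; apply hv; apply Fin.ext; simpa using congrArg Fin.val e)
        rw [hcast, hsc, hsc] at this
        exact this
      · have := h (Fin.last (n + 1)) (by
          intro e; have := congrArg Fin.val e; simp at this)
        rw [hlast, hsc, hsl] at this
        exact this
    · rintro ⟨h1, h2⟩ v
      refine Fin.lastCases ?_ (fun v => ?_) v
      · intro _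
        rw [hlast, hsc, hsl]
        exact h2
      · intro hv
        rw [hcast, hsc, hsc]
        exact h1 v (by
          intro e; apply hv; rw [e]; rfl)
  have hprod : ∀ c : C, (∏ v : Fin (n + 2), w v ((Fin.snocEquiv (fun _ : Fin (n + 2) => C)) (c, κ) v)) =
      (∏ v : Fin (n + 1), w v (κ v)) * w (n + 1) c := by
    intro c
    rw [Fin.prod_univ_castSucc]
    simp [Fin.snocEquiv]
  have hR : (∏ v : Fin (n + 1), w v (κ v) *
      (if v.val = p (n + 1) then (∑ c', w (n + 1) c') - w (n + 1) (κ v) else 1)) =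
      (∏ v : Fin (n + 1), w v (κ v)) *
        ((∑ c', w (n + 1) c') - w (n + 1) (κ ⟨p (n + 1), hlt⟩)) := by
    rw [Finset.prod_mul_distrib]
    congr 1
    rw [Finset.prod_eq_single (⟨p (n + 1), hlt⟩ : Fin (n + 1))]
    · simp
    · intro b _ hb
      rw [if_neg]
      intro e
      exact hb (Fin.ext e)
    · intro h; exact absurd (Finset.mem_univ _) h
  rw [hR]
  by_cases hA : ∀ v : Fin (n + 1), v ≠ 0 → κ v ≠ κ (parF p hp n v)
  · rw [if_pos hA]
    have : ∀ c : C, (if ∀ v : Fin (n + 2), v ≠ 0 →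
      (Fin.snocEquiv (fun _ : Fin (n + 2) => C)) (c, κ) v ≠
        (Fin.snocEquiv (fun _ : Fin (n + 2) => C)) (c, κ) (parF p hp (n + 1) v) then
        ∏ v : Fin (n + 2), w v ((Fin.snocEquiv (fun _ : Fin (n + 2) => C)) (c, κ) v) else 0) =
        (∏ v : Fin (n + 1), w v (κ v)) * w (n + 1) c -
          (if c = κ ⟨p (n + 1), hlt⟩ then (∏ v : Fin (n + 1), w v (κ v)) * w (n + 1) c else 0) := by
      intro c
      rw [hprod c]
      by_cases hc : c = κ ⟨p (n + 1), hlt⟩
      · rw [if_neg (fun h => ((hcond c).mp h).2 hc), if_pos hc, sub_self]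
      · rw [if_pos ((hcond c).mpr ⟨hA, hc⟩), if_neg hc, sub_zero]
    rw [Finset.sum_congr rfl (fun c _ => this c), Finset.sum_sub_distrib, ← Finset.mul_sum,
      Finset.sum_ite_eq' Finset.univ (κ ⟨p (n + 1), hlt⟩), if_pos (Finset.mem_univ _), mul_sub]
  · rw [if_neg hA]
    apply Finset.sum_eq_zero
    intro c _
    rw [if_neg (fun h => hA ((hcond c).mp h).1)]

end transfer

/-! ## Three colours -/

section three

variable {R : Type} [CommRing R]

/-- a weight supported on the first three colours -/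
def ofT (N : ℕ) (t : R × R × R) (c : Fin N) : R :=
  if c.val = 0 then t.1 else if c.val = 1 then t.2.1 else if c.val = 2 then t.2.2 else 0

/-- the sum of a triple -/
def sum3 (t : R × R × R) : R := t.1 + t.2.1 + t.2.2

/-- the weights of a vertex after removing a leaf neighbour -/
def mulsub (t s : R × R × R) : R × R × R :=
  (t.1 * (sum3 s - s.1), t.2.1 * (sum3 s - s.2.1), t.2.2 * (sum3 s - s.2.2))

lemma ofT_0 (M : ℕ) (t : R × R × R) : ofT (M + 3) t 0 = t.1 := by
  unfold ofT
  simp only [Fin.val_zero, if_true]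

lemma ofT_1 (M : ℕ) (t : R × R × R) : ofT (M + 3) t (Fin.succ 0) = t.2.1 := by
  unfold ofT
  simp only [Fin.val_succ, Fin.val_zero]
  norm_num

lemma ofT_2 (M : ℕ) (t : R × R × R) : ofT (M + 3) t (Fin.succ (Fin.succ 0)) = t.2.2 := by
  unfold ofT
  simp only [Fin.val_succ, Fin.val_zero]
  norm_num

lemma ofT_s (M : ℕ) (t : R × R × R) (i : Fin M) : ofT (M + 3) t i.succ.succ.succ = 0 := by
  unfold ofT
  simp only [Fin.val_succ]
  rw [if_neg (by omega), if_neg (by omega), if_neg (by omega)]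

lemma sum_ofT (M : ℕ) (t : R × R × R) : ∑ c, ofT (M + 3) t c = sum3 t := by
  rw [Fin.sum_univ_succ, Fin.sum_univ_succ, Fin.sum_univ_succ, ofT_0, ofT_1, ofT_2]
  have : ∑ i : Fin M, ofT (M + 3) t i.succ.succ.succ = 0 := by
    apply Finset.sum_eq_zero
    intro i _
    exact ofT_s M t i
  rw [this, sum3]
  ring

lemma ofT_mul (N : ℕ) (t s : R × R × R) (c : Fin N) :
    ofT N t c * (sum3 s - ofT N s c) = ofT N (mulsub t s) c := by
  unfold ofT mulsub
  split_ifs <;> simp

/-- the elimination of vertices for three colours -/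
def Zt (p : ℕ → ℕ) : ℕ → (ℕ → R × R × R) → R
  | 0, t => sum3 (t 0)
  | n + 1, t => Zt p n (fun v => if v = p (n + 1) then mulsub (t v) (t (n + 1)) else t v)

lemma Sm_eq_Zt (p : ℕ → ℕ) (hp : ∀ v, p v ≤ v) (hp' : ∀ v, 0 < v → p v < v) (M : ℕ) :
    ∀ (n : ℕ) (t : ℕ → R × R × R),
    Sm p hp n (fun v (c : Fin (M + 3)) => ofT (M + 3) (t v) c) = Zt p n t := by
  intro n
  induction n with
  | zero =>
    intro t
    unfold Sm Zt
    rw [← sum_ofT M (t 0)]
    rw [← (Equiv.funUnique (Fin 1) (Fin (M + 3))).symm.sum_comp]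
    refine Finset.sum_congr rfl fun c _ => ?_
    rw [if_pos]
    · simp
    · intro v hv
      exact absurd (Fin.ext (by have := v.isLt; simp)) hv
  | succ n ih =>
    intro t
    rw [Sm_succ p hp hp', Zt, ← ih]
    congr 1
    funext v c
    rw [sum_ofT]
    by_cases hv : v = p (n + 1)
    · rw [if_pos hv, if_pos hv, ofT_mul]
    · rw [if_neg hv, if_neg hv, mul_one]

end three

/-! ## Evaluation at a special point -/

lemma esymm_cons {A : Type} [CommRing A] (a : A) (s : Multiset A) (n : ℕ) :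
    (a ::ₘ s).esymm (n + 1) = s.esymm (n + 1) + a * s.esymm n := by
  unfold Multiset.esymm
  rw [Multiset.powersetCard_cons, Multiset.map_add, Multiset.sum_add, Multiset.map_map]
  congr 1
  rw [← Multiset.sum_map_mul_left]
  congr 1
  apply Multiset.map_congr rfl
  intro x _
  simp

lemma esymm_replicate_zero {A : Type} [CommRing A] (M n : ℕ) :
    (Multiset.replicate M (0 : A)).esymm (n + 1) = 0 := by
  induction M with
  | zero => simp [Multiset.esymm, Multiset.powersetCard_zero_right]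
  | succ M ih => rw [Multiset.replicate_succ, esymm_cons, ih]; simp

lemma esymm_zero' {A : Type} [CommRing A] (s : Multiset A) : s.esymm 0 = 1 := by
  simp [Multiset.esymm]

/-- the ring of dual numbers over the integers -/
abbrev D : Type := Zsqrtd 0

/-- the special point -/
def w3 : D × D × D := (⟨1, 0⟩, ⟨-1, -1⟩, ⟨0, 1⟩)

/-- the scaled special point -/
noncomputable def pt (N : ℕ) (i : Fin N) : Polynomial D := Polynomial.C (ofT N w3 i) * Polynomial.X

lemma univ_map_pt (M : ℕ) : (Finset.univ.val.map (pt (M + 3)) : Multiset (Polynomial D)) =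
    (Polynomial.C ⟨1, 0⟩ * Polynomial.X) ::ₘ (Polynomial.C ⟨-1, -1⟩ * Polynomial.X) ::ₘ
      (Polynomial.C ⟨0, 1⟩ * Polynomial.X) ::ₘ Multiset.replicate M 0 := by
  rw [Fin.univ_val_map, List.ofFn_succ, List.ofFn_succ, List.ofFn_succ]
  have : (List.ofFn fun i : Fin M => pt (M + 3) i.succ.succ.succ) = List.replicate M 0 := by
    rw [← List.ofFn_const]
    congr 1
    funext i
    rw [pt, ofT_s, Polynomial.C_0, zero_mul]
  rw [this]
  have h0 : pt (M + 3) 0 = Polynomial.C ⟨1, 0⟩ * Polynomial.X := by rw [pt, ofT_0, w3]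
  have h1 : pt (M + 3) (Fin.succ 0) = Polynomial.C ⟨-1, -1⟩ * Polynomial.X := by
    rw [pt, ofT_1, w3]
  have h2 : pt (M + 3) (Fin.succ (Fin.succ 0)) = Polynomial.C ⟨0, 1⟩ * Polynomial.X := by
    rw [pt, ofT_2, w3]
  rw [h0, h1, h2]
  rfl

/-- the values of the elementary symmetric polynomials at the special point -/
noncomputable def ev (k : ℕ) : Polynomial D :=
  if k = 2 then Polynomial.C ⟨-1, -1⟩ * Polynomial.X ^ 2
  else if k = 3 then Polynomial.C ⟨0, -1⟩ * Polynomial.X ^ 3 else 0

lemma ev_one : ev 1 = 0 := by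
  unfold ev
  rw [if_neg (by omega), if_neg (by omega)]

lemma ev_two : ev 2 = Polynomial.C ⟨-1, -1⟩ * Polynomial.X ^ 2 := by
  unfold ev
  rw [if_pos rfl]

lemma ev_three : ev 3 = Polynomial.C ⟨0, -1⟩ * Polynomial.X ^ 3 := by
  unfold ev
  rw [if_neg (by omega), if_pos rfl]

lemma ev_ge (k : ℕ) : ev (k + 4) = 0 := by
  unfold ev
  rw [if_neg (by omega), if_neg (by omega)]

lemma esymm_pt (M k : ℕ) : (Finset.univ.val.map (pt (M + 3)) : Multiset (Polynomial D)).esymm (k + 1)
    = ev (k + 1) := by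
  rw [univ_map_pt]
  have e2 : (⟨1, 0⟩ : D) * ⟨-1, -1⟩ + ⟨1, 0⟩ * ⟨0, 1⟩ + ⟨-1, -1⟩ * ⟨0, 1⟩ = ⟨-1, -1⟩ := by decide
  have e3 : (⟨1, 0⟩ : D) * ⟨-1, -1⟩ * ⟨0, 1⟩ = ⟨0, -1⟩ := by decide
  have c1 : ∀ (a : Polynomial D) (s : Multiset (Polynomial D)),
      (a ::ₘ s).esymm 1 = s.esymm 1 + a := by
    intro a s; rw [esymm_cons a s 0, esymm_zero', mul_one]
  have c2 : ∀ (a : Polynomial D) (s : Multiset (Polynomial D)),
      (a ::ₘ s).esymm 2 = s.esymm 2 + a * s.esymm 1 := fun a s => esymm_cons a s 1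
  have c3 : ∀ (a : Polynomial D) (s : Multiset (Polynomial D)),
      (a ::ₘ s).esymm 3 = s.esymm 3 + a * s.esymm 2 := fun a s => esymm_cons a s 2
  have c4 : ∀ (k : ℕ) (a : Polynomial D) (s : Multiset (Polynomial D)),
      (a ::ₘ s).esymm (k + 4) = s.esymm (k + 4) + a * s.esymm (k + 3) :=
    fun k a s => esymm_cons a s (k + 3)
  have c5 : ∀ (k : ℕ) (a : Polynomial D) (s : Multiset (Polynomial D)),
      (a ::ₘ s).esymm (k + 3) = s.esymm (k + 3) + a * s.esymm (k + 2) :=
    fun k a s => esymm_cons a s (k + 2)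
  have c6 : ∀ (k : ℕ) (a : Polynomial D) (s : Multiset (Polynomial D)),
      (a ::ₘ s).esymm (k + 2) = s.esymm (k + 2) + a * s.esymm (k + 1) :=
    fun k a s => esymm_cons a s (k + 1)
  have r : ∀ n, (Multiset.replicate M (0 : Polynomial D)).esymm (n + 1) = 0 :=
    fun n => esymm_replicate_zero M n
  have r1 := r 0
  have r2 := r 1
  have r3 := r 2
  norm_num at r1 r2 r3
  match k with
  | 0 =>
    show Multiset.esymm _ 1 = ev 1
    simp only [c1, r1, ev_one]
    have : 0 + Polynomial.C (⟨0, 1⟩ : D) * Polynomial.X + Polynomial.C ⟨-1, -1⟩ * Polynomial.X +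
        Polynomial.C ⟨1, 0⟩ * Polynomial.X =
        Polynomial.C ((⟨0, 1⟩ : D) + ⟨-1, -1⟩ + ⟨1, 0⟩) * Polynomial.X := by
      simp only [Polynomial.C_add]
      ring
    have e1 : (⟨0, 1⟩ : D) + ⟨-1, -1⟩ + ⟨1, 0⟩ = 0 := by decide
    rw [this, e1, Polynomial.C_0, zero_mul]
  | 1 =>
    show Multiset.esymm _ 2 = ev 2
    simp only [c1, c2, r1, r2, ev_two]
    rw [show (Polynomial.C (⟨-1, -1⟩ : D) * Polynomial.X ^ 2) = Polynomial.C ((⟨1, 0⟩ : D) *
      ⟨-1, -1⟩ + ⟨1, 0⟩ * ⟨0, 1⟩ + ⟨-1, -1⟩ * ⟨0, 1⟩) * Polynomial.X ^ 2 by rw [e2]]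
    simp only [Polynomial.C_add, Polynomial.C_mul]
    ring
  | 2 =>
    show Multiset.esymm _ 3 = ev 3
    simp only [c1, c2, c3, r1, r2, r3, ev_three]
    rw [show (Polynomial.C (⟨0, -1⟩ : D) * Polynomial.X ^ 3) = Polynomial.C ((⟨1, 0⟩ : D) *
      ⟨-1, -1⟩ * ⟨0, 1⟩) * Polynomial.X ^ 3 by rw [e3]]
    simp only [Polynomial.C_mul]
    ring
  | k + 3 =>
    show Multiset.esymm _ (k + 4) = ev (k + 4)
    simp only [c4, c5, c6, ev_ge, r]
    ring

/-- the value of the chromatic polynomial at the special point -/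
lemma aeval_chromSym {V : Type} [Fintype V] [DecidableEq V] (T : SimpleGraph V)
    [DecidableRel T.Adj] (N : ℕ) : aeval (pt N) (chromSym T N) =
    Polynomial.C (∑ κ ∈ properCol T N, ∏ v, ofT N w3 (κ v)) * Polynomial.X ^ Fintype.card V := by
  unfold chromSym
  rw [map_sum, map_sum, Finset.sum_mul]
  refine Finset.sum_congr rfl fun κ _ => ?_
  rw [map_prod, map_prod]
  simp only [aeval_X, pt]
  rw [Finset.prod_mul_distrib, Finset.prod_const, Finset.card_univ]

/-- the linear functional extracting the coefficient -/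
noncomputable def Lam (n : ℕ) (q : Polynomial D) : ℤ := (q.coeff n).im

lemma Lam_sum (n : ℕ) {ι : Type} (s : Finset ι) (f : ι → Polynomial D) :
    Lam n (∑ i ∈ s, f i) = ∑ i ∈ s, Lam n (f i) := by
  classical
  induction s using Finset.induction_on with
  | empty => simp [Lam]
  | insert a s ha ih => 
    rw [Finset.sum_insert ha, Finset.sum_insert ha, ← ih]
    simp [Lam]

lemma Lam_int_mul (n : ℕ) (a : ℤ) (q : Polynomial D) :
    Lam n (algebraMap ℤ (Polynomial D) a * q) = a * Lam n q := by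
  have : (algebraMap ℤ (Polynomial D) a) = Polynomial.C (a : D) := by simp
  rw [this, Lam, Polynomial.coeff_C_mul, Lam]
  simp

/-- the exponent vector of `e_3 e_2^k` -/
noncomputable def d0 (M k : ℕ) : Fin (M + 3) →₀ ℕ :=
  Finsupp.equivFunOnFinite.symm fun i : Fin (M + 3) =>
    (3 ::ₘ Multiset.replicate k 2).count (i.val + 1)

lemma pow_im (k : ℕ) : ((⟨-1, -1⟩ : D) ^ k).re = (-1) ^ k := by
  induction k with
  | zero => simp
  | succ k ih => rw [pow_succ, Zsqrtd.re_mul, ih, pow_succ]; simp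

lemma Lam_monomial (M k : ℕ) (d : Fin (M + 3) →₀ ℕ) :
    Lam (3 + 2 * k) (∏ i : Fin (M + 3), ev (i + 1) ^ d i) =
      if d = d0 M k then (-1) ^ (k + 1) else 0 := by
  have i1 : (1 : ℕ) < M + 3 := by omega
  have i2 : (2 : ℕ) < M + 3 := by omega
  by_cases hA : ∃ i : Fin (M + 3), i.val ≠ 1 ∧ i.val ≠ 2 ∧ d i ≠ 0
  · obtain ⟨i, h1, h2, h3⟩ := hA
    have hz : ∏ i : Fin (M + 3), ev (i + 1) ^ d i = 0 := by
      apply Finset.prod_eq_zero (Finset.mem_univ i)
      have : ev (i.val + 1) = 0 := by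
        unfold ev
        rw [if_neg (by omega), if_neg (by omega)]
      rw [this, zero_pow h3]
    rw [hz, if_neg]
    · simp [Lam]
    · rintro rfl
      apply h3
      simp only [d0, Finsupp.equivFunOnFinite_symm_apply_apply]
      rw [Multiset.count_eq_zero]
      simp only [Multiset.mem_cons, Multiset.mem_replicate]
      omega
  · push Not at hA
    have hprod : ∏ i : Fin (M + 3), ev (i + 1) ^ d i =
        ev 2 ^ d ⟨1, i1⟩ * ev 3 ^ d ⟨2, i2⟩ := by
      have hsub : ({⟨1, i1⟩, ⟨2, i2⟩} : Finset (Fin (M + 3))) ⊆ Finset.univ :=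
        Finset.subset_univ _
      rw [← Finset.prod_subset hsub]
      · rw [Finset.prod_pair (by intro e; simpa using congrArg Fin.val e)]
      · intro i _ hi
        simp only [Finset.mem_insert, Finset.mem_singleton, not_or, Fin.ext_iff] at hi
        rw [hA i hi.1 hi.2, pow_zero]
    set a := d ⟨1, i1⟩ with ha
    set b := d ⟨2, i2⟩ with hb
    have hval : ev 2 ^ a * ev 3 ^ b =
        Polynomial.C ((⟨-1, -1⟩ : D) ^ a * (⟨0, -1⟩ : D) ^ b) * Polynomial.X ^ (2 * a + 3 * b) := by
      have e2 : ev 2 = Polynomial.C ⟨-1, -1⟩ * Polynomial.X ^ 2 := by simp [ev]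
      have e3 : ev 3 = Polynomial.C ⟨0, -1⟩ * Polynomial.X ^ 3 := by simp [ev]
      rw [e2, e3, mul_pow, mul_pow, ← pow_mul, ← pow_mul, Polynomial.C_mul, Polynomial.C_pow,
        Polynomial.C_pow, pow_add]
      ring
    rw [hprod, hval, Lam, Polynomial.coeff_C_mul, Polynomial.coeff_X_pow]
    by_cases hd : d = d0 M k
    · rw [if_pos hd]
      have ha' : a = k := by
        rw [ha, hd]
        simp only [d0, Finsupp.equivFunOnFinite_symm_apply_apply]
        rw [Multiset.count_cons_of_ne (by norm_num), Multiset.count_replicate_self]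
      have hb' : b = 1 := by
        rw [hb, hd]
        simp only [d0, Finsupp.equivFunOnFinite_symm_apply_apply]
        rw [Multiset.count_cons_self, Multiset.count_replicate, if_neg (by norm_num)]
      rw [ha', hb', if_pos (by ring), pow_one, mul_one, Zsqrtd.im_mul, pow_im]
      simp only [mul_zero, add_zero, mul_neg, mul_one]
      ring
    · rw [if_neg hd]
      by_cases hdeg : 3 + 2 * k = 2 * a + 3 * b
      · rw [if_pos hdeg, mul_one]
        rcases Nat.lt_or_ge b 2 with hb2 | hb2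
        · exfalso
          apply hd
          have hb1 : b = 1 := by omega
          have ha1 : a = k := by omega
          ext i
          simp only [d0, Finsupp.equivFunOnFinite_symm_apply_apply]
          by_cases h1 : i.val = 1
          · have : i = ⟨1, i1⟩ := Fin.ext h1
            rw [this, ← ha, ha1, Multiset.count_cons_of_ne (by norm_num),
              Multiset.count_replicate_self]
          · by_cases h2 : i.val = 2
            · have : i = ⟨2, i2⟩ := Fin.ext h2
              rw [this, ← hb, hb1, Multiset.count_cons_self, Multiset.count_replicate,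
                if_neg (by norm_num)]
            · rw [hA i h1 h2]
              symm
              rw [Multiset.count_eq_zero]
              simp only [Multiset.mem_cons, Multiset.mem_replicate]
              omega
        · obtain ⟨c, hc⟩ : ∃ c, b = 2 + c := ⟨b - 2, by omega⟩
          have h0 : (⟨0, -1⟩ : D) ^ 2 = 0 := by decide
          rw [hc, pow_add, h0]
          simp
      · rw [if_neg hdeg]
        simp

/-- The coefficient of `e_3 e_2^k` is read off from the weighted number of proper colourings with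
three colours. -/
theorem coeff_eq {V : Type} [Fintype V] [DecidableEq V] (T : SimpleGraph V)
    [DecidableRel T.Adj] (M k : ℕ) (hV : Fintype.card V = 3 + 2 * k) :
    (-1) ^ (k + 1) * (ePoly T (M + 3)).coeff (d0 M k) =
      (∑ κ ∈ properCol T (M + 3), ∏ v, ofT (M + 3) w3 (κ v)).im := by
  have h1 := congrArg (aeval (pt (M + 3))) (ePoly_spec T (M + 3))
  rw [aeval_chromSym, hV] at h1
  have h2 : aeval (pt (M + 3)) (aeval (fun i : Fin (M + 3) => esymm (Fin (M + 3)) ℤ (i + 1))
      (ePoly T (M + 3))) = aeval (fun i : Fin (M + 3) => ev (i + 1)) (ePoly T (M + 3)) := by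
    rw [← AlgHom.comp_apply, comp_aeval]
    congr 2
    funext i
    rw [aeval_esymm_eq_multiset_esymm, esymm_pt]
  rw [h2, aeval_def, eval₂_eq'] at h1
  have h3 := congrArg (Lam (3 + 2 * k)) h1
  rw [Lam_sum] at h3
  simp only [Lam_int_mul, Lam_monomial] at h3
  have h4 : Lam (3 + 2 * k) (Polynomial.C (∑ κ ∈ properCol T (M + 3), ∏ v,
      ofT (M + 3) w3 (κ v)) * Polynomial.X ^ (3 + 2 * k)) =
      (∑ κ ∈ properCol T (M + 3), ∏ v, ofT (M + 3) w3 (κ v)).im := by
    rw [Lam, Polynomial.coeff_C_mul, Polynomial.coeff_X_pow, if_pos rfl, mul_one]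
  rw [h4] at h3
  rw [← h3]
  simp only [mul_ite, mul_zero]
  rw [Finset.sum_ite_eq' (ePoly T (M + 3)).support (d0 M k)]
  split_ifs with h
  · ring
  · rw [notMem_support_iff.mp h]; ring

end Pool.Agent.V1131.ChromE
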