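import Mathlib

/-!
# Near-step maps of the line commuting with the translation by one
-/

set_option autoImplicit false

namespace Pool.Agent.V1131.HR

open Set MeasureTheory intervalIntegral

/-- Near-step maps: strictly increasing, Lipschitz, commuting with the translation by one, and nearly
constant on `[δ, 1 - δ]`. -/
theorem exists_step (δ ε : ℝ) (hδ : 0 < δ) (hδ2 : δ < 1 / 2) (hε : 0 < ε) :
    ∃ (s : ℝ → ℝ) (C : ℝ), 1 ≤ C ∧ StrictMono s ∧ (∀ x, s (x + 1) = s x + 1) ∧ s 0 = 0 ∧
      (∀ x y, |s x - s y| ≤ C * |x - y|) ∧ s (1 - δ) - s δ ≤ ε := by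
  have hpi := Real.pi_pos
  set b : ℝ → ℝ := fun t => max 0 (Real.cos (2 * Real.pi * t) - Real.cos (2 * Real.pi * δ)) with hb
  have hbc : Continuous b := by fun_prop
  have hb0 : ∀ t, 0 ≤ b t := fun t => le_max_left _ _
  have hb2 : ∀ t, b t ≤ 2 := by
    intro t
    have h1 := Real.cos_le_one (2 * Real.pi * t)
    have h2 := Real.neg_one_le_cos (2 * Real.pi * δ)
    exact max_le (by norm_num) (by linarith)
  have hbp : ∀ t, b (t + 1) = b t := by
    intro t
    have : 2 * Real.pi * (t + 1) = 2 * Real.pi * t + 2 * Real.pi := by ring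
    simp only [hb, this, Real.cos_add_two_pi]
  have hbz : ∀ t, δ ≤ t → t ≤ 1 - δ → b t = 0 := by
    intro t h1 h2
    apply max_eq_left
    rw [sub_nonpos]
    rcases le_total t (1 / 2) with h | h
    · apply Real.cos_le_cos_of_nonneg_of_le_pi
      · positivity
      · nlinarith
      · nlinarith
    · have h3 : Real.cos (2 * Real.pi * t) = Real.cos (2 * Real.pi * (1 - t)) := by
        have : 2 * Real.pi * (1 - t) = 2 * Real.pi - 2 * Real.pi * t := by ring
        rw [this, Real.cos_two_pi_sub]
      rw [h3]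
      apply Real.cos_le_cos_of_nonneg_of_le_pi
      · positivity
      · nlinarith
      · nlinarith
  have hI : 0 < ∫ t in (0 : ℝ)..1, b t := by
    apply intervalIntegral.integral_pos one_pos hbc.continuousOn (fun x _ => hb0 x)
    refine ⟨0, by simp, ?_⟩
    apply lt_max_of_lt_right
    rw [mul_zero, Real.cos_zero, sub_pos]
    have h1 : Real.cos (2 * Real.pi * δ) < Real.cos 0 := by
      apply Real.cos_lt_cos_of_nonneg_of_le_pi le_rfl
      · nlinarith
      · positivity
    rwa [Real.cos_zero] at h1
  set I := ∫ t in (0 : ℝ)..1, b t with hIdef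
  set l : ℝ := ε * I with hl
  have hl0 : 0 < l := by positivity
  set w : ℝ → ℝ := fun t => (l + b t) / (l + I) with hw
  have hwc : Continuous w := by fun_prop
  have hw0 : ∀ t, 0 < w t := fun t => by
    have := hb0 t
    simp only [hw]
    positivity
  have hwp : Function.Periodic w 1 := by
    intro t
    simp only [hw, hbp]
  have hwi : ∀ a c : ℝ, IntervalIntegrable w volume a c := fun a c => hwc.intervalIntegrable a c
  have hw1 : ∫ t in (0 : ℝ)..1, w t = 1 := by
    simp only [hw]
    rw [intervalIntegral.integral_div, intervalIntegral.integral_add]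
    · simp only [intervalIntegral.integral_const, sub_zero, one_smul]
      rw [← hIdef]
      field_simp
    · exact intervalIntegrable_const
    · exact hbc.intervalIntegrable _ _
  set C : ℝ := max 1 ((l + 2) / (l + I)) with hC
  have hwC : ∀ t, w t ≤ C := by
    intro t
    refine le_trans ?_ (le_max_right _ _)
    simp only [hw]
    gcongr
    exact hb2 t
  refine ⟨fun x => ∫ t in (0 : ℝ)..x, w t, C, le_max_left _ _, ?_, ?_, by simp, ?_, ?_⟩
  · intro x y hxy
    have h1 : (∫ t in (0 : ℝ)..y, w t) - ∫ t in (0 : ℝ)..x, w t = ∫ t in x..y, w t :=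
      intervalIntegral.integral_interval_sub_left (hwi _ _) (hwi _ _)
    have h2 : 0 < ∫ t in x..y, w t :=
      intervalIntegral.intervalIntegral_pos_of_pos (hwi _ _) hw0 hxy
    simp only
    linarith
  · intro x
    have h1 : (∫ t in (0 : ℝ)..(x + 1), w t) - ∫ t in (0 : ℝ)..x, w t = ∫ t in x..(x + 1), w t :=
      intervalIntegral.integral_interval_sub_left (hwi _ _) (hwi _ _)
    have h2 : ∫ t in x..(x + 1), w t = ∫ t in (0 : ℝ)..(0 + 1), w t :=
      hwp.intervalIntegral_add_eq x 0
    rw [zero_add, hw1] at h2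
    simp only
    linarith
  · intro x y
    have h1 : (∫ t in (0 : ℝ)..x, w t) - ∫ t in (0 : ℝ)..y, w t = ∫ t in y..x, w t :=
      intervalIntegral.integral_interval_sub_left (hwi _ _) (hwi _ _)
    simp only
    rw [h1, ← Real.norm_eq_abs]
    refine (intervalIntegral.norm_integral_le_of_norm_le_const (C := C) ?_)
    intro t _
    rw [Real.norm_eq_abs, abs_of_pos (hw0 t)]
    exact hwC t
  · have h1 : (∫ t in (0 : ℝ)..(1 - δ), w t) - ∫ t in (0 : ℝ)..δ, w t = ∫ t in δ..(1 - δ), w t :=
      intervalIntegral.integral_interval_sub_left (hwi _ _) (hwi _ _)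
    simp only
    rw [h1]
    have h2 : ∫ t in δ..(1 - δ), w t ≤ ∫ _t in δ..(1 - δ), ε := by
      apply intervalIntegral.integral_mono_on (by linarith) (hwi _ _) intervalIntegrable_const
      intro t ht
      simp only [hw, hbz t ht.1 ht.2, add_zero]
      rw [div_le_iff₀ (by positivity)]
      rw [hl]
      nlinarith [mul_pos hε (mul_pos hε hI)]
    refine h2.trans ?_
    rw [intervalIntegral.integral_const, smul_eq_mul]
    nlinarith

end Pool.Agent.V1131.HR
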