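import Pool.Agent.V1131.HR1

/-!
# Counting: most near-step maps followed by a fixed map have periodic points
-/

set_option autoImplicit false

namespace Pool.Agent.V1131.HR

open Set

/-- continuous, strictly increasing, commuting with the translation by one -/
structure Lft (F : ℝ → ℝ) : Prop where
  cont : Continuous F
  mono : StrictMono F
  add_one : ∀ x, F (x + 1) = F x + 1

theorem Lft.add_int {F : ℝ → ℝ} (h : Lft F) (x : ℝ) (n : ℤ) : F (x + n) = F x + n := by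
  let G : CircleDeg1Lift := ⟨⟨F, h.mono.monotone⟩, h.add_one⟩
  exact G.map_add_int x n

theorem Lft.comp {F G : ℝ → ℝ} (hF : Lft F) (hG : Lft G) : Lft (F ∘ G) :=
  ⟨hF.cont.comp hG.cont, hF.mono.comp hG.mono, fun x => by simp [hG.add_one, hF.add_one]⟩

/-- `Q` has a point which is periodic modulo one -/
def HasPer (Q : ℝ → ℝ) : Prop := ∃ (q : ℕ) (p : ℤ) (z : ℝ), 0 < q ∧ Q^[q] z = z + p

/-- the near-step map with `K` steps, shifted by the parameters -/
noncomputable def step (s : ℝ → ℝ) (K M : ℕ) (p : ℕ × ℕ) (x : ℝ) : ℝ :=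
  s (K * (x - ((p.2 % M : ℕ) : ℝ) / (K * M))) / K + ((p.1 % M : ℕ) : ℝ) / (K * M)

/-- properties of the profile `s` used below -/
structure Prof (s : ℝ → ℝ) (M : ℕ) (C : ℝ) : Prop where
  one_le : 1 ≤ C
  mono : StrictMono s
  add_one : ∀ x, s (x + 1) = s x + 1
  zero : s 0 = 0
  lip : ∀ x y, |s x - s y| ≤ C * |x - y|
  flat : s (1 - 1 / (4 * M)) - s (1 / (4 * M)) ≤ 1 / (2 * M)

theorem exists_prof (M : ℕ) (hM : 0 < M) : ∃ (s : ℝ → ℝ) (C : ℝ), Prof s M C := by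
  have hM' : (1 : ℝ) ≤ M := by exact_mod_cast hM
  obtain ⟨s, C, h1, h2, h3, h4, h5, h6⟩ := exists_step (1 / (4 * M)) (1 / (2 * M)) (by positivity)
    (by rw [div_lt_div_iff₀ (by positivity) (by norm_num)]; linarith) (by positivity)
  exact ⟨s, C, h1, h2, h3, h4, h5, h6⟩

theorem Prof.cont {s : ℝ → ℝ} {M : ℕ} {C : ℝ} (h : Prof s M C) : Continuous s := by
  have : LipschitzWith (Real.toNNReal C) s := by
    apply LipschitzWith.of_dist_le_mul
    intro x y
    rw [Real.coe_toNNReal C (by linarith [h.one_le]), Real.dist_eq, Real.dist_eq]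
    exact h.lip x y
  exact this.continuous

theorem Prof.lft {s : ℝ → ℝ} {M : ℕ} {C : ℝ} (h : Prof s M C) : Lft s := ⟨h.cont, h.mono, h.add_one⟩

theorem step_lft {s : ℝ → ℝ} {K M : ℕ} {C : ℝ} (h : Prof s M C) (hK : 0 < K) (p : ℕ × ℕ) :
    Lft (step s K M p) := by
  have hK' : (0 : ℝ) < K := by exact_mod_cast hK
  refine ⟨?_, ?_, ?_⟩
  · unfold step
    have := h.cont
    fun_prop
  · intro x y hxy
    unfold step
    have h1 : (K : ℝ) * (x - ((p.2 % M : ℕ) : ℝ) / (K * M)) <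
        K * (y - ((p.2 % M : ℕ) : ℝ) / (K * M)) := by
      apply mul_lt_mul_of_pos_left _ hK'
      linarith
    have h2 := h.mono h1
    have h3 := div_lt_div_of_pos_right h2 hK'
    linarith
  · intro x
    unfold step
    have h1 : (K : ℝ) * (x + 1 - ((p.2 % M : ℕ) : ℝ) / (K * M)) =
        K * (x - ((p.2 % M : ℕ) : ℝ) / (K * M)) + ((K : ℤ) : ℝ) := by
      push_cast
      ring
    rw [h1, h.lft.add_int]
    push_cast
    field_simp
    ring

theorem step_lip {s : ℝ → ℝ} {K M : ℕ} {C : ℝ} (h : Prof s M C) (hK : 0 < K) (p : ℕ × ℕ) (x y : ℝ) :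
    |step s K M p x - step s K M p y| ≤ C * |x - y| := by
  have hK' : (0 : ℝ) < K := by exact_mod_cast hK
  unfold step
  have h1 := h.lip (K * (x - ((p.2 % M : ℕ) : ℝ) / (K * M))) (K * (y - ((p.2 % M : ℕ) : ℝ) / (K * M)))
  have h2 : (K : ℝ) * (x - ((p.2 % M : ℕ) : ℝ) / (K * M)) -
    K * (y - ((p.2 % M : ℕ) : ℝ) / (K * M)) = K * (x - y) := by ring
  rw [h2, abs_mul, abs_of_pos hK'] at h1
  have h3 : ∀ a b c : ℝ, a / K + c - (b / K + c) = (a - b) / K := by
    intro a b c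
    ring
  rw [h3, abs_div, abs_of_pos hK', div_le_iff₀ hK']
  linarith

theorem Prof.near {s : ℝ → ℝ} {M : ℕ} {C : ℝ} (h : Prof s M C) (x : ℝ) : |s x - x| ≤ 1 := by
  have h1 : s (⌊x⌋ : ℝ) = ⌊x⌋ := by
    have := h.lft.add_int 0 ⌊x⌋
    rwa [zero_add, h.zero, zero_add] at this
  have h2 : s ((⌊x⌋ : ℝ) + 1) = ⌊x⌋ + 1 := by rw [h.add_one, h1]
  have h3 := h.mono.monotone (Int.floor_le x)
  have h4 := h.mono.monotone (Int.lt_floor_add_one x).le
  rw [h1] at h3
  rw [h2] at h4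
  have h5 := Int.floor_le x
  have h6 := Int.lt_floor_add_one x
  rw [abs_le]
  constructor <;> linarith

theorem shift_bd (K M k : ℕ) (hK : 0 < K) (hM : 0 < M) :
    0 ≤ ((k % M : ℕ) : ℝ) / (K * M) ∧ ((k % M : ℕ) : ℝ) / (K * M) ≤ 1 / K := by
  have hK' : (0 : ℝ) < K := by exact_mod_cast hK
  have hM' : (0 : ℝ) < M := by exact_mod_cast hM
  have h1 : ((k % M : ℕ) : ℝ) ≤ M := by exact_mod_cast (Nat.mod_lt k hM).le
  refine ⟨by positivity, ?_⟩
  rw [div_le_div_iff₀ (by positivity) hK']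
  nlinarith

theorem step_near {s : ℝ → ℝ} {K M : ℕ} {C : ℝ} (h : Prof s M C) (hK : 0 < K) (hM : 0 < M)
    (p : ℕ × ℕ) (x : ℝ) : |step s K M p x - x| ≤ 2 / K := by
  have hK' : (0 : ℝ) < K := by exact_mod_cast hK
  obtain ⟨h1, h2⟩ := shift_bd K M p.1 hK hM
  obtain ⟨h3, h4⟩ := shift_bd K M p.2 hK hM
  unfold step
  set u := ((p.2 % M : ℕ) : ℝ) / (K * M)
  set v := ((p.1 % M : ℕ) : ℝ) / (K * M)
  have h5 := h.near (K * (x - u))
  have h6 : |s (K * (x - u)) / K - (x - u)| ≤ 1 / K := by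
    have : s (K * (x - u)) / K - (x - u) = (s (K * (x - u)) - K * (x - u)) / K := by
      field_simp
    rw [this, abs_div, abs_of_pos hK']
    gcongr
  have h7 : (2 : ℝ) / K = 1 / K + 1 / K := by ring
  rw [abs_le] at h6 ⊢
  rw [h7]
  constructor <;> linarith [h6.1, h6.2]

end Pool.Agent.V1131.HR
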