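import Pool.Agent.V1131.HR2

/-!
# Counting: most near-step maps followed by a fixed map have periodic points, second part
-/

set_option autoImplicit false

namespace Pool.Agent.V1131.HR

open Set

/-- left end of the small interval with index `m` -/
noncomputable def eA (s : ℝ → ℝ) (K M : ℕ) (m : ℤ) : ℝ := m / (K * M) + s (1 / (4 * M)) / K
/-- right end of the small interval with index `m` -/
noncomputable def eB (s : ℝ → ℝ) (K M : ℕ) (m : ℤ) : ℝ := m / (K * M) + s (1 - 1 / (4 * M)) / K
/-- left end of the gate with index `n` -/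
noncomputable def gA (K M : ℕ) (n : ℤ) : ℝ := n / (K * M) - 1 / (4 * M) / K
/-- right end of the gate with index `n` -/
noncomputable def gB (K M : ℕ) (n : ℤ) : ℝ := n / (K * M) + 1 / (4 * M) / K

/-- the image of the small interval meets the gate -/
def Inc (s : ℝ → ℝ) (K M : ℕ) (F : ℝ → ℝ) (m n : ℤ) : Prop :=
  F (eA s K M m) < gB K M n ∧ gA K M n < F (eB s K M m)

variable {s : ℝ → ℝ} {K M : ℕ} {C : ℝ} {F : ℝ → ℝ}

theorem eB_le (h : Prof s M C) (hK : 0 < K) (hM : 0 < M) {m m' : ℤ} (hm : m < m') :
    eB s K M m ≤ eA s K M m' := by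
  have hK' : (0 : ℝ) < K := by exact_mod_cast hK
  have hM' : (0 : ℝ) < M := by exact_mod_cast hM
  have h1 : (m : ℝ) + 1 ≤ m' := by exact_mod_cast hm
  have h2 := h.flat
  unfold eB eA
  have h3 : s (1 - 1 / (4 * M)) / K - s (1 / (4 * M)) / K ≤ 1 / (K * M) := by
    rw [← sub_div, div_le_div_iff₀ hK' (by positivity)]
    have h4 : (1 : ℝ) / (2 * M) * M = 1 / 2 := by field_simp
    have h5 : (s (1 - 1 / (4 * M)) - s (1 / (4 * M))) * M ≤ 1 / (2 * M) * M :=
      mul_le_mul_of_nonneg_right h2 hM'.le
    rw [h4] at h5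
    nlinarith
  have h4 : (m' : ℝ) / (K * M) - m / (K * M) ≥ 1 / (K * M) := by
    rw [← sub_div, ge_iff_le]
    gcongr
    linarith
  linarith

theorem gB_le (hK : 0 < K) (hM : 0 < M) {n n' : ℤ} (hn : n < n') :
    gB K M n ≤ gA K M n' := by
  have hK' : (0 : ℝ) < K := by exact_mod_cast hK
  have hM' : (0 : ℝ) < M := by exact_mod_cast hM
  have h1 : (n : ℝ) + 1 ≤ n' := by exact_mod_cast hn
  unfold gB gA
  have h4 : (n' : ℝ) / (K * M) - n / (K * M) ≥ 1 / (K * M) := by
    rw [← sub_div, ge_iff_le]
    gcongr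
    linarith
  have h5 : (1 : ℝ) / (4 * M) / K + 1 / (4 * M) / K ≤ 1 / (K * M) := by
    have : (1 : ℝ) / (4 * M) / K + 1 / (4 * M) / K = (1 / 2) / (K * M) := by
      field_simp
      norm_num
    rw [this]
    gcongr
    norm_num
  linarith

theorem shiftA (hK : 0 < K) (hM : 0 < M) (m t : ℤ) :
    eA s K M (m + t * (K * M)) = eA s K M m + t := by
  have hK' : (0 : ℝ) < K := by exact_mod_cast hK
  have hM' : (0 : ℝ) < M := by exact_mod_cast hM
  unfold eA
  push_cast
  field_simp
  ring

theorem shiftB (hK : 0 < K) (hM : 0 < M) (m t : ℤ) :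
    eB s K M (m + t * (K * M)) = eB s K M m + t := by
  have hK' : (0 : ℝ) < K := by exact_mod_cast hK
  have hM' : (0 : ℝ) < M := by exact_mod_cast hM
  unfold eB
  push_cast
  field_simp
  ring

theorem shiftgA (hK : 0 < K) (hM : 0 < M) (m t : ℤ) :
    gA K M (m + t * (K * M)) = gA K M m + t := by
  have hK' : (0 : ℝ) < K := by exact_mod_cast hK
  have hM' : (0 : ℝ) < M := by exact_mod_cast hM
  unfold gA
  push_cast
  field_simp
  ring

theorem shiftgB (hK : 0 < K) (hM : 0 < M) (m t : ℤ) :
    gB K M (m + t * (K * M)) = gB K M m + t := by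
  have hK' : (0 : ℝ) < K := by exact_mod_cast hK
  have hM' : (0 : ℝ) < M := by exact_mod_cast hM
  unfold gB
  push_cast
  field_simp
  ring

theorem Inc.shift (hK : 0 < K) (hM : 0 < M) (hF : Lft F) {m n : ℤ} (h : Inc s K M F m n) (t : ℤ) :
    Inc s K M F (m + t * (K * M)) (n + t * (K * M)) := by
  unfold Inc at *
  rw [shiftA hK hM, shiftB hK hM, shiftgA hK hM, shiftgB hK hM, hF.add_int, hF.add_int]
  exact ⟨by linarith [h.1], by linarith [h.2]⟩

/-- if no gate is met, the small interval is mapped into a small interval -/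
theorem mapsTo_of_good (h : Prof s M C) (hK : 0 < K) (hM : 0 < M) (hF : Lft F) (p : ℕ × ℕ)
    (hgood : ∀ m n : ℤ, m % M = (p.1 % M : ℕ) → n % M = (p.2 % M : ℕ) → ¬ Inc s K M F m n) (i : ℤ) :
    ∃ a : ℤ, MapsTo (step s K M p ∘ F)
      (Icc (eA s K M (i * M + (p.1 % M : ℕ))) (eB s K M (i * M + (p.1 % M : ℕ))))
      (Icc (eA s K M (a * M + (p.1 % M : ℕ))) (eB s K M (a * M + (p.1 % M : ℕ)))) := by
  have hK' : (0 : ℝ) < K := by exact_mod_cast hK
  have hM' : (0 : ℝ) < M := by exact_mod_cast hM
  set j : ℕ := p.1 % M with hj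
  set l : ℕ := p.2 % M with hl
  have hjM : j < M := Nat.mod_lt _ hM
  have hlM : l < M := Nat.mod_lt _ hM
  set m : ℤ := i * M + j with hm
  set y : ℝ := K * (F (eA s K M m) - l / (K * M)) with hy
  set a : ℤ := ⌊y - 1 / (4 * M)⌋ with ha
  have ha1 := Int.floor_le (y - 1 / (4 * M))
  have ha2 := Int.lt_floor_add_one (y - 1 / (4 * M))
  rw [← ha] at ha1 ha2
  have hmod1 : m % M = (j : ℕ) := by
    rw [hm, add_comm, Int.add_mul_emod_self_right]
    exact Int.emod_eq_of_lt (by positivity) (by exact_mod_cast hjM)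
  have hmod2 : ((a + 1) * M + l : ℤ) % M = (l : ℕ) := by
    rw [add_comm, Int.add_mul_emod_self_right]
    exact Int.emod_eq_of_lt (by positivity) (by exact_mod_cast hlM)
  have hn := hgood m ((a + 1) * M + l) hmod1 hmod2
  have h1 : F (eA s K M m) < gB K M ((a + 1) * M + l) := by
    have h2 : F (eA s K M m) = y / K + l / (K * M) := by
      rw [hy]
      field_simp
      ring
    rw [h2]
    unfold gB
    push_cast
    have h3 : ((a : ℝ) + 1) * M + l = (a + 1) * M + l := rfl
    have h4 : (((a : ℝ) + 1) * M + l) / (K * M) = (a + 1) / K + l / (K * M) := by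
      field_simp
    rw [h4]
    have h5 : y / K < (a + 1 + 1 / (4 * M)) / K := by
      gcongr
      linarith
    have h6 : ((a : ℝ) + 1 + 1 / (4 * M)) / K = (a + 1) / K + 1 / (4 * M) / K := by ring
    rw [h6] at h5
    linarith
  have h2 : F (eB s K M m) ≤ gA K M ((a + 1) * M + l) := by
    by_contra hcon
    exact hn ⟨h1, not_le.1 hcon⟩
  refine ⟨a, ?_⟩
  intro x hx
  have h3 : F (eA s K M m) ≤ F x := hF.mono.monotone hx.1
  have h4 : F x ≤ gA K M ((a + 1) * M + l) := (hF.mono.monotone hx.2).trans h2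
  have h5 : (a : ℝ) + 1 / (4 * M) ≤ K * (F x - l / (K * M)) := by
    have : y ≤ K * (F x - l / (K * M)) := by
      rw [hy]
      gcongr
    linarith
  have h6 : K * (F x - l / (K * M)) ≤ a + (1 - 1 / (4 * M)) := by
    have h7 : K * (F x - l / (K * M)) ≤ K * (gA K M ((a + 1) * M + l) - l / (K * M)) := by
      gcongr
    refine h7.trans (le_of_eq ?_)
    unfold gA
    push_cast
    field_simp
    ring
  have hs : ∀ c : ℝ, s ((a : ℝ) + c) = s c + a := by
    intro c
    rw [add_comm, h.lft.add_int]
  have h8 := h.mono.monotone h5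
  have h9 := h.mono.monotone h6
  rw [hs] at h8 h9
  constructor
  · show eA s K M (a * M + j) ≤ step s K M p (F x)
    unfold eA step
    rw [← hl, ← hj]
    have h10 : (s (1 / (4 * M)) + a) / K ≤ s (K * (F x - (l : ℝ) / (K * M))) / K := by gcongr
    push_cast
    have h11 : ((a : ℝ) * M + j) / (K * M) + s (1 / (4 * M)) / K =
      (s (1 / (4 * M)) + a) / K + j / (K * M) := by
      field_simp
      ring
    rw [h11]
    linarith
  · show step s K M p (F x) ≤ eB s K M (a * M + j)
    unfold eB step
    rw [← hl, ← hj]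
    have h10 : s (K * (F x - (l : ℝ) / (K * M))) / K ≤ (s (1 - 1 / (4 * M)) + a) / K := by gcongr
    push_cast
    have h11 : ((a : ℝ) * M + j) / (K * M) + s (1 - 1 / (4 * M)) / K =
      (s (1 - 1 / (4 * M)) + a) / K + j / (K * M) := by
      field_simp
      ring
    rw [h11]
    linarith

theorem hasPer_of_good (h : Prof s M C) (hK : 0 < K) (hM : 0 < M) (hF : Lft F) (p : ℕ × ℕ)
    (hgood : ∀ m n : ℤ, m % M = (p.1 % M : ℕ) → n % M = (p.2 % M : ℕ) → ¬ Inc s K M F m n) :
    HasPer (step s K M p ∘ F) := by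
  set Q := step s K M p ∘ F with hQ
  have hQl : Lft Q := (step_lft h hK p).comp hF
  choose σ hσ using mapsTo_of_good h hK hM hF p hgood
  set J : ℤ → Set ℝ := fun i => Icc (eA s K M (i * M + (p.1 % M : ℕ)))
    (eB s K M (i * M + (p.1 % M : ℕ))) with hJ
  have hit : ∀ (n : ℕ) (i : ℤ), MapsTo Q^[n] (J i) (J (σ^[n] i)) := by
    intro n
    induction n with
    | zero => intro i x hx; exact hx
    | succ n ih =>
      intro i
      rw [Function.iterate_succ, Function.iterate_succ]
      exact (ih (σ i)).comp (hσ i)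
  have : NeZero K := ⟨hK.ne'⟩
  obtain ⟨a, b, hab, heq⟩ := Finite.exists_ne_map_eq_of_infinite
    (fun n : ℕ => ((σ^[n] 0 : ℤ) : ZMod K))
  wlog hlt : a < b generalizing a b
  · exact this b a hab.symm heq.symm (lt_of_le_of_ne (not_lt.1 hlt) hab.symm)
  rw [ZMod.intCast_eq_intCast_iff_dvd_sub] at heq
  obtain ⟨t, ht⟩ := heq
  set i := σ^[a] 0 with hi
  have h1 : σ^[b - a] i = i + t * K := by
    rw [hi, ← Function.iterate_add_apply, Nat.sub_add_cancel hlt.le]
    linarith [mul_comm (K : ℤ) t]
  have h2 := hit (b - a) i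
  rw [h1] at h2
  have h3 : ∀ x ∈ J (i + t * K), x - t ∈ J i := by
    intro x hx
    simp only [hJ, mem_Icc] at hx ⊢
    have h4 : (i + t * K) * M + ((p.1 % M : ℕ) : ℤ) = (i * M + ((p.1 % M : ℕ) : ℤ)) + t * (K * M) := by
      ring
    rw [h4, shiftA hK hM, shiftB hK hM] at hx
    exact ⟨by linarith [hx.1], by linarith [hx.2]⟩
  have hle : eA s K M (i * M + (p.1 % M : ℕ)) ≤ eB s K M (i * M + (p.1 % M : ℕ)) := by
    unfold eA eB
    have hM' : (1 : ℝ) ≤ M := by exact_mod_cast hM
    have : s (1 / (4 * M)) ≤ s (1 - 1 / (4 * M)) := by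
      apply h.mono.monotone
      have : (1 : ℝ) / (4 * M) ≤ 1 / 4 := by
        gcongr
        linarith
      linarith
    gcongr
  have hc : Continuous Q^[b - a] := hQl.cont.iterate _
  obtain ⟨z, hz, hfix⟩ := exists_mem_Icc_isFixedPt_of_mapsTo (f := fun x => Q^[b - a] x - t)
    (by fun_prop) hle (fun x hx => h3 _ (h2 hx))
  refine ⟨b - a, t, z, by omega, ?_⟩
  have : Q^[b - a] z - t = z := hfix
  linarith

open Classical in
/-- the number of bad parameters is at most `2 K M` -/
theorem card_bad (h : Prof s M C) (hK : 0 < K) (hM : 0 < M) (hF : Lft F) :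
    ((Finset.range M ×ˢ Finset.range M).filter
      (fun p => ¬ HasPer (step s K M p ∘ F))).card ≤ 2 * (K * M) := by
  have hKM : (0 : ℤ) < K * M := by positivity
  have key : ∀ p ∈ (Finset.range M ×ˢ Finset.range M).filter
      (fun p => ¬ HasPer (step s K M p ∘ F)),
      ∃ m n : ℤ, 0 ≤ m ∧ m < K * M ∧ m % M = p.1 ∧ n % M = p.2 ∧ Inc s K M F m n := by
    intro p hp
    rw [Finset.mem_filter, Finset.mem_product, Finset.mem_range, Finset.mem_range] at hp
    obtain ⟨⟨hp1, hp2⟩, hp3⟩ := hp
    by_contra hcon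
    apply hp3
    apply hasPer_of_good h hK hM hF
    intro m n hm hn hinc
    rw [Nat.mod_eq_of_lt hp1] at hm
    rw [Nat.mod_eq_of_lt hp2] at hn
    apply hcon
    refine ⟨m % (K * M), n + (-(m / (K * M))) * (K * M), Int.emod_nonneg _ hKM.ne',
      Int.emod_lt_of_pos _ hKM, ?_, ?_, ?_⟩
    · rw [Int.emod_emod_of_dvd m (Dvd.intro_left _ rfl), hm]
    · rw [← hn, ← mul_assoc, Int.add_mul_emod_self_right]
    · have h1 := hinc.shift hK hM hF (-(m / (K * M)))
      have h2 : m + (-(m / (K * M))) * (K * M) = m % (K * M) := by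
        have := Int.emod_add_mul_ediv m (K * M)
        linarith [mul_comm ((K : ℤ) * M) (m / (K * M))]
      rwa [h2] at h1
  choose! m n hm0 hm1 hmm hnn hinc using key
  set T : Finset (ℕ ⊕ ℕ) := (Finset.range (K * M)).disjSum (Finset.range (K * M)) with hT
  have hTc : T.card = 2 * (K * M) := by
    rw [hT, Finset.card_disjSum, Finset.card_range]
    ring
  rw [← hTc]
  apply Finset.card_le_card_of_injOn (fun p => if gA K M (n p) ≤ F (eA s K M (m p)) then
    Sum.inl (m p).toNat else Sum.inr ((n p) % (K * M)).toNat)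
  · intro p hp
    have hp' := Finset.mem_coe.1 hp
    simp only
    split_ifs
    · simp only [hT, Finset.mem_coe, Finset.inl_mem_disjSum, Finset.mem_range]
      have h1 := hm0 p hp'
      have h2 := hm1 p hp'
      have : ((m p).toNat : ℤ) < ((K * M : ℕ) : ℤ) := by
        rw [Int.toNat_of_nonneg h1]
        push_cast
        exact h2
      exact_mod_cast this
    · simp only [hT, Finset.mem_coe, Finset.inr_mem_disjSum, Finset.mem_range]
      have h1 := Int.emod_nonneg (n p) hKM.ne'
      have h2 := Int.emod_lt_of_pos (n p) hKM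
      have : (((n p) % (K * M)).toNat : ℤ) < ((K * M : ℕ) : ℤ) := by
        rw [Int.toNat_of_nonneg h1]
        push_cast
        exact h2
      exact_mod_cast this
  · intro p hp p' hp' heq
    have hp1 := Finset.mem_coe.1 hp
    have hp2 := Finset.mem_coe.1 hp'
    have fin : m p = m p' → n p = n p' → p = p' := by
      intro h1 h2
      have h3 := hmm p hp1
      have h4 := hmm p' hp2
      have h5 := hnn p hp1
      have h6 := hnn p' hp2
      rw [h1, h4] at h3
      rw [h2, h6] at h5
      have h7 : p.1 = p'.1 := by exact_mod_cast h3.symm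
      have h8 : p.2 = p'.2 := by exact_mod_cast h5.symm
      exact Prod.ext h7 h8
    simp only at heq
    split_ifs at heq with c1 c2 c2
    · have h1 : m p = m p' := by
        have h2 : (m p).toNat = (m p').toNat := Sum.inl.inj heq
        have h3 := hm0 p hp1
        have h4 := hm0 p' hp2
        omega
      refine fin h1 ?_
      have i1 := (hinc p hp1).1
      have i2 := (hinc p' hp2).1
      rw [h1] at c1 i1
      rcases lt_trichotomy (n p) (n p') with hlt | he | hlt
      · have := gB_le hK hM hlt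
        linarith
      · exact he
      · have := gB_le hK hM hlt
        linarith
    · have h0 : (n p) % (K * M) = (n p') % (K * M) := by
        have h2 : ((n p) % (K * M)).toNat = ((n p') % (K * M)).toNat := Sum.inr.inj heq
        have h3 := Int.emod_nonneg (n p) hKM.ne'
        have h4 := Int.emod_nonneg (n p') hKM.ne'
        omega
      have hdvd : ((K * M : ℤ)) ∣ n p' - n p := Int.ModEq.dvd h0
      obtain ⟨t, ht⟩ := hdvd
      have hn' : n p' = n p + t * (K * M) := by linarith [mul_comm ((K : ℤ) * M) t]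
      push Not at c1 c2
      have i1 := (hinc p hp1).2
      have i2 := (hinc p' hp2).2
      have hmeq : m p = m p' + (-t) * (K * M) := by
        rw [hn', shiftgA hK hM] at c2 i2
        have j1 : F (eA s K M (m p' + (-t) * (K * M))) < gA K M (n p) := by
          rw [shiftA hK hM, hF.add_int]
          push_cast
          linarith
        have j2 : gA K M (n p) < F (eB s K M (m p' + (-t) * (K * M))) := by
          rw [shiftB hK hM, hF.add_int]
          push_cast
          linarith
        rcases lt_trichotomy (m p) (m p' + (-t) * (K * M)) with hlt | he | hlt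
        · have := hF.mono.monotone (eB_le (s := s) h hK hM hlt)
          linarith
        · exact he
        · have := hF.mono.monotone (eB_le (s := s) h hK hM hlt)
          linarith
      have h1 := hm0 p hp1
      have h2 := hm1 p hp1
      have h3 := hm0 p' hp2
      have h4 := hm1 p' hp2
      have ht0 : t = 0 := by
        rcases lt_trichotomy t 0 with hlt | he | hlt
        · exfalso
          have : (K * M : ℤ) ≤ (-t) * (K * M) := by
            have : (1 : ℤ) ≤ -t := by omega
            nlinarith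
          linarith
        · exact he
        · exfalso
          have : (-t) * (K * M) ≤ -(K * M : ℤ) := by
            have : (1 : ℤ) ≤ t := by omega
            nlinarith
          linarith
      subst ht0
      refine fin ?_ ?_
      · rw [hmeq]; ring
      · rw [hn']; ring

end Pool.Agent.V1131.HR
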