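import Pool.Agent.V1131.HR3

/-!
# Infinite compositions of random near-step maps
-/

set_option autoImplicit false

namespace Pool.Agent.V1131.HR

open Set Filter Topology MeasureTheory

/-! ### inverses -/

theorem Lft.surj {F : ℝ → ℝ} (h : Lft F) : Function.Surjective F := by
  let G : CircleDeg1Lift := ⟨⟨F, h.mono.monotone⟩, h.add_one⟩
  exact G.continuous_iff_surjective.1 h.cont

/-- the inverse -/
noncomputable def nv (F : ℝ → ℝ) : ℝ → ℝ := Function.invFun F

theorem Lft.nv_left {F : ℝ → ℝ} (h : Lft F) (x : ℝ) : nv F (F x) = x :=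
  Function.leftInverse_invFun h.mono.injective x

theorem Lft.nv_right {F : ℝ → ℝ} (h : Lft F) (x : ℝ) : F (nv F x) = x :=
  Function.rightInverse_invFun h.surj x

theorem Lft.nv {F : ℝ → ℝ} (h : Lft F) : Lft (nv F) := by
  have hm : StrictMono (HR.nv F) := by
    intro x y hxy
    rw [← h.mono.lt_iff_lt, h.nv_right, h.nv_right]
    exact hxy
  refine ⟨hm.monotone.continuous_of_surjective (fun x => ⟨F x, h.nv_left x⟩), hm, fun x => ?_⟩
  apply h.mono.injective
  rw [h.nv_right, h.add_one, h.nv_right]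

theorem Lft.id : Lft (fun x : ℝ => x) := ⟨continuous_id, strictMono_id, fun _ => rfl⟩

/-! ### the sequence of scales -/

/-- the chosen profile -/
noncomputable def sM (M : ℕ) : ℝ → ℝ :=
  if h : 0 < M then (exists_prof M h).choose else fun x => x

/-- its Lipschitz constant -/
noncomputable def cM (M : ℕ) : ℝ :=
  if h : 0 < M then (exists_prof M h).choose_spec.choose else 1

theorem prof_sM (M : ℕ) (h : 0 < M) : Prof (sM M) M (cM M) := by
  unfold sM cM
  rw [dif_pos h, dif_pos h]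
  exact (exists_prof M h).choose_spec.choose_spec

/-- number of steps in terms of the Lipschitz constant of the previous maps -/
noncomputable def kk (n : ℕ) (P : ℝ) : ℕ := ⌈2 ^ (n + 2) * P⌉₊ + n + 1

/-- Lipschitz constants of the finite compositions -/
noncomputable def PP : ℕ → ℝ
  | 0 => 1
  | n + 1 => PP n * cM ((kk n (PP n)) ^ 2)

/-- number of steps at level `n` -/
noncomputable def KK (n : ℕ) : ℕ := kk n (PP n)

/-- number of shifts at level `n` -/
noncomputable def MM (n : ℕ) : ℕ := KK n ^ 2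

theorem KK_ge (n : ℕ) : n + 1 ≤ KK n := by
  unfold KK kk
  omega

theorem KK_pos (n : ℕ) : 0 < KK n := lt_of_lt_of_le (Nat.succ_pos n) (KK_ge n)

theorem MM_pos (n : ℕ) : 0 < MM n := pow_pos (KK_pos n) 2

theorem PP_ge : ∀ n, 1 ≤ PP n
  | 0 => le_rfl
  | n + 1 => by
    have h1 := PP_ge n
    have h2 := (prof_sM (MM n) (MM_pos n)).one_le
    show 1 ≤ PP n * cM (MM n)
    nlinarith

theorem KK_ge2 (n : ℕ) : 2 ^ (n + 2) * PP n ≤ KK n := by
  have h1 := Nat.le_ceil (2 ^ (n + 2) * PP n)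
  have h2 : KK n = ⌈2 ^ (n + 2) * PP n⌉₊ + n + 1 := rfl
  rw [h2]
  push_cast
  have : (0 : ℝ) ≤ n := Nat.cast_nonneg n
  linarith

/-- the near-step map of level `n` -/
noncomputable def ψ (n : ℕ) (p : ℕ × ℕ) : ℝ → ℝ := step (sM (MM n)) (KK n) (MM n) p

theorem ψ_lft (n : ℕ) (p : ℕ × ℕ) : Lft (ψ n p) := step_lft (prof_sM _ (MM_pos n)) (KK_pos n) p

theorem ψ_near (n : ℕ) (p : ℕ × ℕ) (x : ℝ) : PP n * |ψ n p x - x| ≤ 1 / 2 / 2 ^ n := by
  have h1 : |ψ n p x - x| ≤ 2 / KK n := step_near (prof_sM _ (MM_pos n)) (KK_pos n) (MM_pos n) p x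
  have h2 := KK_ge2 n
  have h3 := PP_ge n
  have h4 : (0 : ℝ) < KK n := by exact_mod_cast KK_pos n
  calc PP n * |ψ n p x - x| ≤ PP n * (2 / KK n) := by gcongr
    _ ≤ 1 / 2 / 2 ^ n := by
      rw [← mul_div_assoc, div_le_iff₀ h4]
      have h5 : (1 : ℝ) / 2 / 2 ^ n * (2 ^ (n + 2) * PP n) = PP n * 2 := by
        rw [pow_add]
        field_simp
      rw [← h5]
      gcongr

theorem ψ_near' (n : ℕ) (p : ℕ × ℕ) (x : ℝ) : |ψ n p x - x| ≤ 1 / 2 / 2 ^ n := by
  have h1 := ψ_near n p x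
  have h3 := PP_ge n
  have h4 := abs_nonneg (ψ n p x - x)
  nlinarith

/-! ### finite compositions -/

/-- `ψ 0 ∘ … ∘ ψ (n - 1)` -/
noncomputable def FF (ω : ℕ → ℕ × ℕ) : ℕ → ℝ → ℝ
  | 0 => fun x => x
  | n + 1 => FF ω n ∘ ψ n (ω n)

/-- its inverse -/
noncomputable def GG (ω : ℕ → ℕ × ℕ) : ℕ → ℝ → ℝ
  | 0 => fun x => x
  | n + 1 => nv (ψ n (ω n)) ∘ GG ω n

theorem FF_lft (ω : ℕ → ℕ × ℕ) : ∀ n, Lft (FF ω n)
  | 0 => Lft.id
  | n + 1 => (FF_lft ω n).comp (ψ_lft n (ω n))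

theorem GG_lft (ω : ℕ → ℕ × ℕ) : ∀ n, Lft (GG ω n)
  | 0 => Lft.id
  | n + 1 => (ψ_lft n (ω n)).nv.comp (GG_lft ω n)

theorem FG (ω : ℕ → ℕ × ℕ) : ∀ n x, FF ω n (GG ω n x) = x
  | 0, x => rfl
  | n + 1, x => by
    show FF ω n (ψ n (ω n) (nv (ψ n (ω n)) (GG ω n x))) = x
    rw [(ψ_lft n (ω n)).nv_right, FG ω n]

theorem GF (ω : ℕ → ℕ × ℕ) : ∀ n x, GG ω n (FF ω n x) = x
  | 0, x => rfl
  | n + 1, x => by
    show nv (ψ n (ω n)) (GG ω n (FF ω n (ψ n (ω n) x))) = x
    rw [GF ω n, (ψ_lft n (ω n)).nv_left]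

theorem FF_lip (ω : ℕ → ℕ × ℕ) : ∀ n x y, |FF ω n x - FF ω n y| ≤ PP n * |x - y|
  | 0, x, y => by
    show |x - y| ≤ 1 * |x - y|
    linarith
  | n + 1, x, y => by
    have h1 := FF_lip ω n (ψ n (ω n) x) (ψ n (ω n) y)
    have h2 : |ψ n (ω n) x - ψ n (ω n) y| ≤ cM (MM n) * |x - y| :=
      step_lip (prof_sM _ (MM_pos n)) (KK_pos n) (ω n) x y
    have h3 := PP_ge n
    show |FF ω n (ψ n (ω n) x) - FF ω n (ψ n (ω n) y)| ≤ PP n * cM (MM n) * |x - y|
    calc _ ≤ PP n * |ψ n (ω n) x - ψ n (ω n) y| := h1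
      _ ≤ PP n * (cM (MM n) * |x - y|) := by gcongr
      _ = _ := by ring

theorem FF_step (ω : ℕ → ℕ × ℕ) (x : ℝ) (n : ℕ) :
    dist (FF ω n x) (FF ω (n + 1) x) ≤ 1 / 2 / 2 ^ n := by
  rw [dist_comm, Real.dist_eq]
  exact (FF_lip ω n (ψ n (ω n) x) x).trans (ψ_near n (ω n) x)

theorem GG_step (ω : ℕ → ℕ × ℕ) (x : ℝ) (n : ℕ) :
    dist (GG ω n x) (GG ω (n + 1) x) ≤ 1 / 2 / 2 ^ n := by
  rw [Real.dist_eq]
  have h1 := ψ_near' n (ω n) (nv (ψ n (ω n)) (GG ω n x))
  rw [(ψ_lft n (ω n)).nv_right] at h1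
  exact h1

/-- the infinite composition -/
noncomputable def Fi (ω : ℕ → ℕ × ℕ) (x : ℝ) : ℝ := limUnder atTop (fun n => FF ω n x)

/-- the inverse of the infinite composition -/
noncomputable def Gi (ω : ℕ → ℕ × ℕ) (x : ℝ) : ℝ := limUnder atTop (fun n => GG ω n x)

theorem tend_F (ω : ℕ → ℕ × ℕ) (x : ℝ) : Tendsto (fun n => FF ω n x) atTop (𝓝 (Fi ω x)) :=
  CauchySeq.tendsto_limUnder (cauchySeq_of_le_geometric_two (FF_step ω x))

theorem tend_G (ω : ℕ → ℕ × ℕ) (x : ℝ) : Tendsto (fun n => GG ω n x) atTop (𝓝 (Gi ω x)) :=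
  CauchySeq.tendsto_limUnder (cauchySeq_of_le_geometric_two (GG_step ω x))

theorem dist_F (ω : ℕ → ℕ × ℕ) (x : ℝ) (n : ℕ) : dist (FF ω n x) (Fi ω x) ≤ 1 / 2 ^ n :=
  dist_le_of_le_geometric_two_of_tendsto (FF_step ω x) (tend_F ω x) n

theorem dist_G (ω : ℕ → ℕ × ℕ) (x : ℝ) (n : ℕ) : dist (GG ω n x) (Gi ω x) ≤ 1 / 2 ^ n :=
  dist_le_of_le_geometric_two_of_tendsto (GG_step ω x) (tend_G ω x) n

theorem unif_F (ω : ℕ → ℕ × ℕ) : TendstoUniformly (FF ω) (Fi ω) atTop := by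
  rw [Metric.tendstoUniformly_iff]
  intro ε hε
  obtain ⟨N, hN⟩ := exists_pow_lt_of_lt_one hε (by norm_num : (1 / 2 : ℝ) < 1)
  filter_upwards [eventually_ge_atTop N] with n hn x
  rw [dist_comm]
  refine (dist_F ω x n).trans_lt (lt_of_le_of_lt ?_ hN)
  rw [one_div, one_div, ← inv_pow]
  exact pow_le_pow_of_le_one (by norm_num) (by norm_num) hn

theorem unif_G (ω : ℕ → ℕ × ℕ) : TendstoUniformly (GG ω) (Gi ω) atTop := by
  rw [Metric.tendstoUniformly_iff]
  intro ε hε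
  obtain ⟨N, hN⟩ := exists_pow_lt_of_lt_one hε (by norm_num : (1 / 2 : ℝ) < 1)
  filter_upwards [eventually_ge_atTop N] with n hn x
  rw [dist_comm]
  refine (dist_G ω x n).trans_lt (lt_of_le_of_lt ?_ hN)
  rw [one_div, one_div, ← inv_pow]
  exact pow_le_pow_of_le_one (by norm_num) (by norm_num) hn

theorem cont_F (ω : ℕ → ℕ × ℕ) : Continuous (Fi ω) :=
  (unif_F ω).continuous (Frequently.of_forall fun n => (FF_lft ω n).cont)

theorem cont_G (ω : ℕ → ℕ × ℕ) : Continuous (Gi ω) :=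
  (unif_G ω).continuous (Frequently.of_forall fun n => (GG_lft ω n).cont)

theorem Fi_Gi (ω : ℕ → ℕ × ℕ) (x : ℝ) : Fi ω (Gi ω x) = x := by
  have h1 : Tendsto (fun n => FF ω n (GG ω n x)) atTop (𝓝 (Fi ω (Gi ω x))) :=
    (unif_F ω).tendsto_comp (cont_F ω).continuousAt (tend_G ω x)
  simp only [FG] at h1
  exact (tendsto_nhds_unique h1 tendsto_const_nhds)

theorem Gi_Fi (ω : ℕ → ℕ × ℕ) (x : ℝ) : Gi ω (Fi ω x) = x := by
  have h1 : Tendsto (fun n => GG ω n (FF ω n x)) atTop (𝓝 (Gi ω (Fi ω x))) :=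
    (unif_G ω).tendsto_comp (cont_G ω).continuousAt (tend_F ω x)
  simp only [GF] at h1
  exact (tendsto_nhds_unique h1 tendsto_const_nhds)

theorem Fi_lft (ω : ℕ → ℕ × ℕ) : Lft (Fi ω) := by
  refine ⟨cont_F ω, ?_, ?_⟩
  · have hm : Monotone (Fi ω) := by
      intro x y hxy
      exact le_of_tendsto_of_tendsto' (tend_F ω x) (tend_F ω y)
        (fun n => (FF_lft ω n).mono.monotone hxy)
    exact hm.strictMono_of_injective (Function.LeftInverse.injective (Gi_Fi ω))
  · intro x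
    have h1 := tend_F ω (x + 1)
    simp only [(FF_lft ω _).add_one] at h1
    exact tendsto_nhds_unique h1 ((tend_F ω x).add_const 1)

theorem Gi_lft (ω : ℕ → ℕ × ℕ) : Lft (Gi ω) := by
  refine ⟨cont_G ω, ?_, ?_⟩
  · have hm : Monotone (Gi ω) := by
      intro x y hxy
      exact le_of_tendsto_of_tendsto' (tend_G ω x) (tend_G ω y)
        (fun n => (GG_lft ω n).mono.monotone hxy)
    exact hm.strictMono_of_injective (Function.LeftInverse.injective (Fi_Gi ω))
  · intro x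
    have h1 := tend_G ω (x + 1)
    simp only [(GG_lft ω _).add_one] at h1
    exact tendsto_nhds_unique h1 ((tend_G ω x).add_const 1)

/-! ### dependence on the parameters -/

theorem FF_congr {ω ω' : ℕ → ℕ × ℕ} : ∀ n, (∀ i < n, ω i = ω' i) → FF ω n = FF ω' n
  | 0, _ => rfl
  | n + 1, h => by
    show FF ω n ∘ ψ n (ω n) = FF ω' n ∘ ψ n (ω' n)
    rw [FF_congr n (fun i hi => h i (by omega)), h n (by omega)]

theorem GG_congr {ω ω' : ℕ → ℕ × ℕ} : ∀ n, (∀ i < n, ω i = ω' i) → GG ω n = GG ω' n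
  | 0, _ => rfl
  | n + 1, h => by
    show nv (ψ n (ω n)) ∘ GG ω n = nv (ψ n (ω' n)) ∘ GG ω' n
    rw [GG_congr n (fun i hi => h i (by omega)), h n (by omega)]

theorem Fi_close {ω ω' : ℕ → ℕ × ℕ} (n : ℕ) (h : ∀ i < n, ω i = ω' i) (x : ℝ) :
    |Fi ω x - Fi ω' x| ≤ 2 / 2 ^ n := by
  have h1 := dist_F ω x n
  have h2 := dist_F ω' x n
  rw [FF_congr n h, Real.dist_eq] at h1
  rw [Real.dist_eq] at h2
  have h3 : (2 : ℝ) / 2 ^ n = 1 / 2 ^ n + 1 / 2 ^ n := by ring
  rw [h3]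
  rw [abs_le] at *
  constructor <;> linarith [h1.1, h1.2, h2.1, h2.2]

theorem Gi_close {ω ω' : ℕ → ℕ × ℕ} (n : ℕ) (h : ∀ i < n, ω i = ω' i) (x : ℝ) :
    |Gi ω x - Gi ω' x| ≤ 2 / 2 ^ n := by
  have h1 := dist_G ω x n
  have h2 := dist_G ω' x n
  rw [GG_congr n h, Real.dist_eq] at h1
  rw [Real.dist_eq] at h2
  have h3 : (2 : ℝ) / 2 ^ n = 1 / 2 ^ n + 1 / 2 ^ n := by ring
  rw [h3]
  rw [abs_le] at *
  constructor <;> linarith [h1.1, h1.2, h2.1, h2.2]

theorem FF_update (ω : ℕ → ℕ × ℕ) (n : ℕ) (p : ℕ × ℕ) (m : ℕ) (x : ℝ) :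
    FF (Function.update ω n p) (n + 1 + m) x =
      FF ω n (ψ n p (GG ω (n + 1) (FF ω (n + 1 + m) x))) := by
  induction m generalizing x with
  | zero =>
    rw [add_zero, GF]
    show FF (Function.update ω n p) n (ψ n (Function.update ω n p n) x) = _
    rw [Function.update_self, FF_congr n (ω' := ω)]
    intro i hi
    rw [Function.update_of_ne (by omega)]
  | succ m ih =>
    show FF (Function.update ω n p) (n + 1 + m) (ψ (n + 1 + m) (Function.update ω n p (n + 1 + m)) x)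
      = FF ω n (ψ n p (GG ω (n + 1) (FF ω (n + 1 + m) (ψ (n + 1 + m) (ω (n + 1 + m)) x))))
    rw [ih, Function.update_of_ne (by omega)]

theorem Fi_update (ω : ℕ → ℕ × ℕ) (n : ℕ) (p : ℕ × ℕ) (x : ℝ) :
    Fi (Function.update ω n p) x = FF ω n (ψ n p (GG ω (n + 1) (Fi ω x))) := by
  have h1 : Tendsto (fun m => FF (Function.update ω n p) (m + (n + 1)) x) atTop
      (𝓝 (Fi (Function.update ω n p) x)) :=
    (tendsto_add_atTop_iff_nat (n + 1)).2 (tend_F (Function.update ω n p) x)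
  have h2 : Tendsto (fun m => FF ω (m + (n + 1)) x) atTop (𝓝 (Fi ω x)) :=
    (tendsto_add_atTop_iff_nat (n + 1)).2 (tend_F ω x)
  have h3 : Continuous fun y => FF ω n (ψ n p (GG ω (n + 1) y)) :=
    (FF_lft ω n).cont.comp ((ψ_lft n p).cont.comp (GG_lft ω (n + 1)).cont)
  have h4 := (h3.tendsto (Fi ω x)).comp h2
  refine tendsto_nhds_unique h1 (h4.congr (fun m => ?_))
  rw [Function.comp_apply, add_comm m (n + 1), FF_update]

theorem HasPer.conj {A Q : ℝ → ℝ} (hA : Lft A) (h : HasPer (Q ∘ A)) : HasPer (A ∘ Q) := by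
  obtain ⟨q, p, z, hq, hz⟩ := h
  refine ⟨q, p, A z, hq, ?_⟩
  have h1 : Function.Semiconj A (Q ∘ A) (A ∘ Q) := fun x => rfl
  have h2 := (h1.iterate_right q) z
  rw [← h2, hz, hA.add_int]

open Classical in
/-- for all values of the other parameters, few values of the parameter of level `n` are bad -/
theorem card_bad_update (k : ℝ → ℝ) (hk : Lft k) (ω : ℕ → ℕ × ℕ) (n : ℕ) :
    ((Finset.range (MM n) ×ˢ Finset.range (MM n)).filter
      (fun p => ¬ HasPer (Fi (Function.update ω n p) ∘ k))).card ≤ 2 * (KK n * MM n) := by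
  have hF : Lft ((GG ω (n + 1) ∘ Fi ω ∘ k) ∘ FF ω n) :=
    (((GG_lft ω (n + 1)).comp ((Fi_lft ω).comp hk))).comp (FF_lft ω n)
  refine le_trans (Finset.card_le_card ?_) (card_bad (prof_sM _ (MM_pos n)) (KK_pos n) (MM_pos n) hF)
  intro p hp
  rw [Finset.mem_filter] at hp ⊢
  refine ⟨hp.1, fun hcon => hp.2 ?_⟩
  have h1 : HasPer ((ψ n p ∘ (GG ω (n + 1) ∘ Fi ω ∘ k)) ∘ FF ω n) := hcon
  have h2 := h1.conj (FF_lft ω n)
  have h3 : Fi (Function.update ω n p) ∘ k = FF ω n ∘ (ψ n p ∘ (GG ω (n + 1) ∘ Fi ω ∘ k)) := by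
    funext x
    simp only [Function.comp_apply, Fi_update]
  rw [h3]
  exact h2

/-! ### the probability measure on the parameters -/

/-- uniform distribution at level `n` -/
noncomputable def ν (n : ℕ) : Measure (ℕ × ℕ) :=
  (PMF.uniformOfFinset (Finset.range (MM n) ×ˢ Finset.range (MM n))
    ⟨(0, 0), by simp [MM_pos n]⟩).toMeasure

noncomputable instance (n : ℕ) : IsProbabilityMeasure (ν n) := by
  unfold ν
  infer_instance

/-- product distribution -/
noncomputable def μΩ : Measure (ℕ → ℕ × ℕ) := Measure.infinitePi ν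

instance : IsProbabilityMeasure μΩ := by
  unfold μΩ
  infer_instance

theorem meas_update (n : ℕ) :
    Measurable (fun z : (ℕ → ℕ × ℕ) × (ℕ × ℕ) => Function.update z.1 n z.2) := by
  rw [measurable_pi_iff]
  intro i
  by_cases h : i = n
  · subst h
    simp only [Function.update_self]
    exact measurable_snd
  · simp only [Function.update_of_ne h]
    exact (measurable_pi_apply i).comp measurable_fst

theorem map_update (n : ℕ) :
    (μΩ.prod (ν n)).map (fun z : (ℕ → ℕ × ℕ) × (ℕ × ℕ) => Function.update z.1 n z.2) = μΩ := by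
  unfold μΩ
  apply Measure.eq_infinitePi
  intro s t ht
  rw [Measure.map_apply (meas_update n) (MeasurableSet.pi s.countable_toSet (fun i _ => ht i))]
  by_cases hn : n ∈ s
  · have h1 : (fun z : (ℕ → ℕ × ℕ) × (ℕ × ℕ) => Function.update z.1 n z.2) ⁻¹' (Set.pi s t) =
        (Set.pi ((s.erase n : Finset ℕ) : Set ℕ) t) ×ˢ (t n) := by
      ext z
      simp only [mem_preimage, Set.mem_pi, Finset.mem_coe, mem_prod, Finset.mem_erase]
      constructor
      · intro h
        refine ⟨fun i hi => ?_, ?_⟩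
        · have := h i hi.2
          rwa [Function.update_of_ne hi.1] at this
        · have := h n hn
          rwa [Function.update_self] at this
      · intro h i hi
        by_cases hin : i = n
        · subst hin
          rw [Function.update_self]
          exact h.2
        · rw [Function.update_of_ne hin]
          exact h.1 i ⟨hin, hi⟩
    rw [h1, Measure.prod_prod, Measure.infinitePi_pi ν (fun i _ => ht i), mul_comm,
      Finset.mul_prod_erase s (fun i => ν i (t i)) hn]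
  · have h1 : (fun z : (ℕ → ℕ × ℕ) × (ℕ × ℕ) => Function.update z.1 n z.2) ⁻¹' (Set.pi s t) =
        (Set.pi (s : Set ℕ) t) ×ˢ univ := by
      ext z
      simp only [mem_preimage, Set.mem_pi, Finset.mem_coe, mem_prod, mem_univ, and_true]
      constructor
      · intro h i hi
        have := h i hi
        rwa [Function.update_of_ne (by rintro rfl; exact hn hi)] at this
      · intro h i hi
        rw [Function.update_of_ne (by rintro rfl; exact hn hi)]
        exact h i hi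
    rw [h1, Measure.prod_prod, Measure.infinitePi_pi ν (fun i _ => ht i), measure_univ, mul_one]

theorem bad_null (k : ℝ → ℝ) (hk : Lft k) (S : Set (ℕ → ℕ × ℕ)) (hS : MeasurableSet S)
    (hbad : ∀ ω ∈ S, ¬ HasPer (Fi ω ∘ k)) : μΩ S = 0 := by
  classical
  have key : ∀ n : ℕ, μΩ S ≤ 2 / (KK n : ENNReal) := by
    intro n
    have hKn : (KK n : ENNReal) ≠ 0 := by exact_mod_cast (KK_pos n).ne'
    have hKt : (KK n : ENNReal) ≠ ⊤ := ENNReal.natCast_ne_top _
    rw [← map_update n, Measure.map_apply (meas_update n) hS, Measure.prod_apply (meas_update n hS)]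
    have h1 : ∀ ω, ν n (Prod.mk ω ⁻¹' ((fun z : (ℕ → ℕ × ℕ) × (ℕ × ℕ) =>
        Function.update z.1 n z.2) ⁻¹' S)) ≤ 2 / (KK n : ENNReal) := by
      intro ω
      unfold ν
      rw [PMF.toMeasure_uniformOfFinset_apply _ _ (DiscreteMeasurableSpace.forall_measurableSet _)]
      have h2 : ((Finset.range (MM n) ×ˢ Finset.range (MM n)).filter (fun p => p ∈ Prod.mk ω ⁻¹'
          ((fun z : (ℕ → ℕ × ℕ) × (ℕ × ℕ) => Function.update z.1 n z.2) ⁻¹' S))).card ≤
          2 * (KK n * MM n) := by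
        refine le_trans (Finset.card_le_card ?_) (card_bad_update k hk ω n)
        intro p hp
        rw [Finset.mem_filter] at hp ⊢
        exact ⟨hp.1, hbad _ hp.2⟩
      have h3 : ((Finset.range (MM n) ×ˢ Finset.range (MM n)).card) = KK n * (KK n * MM n) := by
        rw [Finset.card_product, Finset.card_range]
        show MM n * MM n = _
        unfold MM
        ring
      rw [h3]
      rw [ENNReal.div_le_iff (by exact_mod_cast (Nat.mul_pos (KK_pos n)
        (Nat.mul_pos (KK_pos n) (MM_pos n))).ne') (ENNReal.natCast_ne_top _)]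
      have h4 : (2 : ENNReal) / (KK n : ENNReal) * ((KK n * (KK n * MM n) : ℕ) : ENNReal) =
          ((2 * (KK n * MM n) : ℕ) : ENNReal) := by
        push_cast
        rw [← mul_assoc, ENNReal.div_mul_cancel hKn hKt]
      rw [h4]
      exact_mod_cast h2
    calc ∫⁻ ω, ν n (Prod.mk ω ⁻¹' ((fun z : (ℕ → ℕ × ℕ) × (ℕ × ℕ) =>
        Function.update z.1 n z.2) ⁻¹' S)) ∂μΩ ≤ ∫⁻ _, 2 / (KK n : ENNReal) ∂μΩ :=
          lintegral_mono h1
      _ = 2 / (KK n : ENNReal) := by rw [lintegral_const, measure_univ, mul_one]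
  have hlim : Tendsto (fun n : ℕ => 2 / ((n + 1 : ℕ) : ENNReal)) atTop (𝓝 0) := by
    have h1 : Tendsto (fun n : ℕ => 2 / (n : ENNReal)) atTop (𝓝 0) :=
      ENNReal.Tendsto.const_div ENNReal.tendsto_nat_nhds_top (Or.inr (by norm_num)) |>.trans
        (by simp)
    exact (tendsto_add_atTop_iff_nat 1).2 h1
  have h2 : μΩ S ≤ 0 := by
    refine ge_of_tendsto' hlim (fun n => (key n).trans ?_)
    gcongr
    exact KK_ge n
  exact le_antisymm h2 bot_le

end Pool.Agent.V1131.HR
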