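import Mathlib

/-!
Definitions for MP_e17fb9_al: the automaton `A_Y` over a finite group `Y`, the group `G_Y` it
generates, the finite state wreath power `W_Y` of the regular group `Y`, and the lamplighter group
`Y wr Z`.
-/

namespace Pool.Agent.V1131.LampAut

universe u

variable {Y : Type u} [Group Y]

/-- The map on words defined by the state `q` of an automaton with transition map `π` whose output
map at the state `q` is the left multiplication by `μ q`. -/
def run {Q : Type*} (π : Q → Y → Q) (μ : Q → Y) : Q → List Y → List Y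
  | _, [] => []
  | q, x :: w => (μ q * x) :: run π μ (π q x) w

/-- The map `a_i` on words: in state `a_i`, on reading `j`, output `i * j` and move to the state
`a_{j⁻¹ * i}`. -/
def aFun (i : Y) (w : List Y) : List Y := run (fun i j => j⁻¹ * i) (fun i => i) i w

omit [Group Y] in
lemma length_run [Group Y] {Q : Type*} (π : Q → Y → Q) (μ : Q → Y) (q : Q) (w : List Y) :
    (run π μ q w).length = w.length := by
  induction w generalizing q with
  | nil => rfl
  | cons x w ih => simp [run, ih]

/-- The states of the inverse automaton: the state is unchanged, the letter read is the output. -/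
lemma run_inv {Q : Type*} (π : Q → Y → Q) (μ : Q → Y) (q : Q) (w : List Y) :
    run (fun q y => π q ((μ q)⁻¹ * y)) (fun q => (μ q)⁻¹) q (run π μ q w) = w := by
  induction w generalizing q with
  | nil => rfl
  | cons x w ih => simp [run, ih]

lemma run_inv' {Q : Type*} (π : Q → Y → Q) (μ : Q → Y) (q : Q) (w : List Y) :
    run π μ q (run (fun q y => π q ((μ q)⁻¹ * y)) (fun q => (μ q)⁻¹) q w) = w := by
  induction w generalizing q with
  | nil => rfl
  | cons x w ih => simp [run, ih]

/-- The permutation of the set of words defined by a state of such an automaton. -/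
def runPerm {Q : Type*} (π : Q → Y → Q) (μ : Q → Y) (q : Q) : Equiv.Perm (List Y) where
  toFun := run π μ q
  invFun := run (fun q y => π q ((μ q)⁻¹ * y)) (fun q => (μ q)⁻¹) q
  left_inv := run_inv π μ q
  right_inv := run_inv' π μ q

/-- The generator `a_i` as a permutation of `Y^*`. -/
def a (i : Y) : Equiv.Perm (List Y) := runPerm (fun i j => j⁻¹ * i) (fun i => i) i

lemma a_nil (i : Y) : a i [] = [] := rfl

/-- The defining rule `a_i (j w) = (i j) a_{j⁻¹ i} (w)`. -/
lemma a_cons (i j : Y) (w : List Y) : a i (j :: w) = (i * j) :: a (j⁻¹ * i) w := rfl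

/-- The group `G_Y` generated by the `a_i`, `i ∈ Y`. -/
def GY (Y : Type u) [Group Y] : Subgroup (Equiv.Perm (List Y)) :=
  Subgroup.closure (Set.range (a : Y → Equiv.Perm (List Y)))

/-- A map on words is finite state (over the regular group `Y`) if it is defined at some state of
some finite automaton all of whose output maps are left multiplications. -/
def IsFS (f : List Y → List Y) : Prop :=
  ∃ (Q : Type u) (_ : Finite Q) (π : Q → Y → Q) (μ : Q → Y) (q : Q), f = run π μ q

lemma run_comp {Q₁ Q₂ : Type*} (π₁ : Q₁ → Y → Q₁) (μ₁ : Q₁ → Y) (π₂ : Q₂ → Y → Q₂) (μ₂ : Q₂ → Y)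
    (q₁ : Q₁) (q₂ : Q₂) (w : List Y) :
    run π₁ μ₁ q₁ (run π₂ μ₂ q₂ w) =
      run (Q := Q₁ × Q₂) (fun q x => (π₁ q.1 (μ₂ q.2 * x), π₂ q.2 x)) (fun q => μ₁ q.1 * μ₂ q.2)
        (q₁, q₂) w := by
  induction w generalizing q₁ q₂ with
  | nil => rfl
  | cons x w ih => simp [run, ih, mul_assoc]

/-- The finite state wreath power `W_Y` of the regular group `Y`, as a group of permutations of
`Y^*`. -/
def WY (Y : Type u) [Group Y] : Subgroup (Equiv.Perm (List Y)) where
  carrier := {f | IsFS (Y := Y) f}
  mul_mem' := by
    rintro f g ⟨Q₁, h₁, π₁, μ₁, q₁, hf⟩ ⟨Q₂, h₂, π₂, μ₂, q₂, hg⟩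
    refine ⟨Q₁ × Q₂, inferInstance, fun q x => (π₁ q.1 (μ₂ q.2 * x), π₂ q.2 x),
      fun q => μ₁ q.1 * μ₂ q.2, (q₁, q₂), ?_⟩
    funext w
    rw [Equiv.Perm.coe_mul, Function.comp_apply, hf, hg]
    exact run_comp π₁ μ₁ π₂ μ₂ q₁ q₂ w
  one_mem' := by
    refine ⟨PUnit, inferInstance, fun _ _ => PUnit.unit, fun _ => 1, PUnit.unit, ?_⟩
    funext w
    induction w with
    | nil => rfl
    | cons x w ih =>
      simp only [Equiv.Perm.coe_one, id_eq, run, one_mul] at ih ⊢
      rw [← ih]
  inv_mem' := by
    rintro f ⟨Q, h, π, μ, q, hf⟩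
    refine ⟨Q, h, fun q y => π q ((μ q)⁻¹ * y), fun q => (μ q)⁻¹, q, ?_⟩
    funext w
    rw [Equiv.Perm.inv_eq_iff_eq]
    rw [hf]
    exact (run_inv' π μ q w).symm

lemma GY_le_WY (Y : Type u) [Group Y] [Finite Y] : GY Y ≤ WY Y := by
  rw [GY, Subgroup.closure_le]
  rintro _ ⟨i, rfl⟩
  exact ⟨Y, inferInstance, fun i j => j⁻¹ * i, fun i => i, i, rfl⟩

/-- The base group of the lamplighter group: finitely supported functions `ℤ → Y`. -/
def base (Y : Type u) [Group Y] : Subgroup (ℤ → Y) where
  carrier := {f | {n | f n ≠ 1}.Finite}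
  mul_mem' := by
    intro f g hf hg
    refine (hf.union hg).subset ?_
    intro n hn
    by_contra h
    simp only [Set.mem_union, Set.mem_ofPred_eq, not_or, not_not] at h
    exact hn (by simp [h.1, h.2])
  one_mem' := by simp
  inv_mem' := by
    intro f hf
    refine hf.subset ?_
    intro n hn h
    exact hn (by simp [h])

/-- The shift of a function by `m`. -/
def shiftEquiv (Y : Type u) [Group Y] (m : ℤ) : base Y ≃* base Y where
  toFun f := ⟨fun n => f.1 (n - m), by
    have h := f.2
    refine (h.image (fun n => n + m)).subset ?_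
    intro n hn
    exact ⟨n - m, hn, by simp⟩⟩
  invFun f := ⟨fun n => f.1 (n + m), by
    have h := f.2
    refine (h.image (fun n => n - m)).subset ?_
    intro n hn
    exact ⟨n + m, hn, by simp⟩⟩
  left_inv f := by ext n; simp
  right_inv f := by ext n; simp
  map_mul' f g := by ext n; rfl

/-- The shift action of `ℤ` on the base group. -/
def shift (Y : Type u) [Group Y] : Multiplicative ℤ →* MulAut (base Y) where
  toFun m := shiftEquiv Y m.toAdd
  map_one' := by ext f n; simp [shiftEquiv]
  map_mul' m m' := by
    ext f n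
    change f.1 (n - (m * m').toAdd) = f.1 (n - m.toAdd - m'.toAdd)
    rw [toAdd_mul, sub_add_eq_sub_sub]

/-- The lamplighter group `Y wr ℤ`: the restricted wreath product. -/
abbrev Lamplighter (Y : Type u) [Group Y] : Type u := base Y ⋊[shift Y] Multiplicative ℤ

/-- The element of the base group with value `y` at `0`. -/
noncomputable def single (n : ℤ) (y : Y) : base Y := by
  classical
  exact ⟨Pi.mulSingle n y, by
    refine (Set.finite_singleton n).subset ?_
    intro m hm
    by_contra h
    exact hm (Pi.mulSingle_eq_of_ne (M := fun _ => Y) h y)⟩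

lemma single_mul (n : ℤ) (y z : Y) : single n (y * z) = single n y * single n z := by
  classical
  apply Subtype.ext
  exact Pi.mulSingle_mul (f := fun _ : ℤ => Y) n y z

lemma single_injective (n : ℤ) : Function.Injective (single n : Y → base Y) := by
  classical
  intro y z h
  have := congrArg Subtype.val h
  exact Pi.mulSingle_injective n this

lemma single_comm {n m : ℤ} (h : n ≠ m) (y z : Y) : Commute (single n y) (single m z) := by
  classical
  apply Subtype.ext
  exact Pi.mulSingle_commute (f := fun _ => Y) h y z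

lemma shift_single (m : ℤ) (y : Y) :
    shift Y (Multiplicative.ofAdd m) (single 0 y) = single m y := by
  classical
  apply Subtype.ext
  funext n
  change (Pi.mulSingle (M := fun _ => Y) 0 y : ℤ → Y) (n - m) =
    (Pi.mulSingle (M := fun _ => Y) m y : ℤ → Y) n
  by_cases h : n = m
  · subst h; simp
  · rw [Pi.mulSingle_eq_of_ne h, Pi.mulSingle_eq_of_ne (sub_ne_zero.mpr h)]

/-- Let `y, z ∈ Y` not commute. Every homomorphism of the lamplighter group to a finite group
identifies the images of `y` and `z` (placed at `0`) with commuting elements. -/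
lemma commute_of_finite {F : Type*} [Group F] [Finite F] (ρ : Lamplighter Y →* F) (y z : Y) :
    Commute (ρ (SemidirectProduct.inl (single 0 y))) (ρ (SemidirectProduct.inl (single 0 z))) := by
  set s : Lamplighter Y := SemidirectProduct.inr (Multiplicative.ofAdd 1) with hs
  set k := orderOf (ρ s) with hk
  have hkpos : 0 < k := orderOf_pos _
  have hpow : ρ (s ^ k) = 1 := by rw [map_pow, hk, pow_orderOf_eq_one]
  have hconj : s ^ k * SemidirectProduct.inl (single 0 z) * (s ^ k)⁻¹ =
      (SemidirectProduct.inl (single (k : ℤ) z) : Lamplighter Y) := by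
    have h1 : s ^ k = SemidirectProduct.inr (Multiplicative.ofAdd (k : ℤ)) := by
      rw [hs, ← map_pow, ← ofAdd_nsmul]
      simp
    rw [h1, ← shift_single (k : ℤ) z, SemidirectProduct.inl_aut, map_inv]
  have h2 : ρ (SemidirectProduct.inl (single 0 z)) = ρ (SemidirectProduct.inl (single (k : ℤ) z)) := by
    rw [← hconj]
    simp [hpow]
  rw [h2]
  have h3 : Commute (single 0 y) (single (k : ℤ) z : base Y) :=
    single_comm (by exact_mod_cast hkpos.ne) y z
  exact (h3.map (SemidirectProduct.inl (φ := shift Y))).map ρ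

/-- A group `R` whose elements are separated by homomorphisms to finite groups contains no copy of
the lamplighter group over a nonabelian group. -/
lemma not_injective {R : Type*} [Group R]
    (hR : ∀ r : R, r ≠ 1 → ∃ (F : Type u) (_ : Group F) (_ : Finite F) (ρ : R →* F), ρ r ≠ 1)
    {y z : Y} (hyz : y * z ≠ z * y) (φ : Lamplighter Y →* R) : ¬ Function.Injective φ := by
  intro hφ
  set Y₀ : Lamplighter Y := SemidirectProduct.inl (single 0 y)
  set Z₀ : Lamplighter Y := SemidirectProduct.inl (single 0 z)
  have hne : Y₀ * Z₀ * (Z₀ * Y₀)⁻¹ ≠ 1 := by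
    rw [Ne, mul_inv_eq_one]
    intro h
    simp only [Y₀, Z₀, ← map_mul] at h
    have := SemidirectProduct.inl_injective h
    rw [← single_mul, ← single_mul] at this
    exact hyz (single_injective 0 this)
  obtain ⟨F, _, _, ρ, hρ⟩ := hR (φ (Y₀ * Z₀ * (Z₀ * Y₀)⁻¹)) (by
    intro h
    exact hne (hφ (by rw [h, map_one])))
  apply hρ
  have := commute_of_finite (ρ.comp φ) y z
  rw [map_mul, map_inv, map_mul, map_inv, mul_inv_eq_one]
  have h' : ρ (φ (Y₀ * Z₀)) = ρ (φ (Z₀ * Y₀)) := by
    rw [map_mul, map_mul, map_mul, map_mul]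
    exact this
  exact h'

lemma IsFS.length_eq {f : List Y → List Y} (hf : IsFS f) (w : List Y) :
    (f w).length = w.length := by
  obtain ⟨Q, _, π, μ, q, rfl⟩ := hf
  exact length_run π μ q w

/-- The action of `W_Y` on the words of length `n`. -/
def levelHom (Y : Type u) [Group Y] (n : ℕ) :
    WY Y →* Equiv.Perm {w : List Y // w.length = n} where
  toFun f := 
    { toFun := fun w => ⟨f.1 w.1, by rw [IsFS.length_eq f.2]; exact w.2⟩
      invFun := fun w => ⟨f⁻¹.1 w.1, by rw [IsFS.length_eq f⁻¹.2]; exact w.2⟩
      left_inv := fun w => Subtype.ext (by simp)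
      right_inv := fun w => Subtype.ext (by simp) }
  map_one' := by ext w; rfl
  map_mul' f g := by ext w; rfl

lemma WY_residually_finite (Y : Type u) [Group Y] [Finite Y] (r : WY Y) (hr : r ≠ 1) :
    ∃ (F : Type u) (_ : Group F) (_ : Finite F) (ρ : WY Y →* F), ρ r ≠ 1 := by
  obtain ⟨w, hw⟩ : ∃ w : List Y, r.1 w ≠ w := by
    by_contra h
    push Not at h
    exact hr (Subtype.ext (Equiv.ext h))
  have : Finite {v : List Y // v.length = w.length} := by
    have : Finite (List.Vector Y w.length) := inferInstance
    exact this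
  refine ⟨Equiv.Perm {v : List Y // v.length = w.length}, inferInstance, inferInstance,
    levelHom Y w.length, ?_⟩
  intro h
  have := congrArg (fun (e : Equiv.Perm {v : List Y // v.length = w.length}) =>
    (e ⟨w, rfl⟩).1) h
  exact hw this

/-- No copy of the lamplighter group in `W_Y` for nonabelian finite `Y`. -/
theorem no_lamplighter_in_WY (Y : Type u) [Group Y] [Finite Y] {y z : Y} (hyz : y * z ≠ z * y)
    (φ : Lamplighter Y →* WY Y) : ¬ Function.Injective φ :=
  not_injective (WY_residually_finite Y) hyz φ

end Pool.Agent.V1131.LampAut
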